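import Pool.Agent.Q63.CL.Two

set_option autoImplicit false

/-!
# Large eigenvalues of the connection matrix, any dimension
-/

open Matrix Finset

namespace Pool.Q63.CL

variable {α : Type} [LinearOrder α]

/-- rows of different families -/
theorem sig_one {ι : Type} [Fintype ι] [DecidableEq ι] {T : Type} [Fintype T] [DecidableEq T]
    {J : T → Type} [∀ t, Fintype (J t)] [∀ t, DecidableEq (J t)]
    (Z : ∀ t, Matrix (J t) ι ℝ) (h1 : ∀ t, Z t * (Z t)ᵀ = 1)
    (h0 : ∀ s t, s ≠ t → Z s * (Z t)ᵀ = 0) :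
    (Matrix.of fun (p : Σ t, J t) x => Z p.1 p.2 x)
      * (Matrix.of fun (p : Σ t, J t) x => Z p.1 p.2 x)ᵀ = 1 := by
  ext ⟨s, i⟩ ⟨t, j⟩
  rw [Matrix.mul_apply]
  have e : ∑ x, (Matrix.of fun (p : Σ t, J t) x => Z p.1 p.2 x) ⟨s, i⟩ x
      * (Matrix.of fun (p : Σ t, J t) x => Z p.1 p.2 x)ᵀ x ⟨t, j⟩ = (Z s * (Z t)ᵀ) i j := by
    rw [Matrix.mul_apply]; rfl
  rw [e]
  by_cases h : s = t
  · subst h
    rw [h1, Matrix.one_apply, Matrix.one_apply]
    by_cases hij : i = j
    · subst hij; simp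
    · rw [if_neg hij, if_neg]
      intro h'
      simp at h'
      exact hij h'
  · rw [h0 s t h, Matrix.zero_apply, Matrix.one_apply_ne]
    intro h'
    exact h (congrArg Sigma.fst h')

theorem sig_zero {ι : Type} [Fintype ι] [DecidableEq ι] {T : Type} [Fintype T] [DecidableEq T]
    {J : T → Type} [∀ t, Fintype (J t)] [∀ t, DecidableEq (J t)]
    (Z Y : ∀ t, Matrix (J t) ι ℝ) (h0 : ∀ s t, Z s * (Y t)ᵀ = 0) :
    (Matrix.of fun (p : Σ t, J t) x => Z p.1 p.2 x)
      * (Matrix.of fun (p : Σ t, J t) x => Y p.1 p.2 x)ᵀ = 0 := by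
  ext ⟨s, i⟩ ⟨t, j⟩
  rw [Matrix.mul_apply]
  have e : ∑ x, (Matrix.of fun (p : Σ t, J t) x => Z p.1 p.2 x) ⟨s, i⟩ x
      * (Matrix.of fun (p : Σ t, J t) x => Y p.1 p.2 x)ᵀ x ⟨t, j⟩ = (Z s * (Y t)ᵀ) i j := by
    rw [Matrix.mul_apply]; rfl
  rw [e, h0]; rfl

/-- the multiplier root of the parity class `c` -/
noncomputable def KC (G : Finset (Finset α)) (o : Finset α → ℝ) (c : ℕ) : Matrix G G ℝ :=
  fun x z => if (x : Finset α).card % 2 = c ∨ (x : Finset α).card = 1 then
    (if x = z then 1 else 0) else (1 / √((x : Finset α).card : ℝ)) * inc o x z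

theorem KC_supp (G : Finset (Finset α)) (o : Finset α → ℝ) (c : ℕ) (x z : G)
    (h : KC G o c x z ≠ 0) : (z : Finset α) ⊆ x := by
  unfold KC at h
  split_ifs at h with h1 h2
  · rw [h2]
  · exact absurd rfl h
  · exact (inc_ne (right_ne_zero_of_mul h)).1

theorem KC_row {G : Finset (Finset α)} (hG : IsComplex G) (o : Finset α → ℝ)
    (ho : ∀ x, o x = 1 ∨ o x = -1) (c : ℕ) (x : G) : ∑ z, KC G o c x z ^ 2 = 1 := by
  unfold KC
  by_cases h : (x : Finset α).card % 2 = c ∨ (x : Finset α).card = 1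
  · have e : ∀ z : G, (if (x : Finset α).card % 2 = c ∨ (x : Finset α).card = 1 then
        (if x = z then (1 : ℝ) else 0) else (1 / √((x : Finset α).card : ℝ)) * inc o x z) ^ 2
        = if x = z then 1 else 0 := by
      intro z
      rw [if_pos h]
      split_ifs <;> norm_num
    rw [Finset.sum_congr rfl fun z _ => e z]; simp
  · have hx1 : 1 ≤ (x : Finset α).card := Finset.card_pos.2 (hG.1 _ x.2)
    have h2 : 2 ≤ (x : Finset α).card := by
      rcases Nat.lt_or_ge (x : Finset α).card 2 with h' | h'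
      · exact absurd (Or.inr (by omega)) h
      · exact h'
    have hpos : (0 : ℝ) < (x : Finset α).card := by exact_mod_cast (by omega)
    have e : ∀ z : G, (if (x : Finset α).card % 2 = c ∨ (x : Finset α).card = 1 then
        (if x = z then (1 : ℝ) else 0) else (1 / √((x : Finset α).card : ℝ)) * inc o x z) ^ 2
        = (1 / ((x : Finset α).card : ℝ)) * (if (z : Finset α) ⊆ x ∧
          (x : Finset α).card = (z : Finset α).card + 1 then 1 else 0) := by
      intro z
      rw [if_neg h, mul_pow, inc_sq o ho, div_pow, Real.sq_sqrt hpos.le, one_pow]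
    rw [Finset.sum_congr rfl fun z _ => e z, ← Finset.mul_sum, card_facets hG x h2]
    field_simp

theorem pr_KC {G : Finset (Finset α)} (hG : IsComplex G) (o : Finset α → ℝ) (c j : ℕ)
    (hj : 1 ≤ j) (hc : j % 2 = c) :
    (pr G j + pr G (j + 1)) * KC G o c = pr G j + (1 / √((j + 1 : ℕ) : ℝ)) • lvl G o (j + 1) := by
  ext x z
  rw [Matrix.add_mul, Matrix.add_apply, pr, pr, Matrix.diagonal_mul, Matrix.diagonal_mul,
    Matrix.add_apply, Matrix.smul_apply, Matrix.diagonal_apply, smul_eq_mul]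
  unfold KC lvl
  by_cases h1 : (x : Finset α).card = j
  · have h2 : ¬ (x : Finset α).card = j + 1 := by omega
    rw [if_pos h1, if_neg h2, if_neg h2, if_pos (Or.inl (by rw [h1]; exact hc))]
    split_ifs <;> simp
  · by_cases h2 : (x : Finset α).card = j + 1
    · have h3 : ¬ ((x : Finset α).card % 2 = c ∨ (x : Finset α).card = 1) := by
        rintro (h | h) <;> omega
      rw [if_neg h1, if_pos h2, if_neg h3, if_pos h2, h2]
      split_ifs <;> simp
    · rw [if_neg h1, if_neg h2, if_neg h2]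
      split_ifs <;> simp

end Pool.Q63.CL
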