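import Pool.Agent.Q63.CL.AllD

set_option autoImplicit false

/-!
# Large eigenvalues of the connection matrix, any dimension: the comparison
-/

open Matrix Finset

namespace Pool.Q63.CL

variable {α : Type} [LinearOrder α]

theorem extD_sum {G : Finset (Finset α)} (hG : IsComplex G) (o : Finset α → ℝ) (d : ℕ)
    (hd : ∀ x ∈ G, x.card ≤ d + 1) : extD G o = ∑ t : Fin d, lvl G o ((t : ℕ) + 2) := by
  ext x y
  rw [Matrix.sum_apply]
  unfold lvl extD
  by_cases h : inc o (x : Finset α) y = 0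
  · rw [h]; simp
  · have h1 := inc_ne h
    have hy1 : 1 ≤ (y : Finset α).card := Finset.card_pos.2 (hG.1 _ y.2)
    have hx := hd _ x.2
    rw [Finset.sum_eq_single (⟨(x : Finset α).card - 2, by omega⟩ : Fin d)]
    · rw [if_pos]
      show (x : Finset α).card = (x : Finset α).card - 2 + 2
      omega
    · intro t _ ht
      rw [if_neg]
      intro h2
      apply ht
      apply Fin.ext
      show (t : ℕ) = (x : Finset α).card - 2
      omega
    · intro h'; exact absurd (mem_univ _) h'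

theorem large {G : Finset (Finset α)} (hG : IsComplex G) (o : Finset α → ℝ)
    (ho : ∀ x, o x = 1 ∨ o x = -1) (d : ℕ) (hd : ∀ x ∈ G, x.card ≤ d + 1) (k : ℕ)
    (hk : k ≤ G.card)
    (hl : ∀ i : Fin (Fintype.card G), (i : ℕ) < k → (d : ℝ) ≤ (conn_herm G).eigenvalues₀ i) :
    specSum (dirac_herm G o) k ≤ specSum (conn_herm G) k := by
  classical
  rcases Nat.eq_zero_or_pos k with h0 | hk1
  · subst h0
    unfold specSum
    simp
  have hk' : k ≤ Fintype.card G := by rw [Fintype.card_coe]; exact hk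
  set μ := (conn_herm G).eigenvalues₀ ⟨k - 1, by omega⟩ with hμ
  have hμd : (d : ℝ) ≤ μ := hl _ (by show k - 1 < k; omega)
  have hμ0 : 0 ≤ μ := le_trans (Nat.cast_nonneg d) hμd
  choose J fJ dJ W X h hp hWW hXX hAW hXA hA hN using
    fun t : Fin d => svd (lvl G o ((t : ℕ) + 2))
  have a1 : ∀ t, W t * pr G ((t : ℕ) + 1) = W t := fun t =>
    supp_W (hp t) (hXA t) (lvl_pr G o ((t : ℕ) + 1))
  have a2 : ∀ t, X t * pr G ((t : ℕ) + 2) = X t := fun t =>
    supp_X (hp t) (hAW t) (pr_symm G _) (pr_lvl G o _)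
  have c10 : ∀ s t : Fin d, (s : ℕ) = t + 1 → W s * (X t)ᵀ = 0 := by
    intro s t hst
    have hd0 : diagonal (fun j => √(h t j)) * diagonal (fun j => (√(h t j))⁻¹) = 1 := by
      rw [Matrix.diagonal_mul_diagonal, ← Matrix.diagonal_one]
      congr 1; ext j
      exact mul_inv_cancel₀ (Real.sqrt_pos.2 (hp t j)).ne'
    have hd1 : diagonal (fun j => (√(h s j))⁻¹) * diagonal (fun j => √(h s j)) = 1 := by
      rw [Matrix.diagonal_mul_diagonal, ← Matrix.diagonal_one]
      congr 1; ext j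
      exact inv_mul_cancel₀ (Real.sqrt_pos.2 (hp s j)).ne'
    have hX : (X t)ᵀ = lvl G o ((t : ℕ) + 2) * (W t)ᵀ * diagonal (fun j => (√(h t j))⁻¹) := by
      rw [hAW, Matrix.mul_assoc, hd0, Matrix.mul_one]
    have hW : W s = diagonal (fun j => (√(h s j))⁻¹) * (X s * lvl G o ((s : ℕ) + 2)) := by
      rw [hXA, ← Matrix.mul_assoc, hd1, Matrix.one_mul]
    have hll : lvl G o ((s : ℕ) + 2) * lvl G o ((t : ℕ) + 2) = 0 := by
      have := lvl_lvl hG o ho ((t : ℕ) + 2)
      rw [hst]; exact this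
    rw [hX, hW]
    calc diagonal (fun j => (√(h s j))⁻¹) * (X s * lvl G o ((s : ℕ) + 2))
          * (lvl G o ((t : ℕ) + 2) * (W t)ᵀ * diagonal (fun j => (√(h t j))⁻¹))
        = diagonal (fun j => (√(h s j))⁻¹) * X s * (lvl G o ((s : ℕ) + 2)
          * lvl G o ((t : ℕ) + 2)) * (W t)ᵀ
          * diagonal (fun j => (√(h t j))⁻¹) := by simp only [Matrix.mul_assoc]
      _ = 0 := by rw [hll, Matrix.mul_zero, Matrix.zero_mul, Matrix.zero_mul]
  have hWW0 : ∀ s t, s ≠ t → W s * (W t)ᵀ = 0 := fun s t hst =>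
    orth (a1 s) (a1 t) (pr_pr G (fun h' => hst (Fin.ext (by omega)))) (pr_symm G _)
  have hXX0 : ∀ s t, s ≠ t → X s * (X t)ᵀ = 0 := fun s t hst =>
    orth (a2 s) (a2 t) (pr_pr G (fun h' => hst (Fin.ext (by omega)))) (pr_symm G _)
  have hWX0 : ∀ s t, W s * (X t)ᵀ = 0 := by
    intro s t
    by_cases hst : (s : ℕ) = t + 1
    · exact c10 s t hst
    · exact orth (a1 s) (a2 t) (pr_pr G (by omega)) (pr_symm G _)
  -- the upper bound
  set WW : Matrix (Σ t, J t) G ℝ := Matrix.of fun p x => W p.1 p.2 x with hWWd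
  set XX : Matrix (Σ t, J t) G ℝ := Matrix.of fun p x => X p.1 p.2 x with hXXd
  set σ : (Σ t, J t) → ℝ := fun p => √(h p.1 p.2) with hσ
  have hDD : dirac G o = XXᵀ * diagonal σ * WW + WWᵀ * diagonal σ * XX := by
    have e1 : extD G o = XXᵀ * diagonal σ * WW := by
      rw [extD_sum hG o d hd]
      ext x y
      rw [Matrix.sum_apply, Matrix.mul_apply, Fintype.sum_sigma]
      refine Finset.sum_congr rfl fun t _ => ?_
      conv_lhs => rw [hA t]
      rw [Matrix.mul_apply]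
      refine Finset.sum_congr rfl fun j _ => ?_
      rw [Matrix.mul_diagonal, Matrix.mul_diagonal]
      rfl
    have e2 : (extD G o)ᵀ = WWᵀ * diagonal σ * XX := by
      rw [e1, Matrix.transpose_mul, Matrix.transpose_mul, Matrix.transpose_transpose,
        Matrix.diagonal_transpose, Matrix.mul_assoc]
    rw [dirac, e2, ← e1]
  obtain ⟨Q, q0, q1, qt, qD⟩ := exists_proj (dirac_herm G o) k hk'
  have hU := upper WW XX σ (fun p => Real.sqrt_nonneg _) (sig_one W hWW hWW0)
    (sig_one X hXX hXX0) (sig_zero W X hWX0) (dirac G o) hDD ⟨q0, q1, qt⟩ μ hμ0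
  rw [qD, Fintype.sum_sigma] at hU
  -- the lower bounds
  choose Z hZ1 hZ2 S T hZ3 using fun t : Fin d =>
    boost (((t : ℕ) + 1 + 1 : ℕ) : ℝ) (by positivity) (pr G ((t : ℕ) + 1))
      (lvl G o ((t : ℕ) + 2)) (W t) (X t) (h t) (hp t) (hWW t) (hXX t) (hWX0 t t) (a1 t)
      (by rw [← a2 t, Matrix.mul_assoc, pr_pr G (by omega), Matrix.mul_zero])
      (orthM (a1 t) (pr_lvl G o _) (pr_pr G (by omega))) (hXA t)
  have hZP : ∀ t, Z t * (pr G ((t : ℕ) + 1) + pr G ((t : ℕ) + 1 + 1)) = Z t := by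
    intro t
    have e1 : W t * pr G ((t : ℕ) + 1 + 1) = 0 := by
      rw [← a1 t, Matrix.mul_assoc, pr_pr G (by omega), Matrix.mul_zero]
    have e2 : X t * pr G ((t : ℕ) + 1) = 0 := by
      rw [← a2 t, Matrix.mul_assoc, pr_pr G (by omega), Matrix.mul_zero]
    rw [hZ3 t, Matrix.add_mul, Matrix.mul_add, Matrix.mul_add, Matrix.mul_assoc,
      Matrix.mul_assoc, Matrix.mul_assoc, Matrix.mul_assoc, a1, e1, e2, a2]
    simp
  have hclass : ∀ (c : ℕ) (P : Fin d → Prop) [DecidablePred P],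
      (∀ t, P t → ((t : ℕ) + 1) % 2 = c) →
      ∑ t : {t // P t}, ∑ j, max ((1 + h t j / (((t : Fin d) : ℕ) + 1 + 1 : ℕ)) - μ) 0
        ≤ specSum (conn_herm G) k - k * μ := by
    intro c P _ hP
    have hZZ0 : ∀ s t : {t // P t}, s ≠ t → Z s * (Z t)ᵀ = 0 := by
      intro s t hst
      have hs := hP s s.2
      have ht := hP t t.2
      have hne : ((s : Fin d) : ℕ) ≠ ((t : Fin d) : ℕ) := fun h' =>
        hst (Subtype.ext (Fin.ext h'))
      refine orth (hZP s) (hZP t) ?_ ?_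
      · rw [Matrix.add_mul, Matrix.mul_add, Matrix.mul_add, pr_pr G (by omega),
          pr_pr G (by omega), pr_pr G (by omega), pr_pr G (by omega)]
        simp
      · rw [Matrix.transpose_add, pr_symm, pr_symm]
    have hK : (Matrix.of fun (p : Σ t : {t // P t}, J t) x => Z p.1 p.2 x) * KC G o c
        = diagonal (fun p : Σ t : {t // P t}, J t =>
            √(1 + h p.1 p.2 / (((p.1 : Fin d) : ℕ) + 1 + 1 : ℕ)))
          * (Matrix.of fun (p : Σ t : {t // P t}, J t) x => W p.1 p.2 x) := by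
      ext ⟨t, j⟩ x
      have e1 : Z t * KC G o c
          = diagonal (fun j => √(1 + h t j / (((t : Fin d) : ℕ) + 1 + 1 : ℕ))) * W t := by
        conv_lhs => rw [← hZP t]
        rw [Matrix.mul_assoc, pr_KC hG o c _ (by omega) (hP t t.2)]
        exact hZ2 t
      have e2 := congrFun (congrFun e1 j) x
      rw [Matrix.diagonal_mul] at e2
      rw [Matrix.diagonal_mul]
      exact e2
    obtain ⟨Q, t, hQ, hs, -⟩ := test_of hG (KC G o c) (KC_supp G o c) (KC_row hG o ho c)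
      (Matrix.of fun (p : Σ t : {t // P t}, J t) x => Z p.1 p.2 x)
      (Matrix.of fun (p : Σ t : {t // P t}, J t) x => W p.1 p.2 x)
      (sig_one (fun t : {t // P t} => Z t) (fun t => hZ1 t) hZZ0)
      (sig_one (fun t : {t // P t} => W t) (fun t => hWW t)
        (fun s t hst => hWW0 s t (fun h' => hst (Subtype.ext h'))))
      (fun p => 1 + h p.1 p.2 / (((p.1 : Fin d) : ℕ) + 1 + 1 : ℕ))
      (fun p => by
        have := hp p.1 p.2
        positivity) hK μ
    rw [Fintype.sum_sigma] at hs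
    have hd' := dual (conn_herm G) k hk1 hk' hQ
    exact hs.trans hd'
  have c0 := hclass 0 (fun t => ((t : ℕ) + 1) % 2 = 0) (fun t ht => ht)
  have c1 := hclass 1 (fun t => ¬ ((t : ℕ) + 1) % 2 = 0) (fun t ht => by omega)
  have hpt : ∀ (t : Fin d) (j : J t), max (√(h t j) - μ) 0
      ≤ (1 / 2) * max ((1 + h t j / (((t : Fin d) : ℕ) + 1 + 1 : ℕ)) - μ) 0 := by
    intro t j
    have hs := hp t j
    have h1 := Real.sq_sqrt hs.le
    have ht : (((t : ℕ) + 1 + 1 : ℕ) : ℝ) ≤ μ + 1 := by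
      have : (((t : ℕ) + 1 : ℕ) : ℝ) ≤ d := by exact_mod_cast t.2
      push_cast at this ⊢
      linarith
    have hpos : (0 : ℝ) < (((t : ℕ) + 1 + 1 : ℕ) : ℝ) := by positivity
    refine max_le ?_ (mul_nonneg (by norm_num) (le_max_right _ _))
    refine le_trans ?_ (mul_le_mul_of_nonneg_left (le_max_left _ _) (by norm_num))
    set n : ℝ := (((t : ℕ) + 1 + 1 : ℕ) : ℝ) with hn
    have e : 0 ≤ (√(h t j) - n) ^ 2 / n := div_nonneg (sq_nonneg _) hpos.le
    have e2 : (√(h t j) - n) ^ 2 / n = h t j / n - 2 * √(h t j) + n := by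
      field_simp
      linear_combination h1
    rw [e2] at e
    linarith
  have hsum : ∑ t, ∑ j, max (σ ⟨t, j⟩ - μ) 0 ≤ specSum (conn_herm G) k - k * μ := by
    have e1 : ∑ t, ∑ j, max (σ ⟨t, j⟩ - μ) 0
        ≤ ∑ t, (1 / 2) * ∑ j, max ((1 + h t j / (((t : Fin d) : ℕ) + 1 + 1 : ℕ)) - μ) 0 := by
      refine Finset.sum_le_sum fun t _ => ?_
      rw [Finset.mul_sum]
      exact Finset.sum_le_sum fun j _ => hpt t j
    have e2 : ∑ t, (1 / 2) * ∑ j, max ((1 + h t j / (((t : Fin d) : ℕ) + 1 + 1 : ℕ)) - μ) 0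
        = (1 / 2) * (∑ t : {t : Fin d // ((t : ℕ) + 1) % 2 = 0},
            ∑ j, max ((1 + h t j / (((t : Fin d) : ℕ) + 1 + 1 : ℕ)) - μ) 0
          + ∑ t : {t : Fin d // ¬ ((t : ℕ) + 1) % 2 = 0},
            ∑ j, max ((1 + h t j / (((t : Fin d) : ℕ) + 1 + 1 : ℕ)) - μ) 0) := by
      rw [← Finset.mul_sum, ← Fintype.sum_subtype_add_sum_subtype
        (fun t : Fin d => ((t : ℕ) + 1) % 2 = 0)]
    linarith
  linarith

end Pool.Q63.CL
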