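import Mathlib

set_option autoImplicit false

namespace Pool.Q63.CL

theorem arith (v a b k s l : ℝ) (hv : 0 ≤ v) (ha : 0 ≤ a) (hb : 0 ≤ b) (hk : v ≤ k)
    (hkn : k ≤ v + a + b) (h1 : s ^ 2 ≤ k * (2 * a + 3 * b))
    (h2 : s ^ 2 ≤ (v + a + b - k) * (2 * a + 3 * b)) (h3 : s ^ 2 ≤ a * (2 * a + 3 * b))
    (h4 : s ^ 2 ≤ (v + b) * (2 * a + 3 * b)) (l1 : v + a + b ≤ l)
    (l2 : k ≤ v + b → 2 * a + (k - v) ≤ l)
    (l3 : v + b ≤ k → a * (v + a + b) + (v + a + b - k) * (a - v) ≤ a * l) : s ≤ l := by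
  by_contra hcon
  push Not at hcon
  have hn0 : 0 ≤ v + a + b := by positivity
  have hl0 : 0 ≤ l := hn0.trans l1
  have hsl : l ^ 2 < s ^ 2 := by nlinarith
  have hnl : (v + a + b) ^ 2 ≤ l ^ 2 := by nlinarith
  have hA : (v + a + b) ^ 2 < a * (2 * a + 3 * b) := by linarith
  have hB : (v + a + b) ^ 2 < (v + b) * (2 * a + 3 * b) := by linarith
  have ha0 : 0 < a := by
    rcases ha.lt_or_eq with h | h
    · exact h
    · exfalso
      rw [← h] at hA
      nlinarith [sq_nonneg (v + b)]
  have hA' : v ^ 2 + 2 * v * (a + b) < a ^ 2 + a * b - b ^ 2 := by nlinarith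
  have hB' : a ^ 2 < 2 * b ^ 2 + v * b - v ^ 2 := by nlinarith
  have hF : 0 < 2 * a + 3 * b := by positivity
  rcases le_total k (v + b) with hc | hc
  · have hl := l2 hc
    -- k > n - F/4
    have hk1 : (v + a + b) - (2 * a + 3 * b) / 4 < k := by
      have h5 : (v + a + b) ^ 2 < k * (2 * a + 3 * b) := by linarith
      have h6 : ((v + a + b) - (2 * a + 3 * b) / 4) * (2 * a + 3 * b) ≤ (v + a + b) ^ 2 := by
        nlinarith [sq_nonneg ((v + a + b) - (2 * a + 3 * b) / 2)]
      have h7 : ((v + a + b) - (2 * a + 3 * b) / 4) * (2 * a + 3 * b) < k * (2 * a + 3 * b) := by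
        linarith
      exact lt_of_mul_lt_mul_right h7 hF.le
    have hl2 : 5 / 2 * a + b / 4 ≤ l := by linarith
    have hl3 : (5 / 2 * a + b / 4) ^ 2 ≤ l ^ 2 := by
      have : 0 ≤ 5 / 2 * a + b / 4 := by positivity
      nlinarith
    have h8 : 25 / 4 * a ^ 2 + 5 / 4 * a * b < 2 * a ^ 2 + 3 * a * b := by
      nlinarith [sq_nonneg b]
    have hb2 : b ^ 2 < a ^ 2 + a * b := by
      nlinarith [mul_nonneg hv (add_nonneg ha hb), sq_nonneg v]
    rcases le_total b (2 * a) with h | h
    · nlinarith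
    · nlinarith
  · have hl := l3 hc
    set m : ℝ := v + a + b - k with hm
    have hm0 : 0 ≤ m := by rw [hm]; linarith
    have hmF : (v + a + b) ^ 2 < m * (2 * a + 3 * b) := by linarith
    have hmpos : 0 < m := by
      rcases hm0.lt_or_eq with h | h
      · exact h
      · exfalso
        rw [← h] at hmF
        nlinarith [sq_nonneg (v + a + b)]
    have hva : v < a := by
      by_contra hc2
      push Not at hc2
      nlinarith [mul_nonneg hv hb, mul_nonneg ha hb, sq_nonneg b]
    -- a l ≥ a n + m (a - v)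
    have h5 : 4 * (a * (v + a + b)) * (m * (a - v)) ≤ (a * l) ^ 2 := by
      have h6 : 0 ≤ a * (v + a + b) + m * (a - v) := by
        have := mul_nonneg hm0 (sub_nonneg.2 hva.le)
        positivity
      have h7 : (a * (v + a + b) + m * (a - v)) ^ 2 ≤ (a * l) ^ 2 :=
        pow_le_pow_left₀ h6 hl 2
      nlinarith [sq_nonneg (a * (v + a + b) - m * (a - v))]
    have h8 : (a * l) ^ 2 < a ^ 2 * (m * (2 * a + 3 * b)) := by
      rw [mul_pow]
      have : 0 < a ^ 2 := by positivity
      nlinarith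
    have h9 : 4 * (v + a + b) * (a - v) < a * (2 * a + 3 * b) := by
      have h10 : (a * m) * (4 * (v + a + b) * (a - v)) < (a * m) * (a * (2 * a + 3 * b)) := by
        nlinarith
      exact lt_of_mul_lt_mul_left h10 (by positivity)
    have h11 : 2 * a ^ 2 + a * b < 4 * v ^ 2 + 4 * v * b := by nlinarith
    have h12 : 2 * b ^ 2 < a * b := by
      have : v ^ 2 ≤ v * a := by nlinarith
      nlinarith
    have hb0 : 0 < b := by
      rcases hb.lt_or_eq with h | h
      · exact h
      · exfalso; rw [← h] at h12; simp at h12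
    have h13 : 2 * b < a := by
      by_contra hc3
      push Not at hc3
      nlinarith
    nlinarith [sq_nonneg (v - b / 2)]

end Pool.Q63.CL
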