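import Pool.Agent.Q63.CL.Tst

set_option autoImplicit false

/-!
# A bound by the size of a class
-/

open Matrix Finset

namespace Pool.Q63.CL

variable {ι : Type} [Fintype ι] [DecidableEq ι]

theorem row_sq_le {Q : Matrix ι ι ℝ} {t : ℝ} (hQ : IsTest Q t) (i : ι) :
    ∑ j, Q i j ^ 2 ≤ Q i i := by
  have hs : Qᴴ = Q := hQ.1.isHermitian
  have hs1 : (1 - Q)ᴴ = 1 - Q := hQ.2.1.isHermitian
  have h1 := hQ.2.1.mul_mul_conjTranspose_same Q
  have h2 := hQ.1.mul_mul_conjTranspose_same (1 - Q)
  rw [hs] at h1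
  rw [hs1] at h2
  have h3 := (h1.add h2).diag_nonneg (i := i)
  have e : Q * (1 - Q) * Q + (1 - Q) * Q * (1 - Q) = Q - Q * Q := by
    noncomm_ring
  rw [e, Matrix.sub_apply, Matrix.mul_apply] at h3
  have e2 : ∑ j, Q i j * Q j i = ∑ j, Q i j ^ 2 := by
    refine Finset.sum_congr rfl fun j _ => ?_
    have := congrFun (congrFun hs i) j
    rw [Matrix.conjTranspose_apply, star_trivial] at this
    rw [this]; ring
  rw [e2] at h3
  linarith

theorem class_bound {D : Matrix ι ι ℝ} (hD : D.IsHermitian) (ε : ι → ℝ)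
    (hε : ∀ i, ε i = 1 ∨ ε i = -1) (hbip : ∀ i j, ε i = ε j → D i j = 0) (s : ℝ)
    (hs : s = 1 ∨ s = -1) (k : ℕ) (hk : k ≤ Fintype.card ι) :
    specSum hD k ^ 2 ≤ (∑ i, if ε i = s then (1 : ℝ) else 0) * ((∑ i, ∑ j, D i j ^ 2) / 2) := by
  obtain ⟨Q, hQ0, hQ1, hQt, hQD⟩ := exists_proj hD k hk
  have hQ : IsTest Q k := ⟨hQ0, hQ1, hQt⟩
  have tr : ∀ X : Matrix ι ι ℝ, (X * D).trace = ∑ i, ∑ j, X i j * D i j := by
    intro X
    simp only [Matrix.trace, Matrix.diag, Matrix.mul_apply]
    refine Finset.sum_congr rfl fun i _ => Finset.sum_congr rfl fun j _ => ?_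
    have := hD.apply j i
    simp at this
    rw [this]
  have hsym : ∀ i j, Q i j = Q j i := by
    intro i j
    have := hQ0.isHermitian.apply i j
    simpa using this.symm
  set O : ℝ := ∑ i, ∑ j, (if ε i = ε j then 0 else Q i j ^ 2) with hO
  have hcs : (∑ i, ∑ j, Q i j * D i j) ^ 2 ≤ O * ∑ i, ∑ j, D i j ^ 2 := by
    have e1 : ∑ i, ∑ j, Q i j * D i j
        = ∑ p ∈ (univ : Finset (ι × ι)), (if ε p.1 = ε p.2 then 0 else Q p.1 p.2) * D p.1 p.2 := by
      rw [← Finset.univ_product_univ, Finset.sum_product]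
      refine Finset.sum_congr rfl fun i _ => Finset.sum_congr rfl fun j _ => ?_
      dsimp only
      split_ifs with h
      · rw [hbip i j h]; ring
      · rfl
    have e2 : O = ∑ p ∈ (univ : Finset (ι × ι)), (if ε p.1 = ε p.2 then 0 else Q p.1 p.2) ^ 2 := by
      rw [hO, ← Finset.univ_product_univ, Finset.sum_product]
      refine Finset.sum_congr rfl fun i _ => Finset.sum_congr rfl fun j _ => ?_
      dsimp only
      split_ifs <;> ring
    have e3 : ∑ i, ∑ j, D i j ^ 2 = ∑ p ∈ (univ : Finset (ι × ι)), D p.1 p.2 ^ 2 := by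
      rw [← Finset.univ_product_univ, Finset.sum_product]
    rw [e1, e2, e3]
    exact Finset.sum_mul_sq_le_sq_mul_sq _ _ _
  have hO2 : O = 2 * ∑ i, ∑ j, (if ε i = ε j then 0 else if ε i = s then Q i j ^ 2 else 0) := by
    have e1 : O = ∑ i, ∑ j, (if ε i = ε j then 0 else if ε i = s then Q i j ^ 2 else 0)
        + ∑ i, ∑ j, (if ε i = ε j then 0 else if ε j = s then Q i j ^ 2 else 0) := by
      rw [hO, ← Finset.sum_add_distrib]
      refine Finset.sum_congr rfl fun i _ => ?_
      rw [← Finset.sum_add_distrib]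
      refine Finset.sum_congr rfl fun j _ => ?_
      split_ifs with h h1 h2 h2
      · simp
      · exact absurd (h1.trans h2.symm) h
      · simp
      · simp
      · exfalso
        rcases hε i with h3 | h3 <;> rcases hε j with h4 | h4 <;> rcases hs with h5 | h5
        · exact h1 (h3.trans h5.symm)
        · exact h (h3.trans h4.symm)
        · exact h1 (h3.trans h5.symm)
        · exact h2 (h4.trans h5.symm)
        · exact h2 (h4.trans h5.symm)
        · exact h1 (h3.trans h5.symm)
        · exact h (h3.trans h4.symm)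
        · exact h1 (h3.trans h5.symm)
    have e2 : ∑ i, ∑ j, (if ε i = ε j then 0 else if ε j = s then Q i j ^ 2 else 0)
        = ∑ i, ∑ j, (if ε i = ε j then 0 else if ε i = s then Q i j ^ 2 else 0) := by
      rw [Finset.sum_comm]
      refine Finset.sum_congr rfl fun i _ => Finset.sum_congr rfl fun j _ => ?_
      rw [hsym j i]
      by_cases h : ε i = ε j
      · rw [if_pos h, if_pos h.symm]
      · rw [if_neg h, if_neg (Ne.symm h)]
    rw [e1, e2]; ring
  have hO3 : ∀ i, ∑ j, (if ε i = ε j then 0 else if ε i = s then Q i j ^ 2 else 0)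
      ≤ (1 / 4) * (if ε i = s then (1 : ℝ) else 0) := by
    intro i
    by_cases h : ε i = s
    · have h1 := row_sq_le hQ i
      have h2 : ∑ j, (if ε i = ε j then 0 else if ε i = s then Q i j ^ 2 else 0)
          ≤ ∑ j, Q i j ^ 2 - Q i i ^ 2 := by
        have h3 : ∑ j, (if ε i = ε j then 0 else if ε i = s then Q i j ^ 2 else 0)
            ≤ ∑ j, (Q i j ^ 2 - if j = i then Q i i ^ 2 else 0) := by
          refine Finset.sum_le_sum fun j _ => ?_
          by_cases hj : j = i
          · subst hj; simp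
          · rw [if_neg hj, sub_zero]
            split_ifs
            · positivity
            · exact le_refl _
        rw [Finset.sum_sub_distrib, Finset.sum_ite_eq'] at h3
        simpa using h3
      rw [if_pos h]
      nlinarith [sq_nonneg (Q i i - 1 / 2)]
    · rw [if_neg h]
      have : ∑ j, (if ε i = ε j then 0 else if ε i = s then Q i j ^ 2 else 0) = 0 :=
        Finset.sum_eq_zero fun j _ => by rw [if_neg h]; split_ifs <;> rfl
      rw [this]; norm_num
  have hO4 : O ≤ (1 / 2) * ∑ i, if ε i = s then (1 : ℝ) else 0 := by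
    rw [hO2]
    have := Finset.sum_le_sum (s := univ) fun i _ => hO3 i
    rw [← Finset.mul_sum] at this
    linarith
  have hpos : 0 ≤ ∑ i, ∑ j, D i j ^ 2 :=
    Finset.sum_nonneg fun i _ => Finset.sum_nonneg fun j _ => sq_nonneg _
  rw [← hQD, tr]
  nlinarith

end Pool.Q63.CL
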