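import Pool.Agent.Q63.CL.Spec

set_option autoImplicit false

/-!
# The connection matrix and the Dirac matrix of a finite abstract simplicial complex
-/

open Matrix Finset

namespace Pool.Q63.CL

variable {α : Type} [LinearOrder α]

/-- a finite abstract simplicial complex: a finite set of non-empty finite sets that is closed
under taking non-empty subsets -/
def IsComplex (G : Finset (Finset α)) : Prop :=
  (∀ x ∈ G, x.Nonempty) ∧ ∀ x ∈ G, ∀ y : Finset α, y ⊆ x → y.Nonempty → y ∈ G

/-- the connection matrix: `1` if the two sets meet, `0` otherwise -/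
def conn (G : Finset (Finset α)) : Matrix G G ℝ :=
  fun x y => if ((x : Finset α) ∩ (y : Finset α)).Nonempty then 1 else 0

/-- the incidence sign of a face `y` of `x` with one element less (and `0` if `y` is not such a
face).  If all the signs `o` are `1`, every set is oriented by the order of its vertices, and the
sign of the face `x \ {v}` is `(-1) ^ (number of elements of x below v)`; the signs `o x = ±1`
allow an arbitrary orientation of every set. -/
def inc (o : Finset α → ℝ) (x y : Finset α) : ℝ :=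
  if y ⊆ x ∧ x.card = y.card + 1 then
    o x * o y * ∑ v ∈ x \ y, (-1 : ℝ) ^ (x.filter (· < v)).card
  else 0

/-- the exterior derivative -/
def extD (G : Finset (Finset α)) (o : Finset α → ℝ) : Matrix G G ℝ := fun x y => inc o x y

/-- the Dirac matrix `D = d + dᵀ` -/
def dirac (G : Finset (Finset α)) (o : Finset α → ℝ) : Matrix G G ℝ := extD G o + (extD G o)ᵀ

theorem conn_herm (G : Finset (Finset α)) : (conn G).IsHermitian := by
  ext x y
  simp [conn, Matrix.conjTranspose_apply, Finset.inter_comm]

theorem dirac_herm (G : Finset (Finset α)) (o : Finset α → ℝ) : (dirac G o).IsHermitian := by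
  rw [Matrix.IsHermitian, conjTranspose_eq_transpose_of_trivial, dirac, Matrix.transpose_add,
    Matrix.transpose_transpose, add_comm]

theorem inc_sq (o : Finset α → ℝ) (ho : ∀ x, o x = 1 ∨ o x = -1) (x y : Finset α) :
    inc o x y ^ 2 = if y ⊆ x ∧ x.card = y.card + 1 then 1 else 0 := by
  unfold inc
  split_ifs with h
  · have h1 : (x \ y).card = 1 := by
      rw [Finset.card_sdiff_of_subset h.1]; omega
    obtain ⟨v, hv⟩ := Finset.card_eq_one.1 h1
    rw [hv, Finset.sum_singleton, mul_pow, mul_pow, ← pow_mul, mul_comm _ 2, pow_mul]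
    have e : ∀ x, o x ^ 2 = 1 := fun x => by rcases ho x with h | h <;> rw [h] <;> norm_num
    rw [e, e]; norm_num
  · norm_num

section general

variable (G : Finset (Finset α)) (δ : Matrix G G ℝ) (a b : ℕ → ℝ) (c : ℝ)

/-- the comparison matrix -/
noncomputable def cmp : Matrix G G ℝ :=
  diagonal (fun x : G => a (x : Finset α).card)
    + (diagonal (fun x : G => √(b (x : Finset α).card)) * δ)
      * (diagonal (fun x : G => √(b (x : Finset α).card)) * δ)ᵀ
    + (c / 2) • (δ + δᵀ)

variable {G δ a b c}

theorem cmp_apply (x y : G) : cmp G δ a b c x y =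
    (if x = y then a (x : Finset α).card else 0)
      + √(b (x : Finset α).card) * √(b (y : Finset α).card) * ∑ z, δ x z * δ y z
      + c / 2 * (δ x y + δ y x) := by
  rw [cmp, Matrix.add_apply, Matrix.add_apply, Matrix.diagonal_apply, Matrix.mul_apply,
    Matrix.smul_apply, Matrix.add_apply, Matrix.transpose_apply, smul_eq_mul, Finset.mul_sum]
  congr 2
  refine Finset.sum_congr rfl fun z _ => ?_
  rw [Matrix.transpose_apply, Matrix.diagonal_mul, Matrix.diagonal_mul]
  ring

theorem cmp_psd (hδ : ∀ x y : G, δ x y ^ 2 =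
      if (y : Finset α) ⊆ x ∧ (x : Finset α).card = (y : Finset α).card + 1 then 1 else 0)
    (d : ℕ) (hd : ∀ x ∈ G, x.card ≤ d + 1) (hne : ∀ x ∈ G, x.Nonempty)
    (ha : ∀ m, 1 ≤ m → m ≤ d + 1 → 0 ≤ a m) (hb : ∀ m, 2 ≤ m → m ≤ d + 1 → 0 ≤ b m)
    (hab : ∀ m, 1 ≤ m → m ≤ d → c ^ 2 ≤ 4 * a m * b (m + 1)) :
    (cmp G δ a b c).PosSemidef := by
  have hcard : ∀ x z : G, δ x z ≠ 0 → (x : Finset α).card = (z : Finset α).card + 1 := by
    intro x z h
    have := hδ x z
    by_contra hc
    rw [if_neg (fun h' => hc h'.2)] at this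
    exact h (by simpa using this)
  rw [posSemidef_iff_dotProduct_mulVec]
  constructor
  · rw [Matrix.IsHermitian, conjTranspose_eq_transpose_of_trivial]
    ext x y
    rw [Matrix.transpose_apply, cmp_apply, cmp_apply]
    have e1 : (if y = x then a (y : Finset α).card else 0)
        = if x = y then a (x : Finset α).card else 0 := by
      by_cases h : x = y
      · subst h; rfl
      · rw [if_neg h, if_neg (Ne.symm h)]
    have e2 : ∑ z, δ y z * δ x z = ∑ z, δ x z * δ y z :=
      Finset.sum_congr rfl fun z _ => mul_comm _ _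
    rw [e1, e2]; ring
  · intro φ
    set g : G → ℝ := fun z => ∑ x, δ x z * φ x with hg
    set B : Matrix G G ℝ := diagonal (fun x : G => √(b (x : Finset α).card)) with hB
    have hK : ∀ z, ((B * δ)ᵀ *ᵥ φ) z = √(b ((z : Finset α).card + 1)) * g z := by
      intro z
      rw [Matrix.mulVec, dotProduct, hg, Finset.mul_sum]
      refine Finset.sum_congr rfl fun x _ => ?_
      rw [Matrix.transpose_apply, hB, Matrix.diagonal_mul]
      by_cases h : δ x z = 0
      · rw [h]; ring
      · rw [hcard x z h]; ring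
    have hD : ∀ z, (δᵀ *ᵥ φ) z = g z := by
      intro z
      rw [Matrix.mulVec, dotProduct, hg]
      rfl
    have e : star φ ⬝ᵥ (cmp G δ a b c *ᵥ φ) = ∑ z : G, (a (z : Finset α).card * φ z ^ 2
        + √(b ((z : Finset α).card + 1)) ^ 2 * g z ^ 2 + c * (φ z * g z)) := by
      have h1 : φ ⬝ᵥ (diagonal (fun x : G => a (x : Finset α).card) *ᵥ φ)
          = ∑ z : G, a (z : Finset α).card * φ z ^ 2 := by
        rw [dotProduct]
        refine Finset.sum_congr rfl fun z _ => ?_
        rw [Matrix.mulVec_diagonal]; ring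
      have h2 : φ ⬝ᵥ (((B * δ) * (B * δ)ᵀ) *ᵥ φ)
          = ∑ z : G, √(b ((z : Finset α).card + 1)) ^ 2 * g z ^ 2 := by
        rw [← Matrix.mulVec_mulVec, Matrix.dotProduct_mulVec, ← Matrix.mulVec_transpose,
          dotProduct]
        refine Finset.sum_congr rfl fun z _ => ?_
        rw [hK]; ring
      have h3 : φ ⬝ᵥ ((δ + δᵀ) *ᵥ φ) = ∑ z : G, 2 * (φ z * g z) := by
        rw [Matrix.add_mulVec, dotProduct_add, Matrix.dotProduct_mulVec,
          ← Matrix.mulVec_transpose, dotProduct, dotProduct, ← Finset.sum_add_distrib]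
        refine Finset.sum_congr rfl fun z _ => ?_
        rw [hD]; ring
      rw [star_trivial, cmp, Matrix.add_mulVec, Matrix.add_mulVec, dotProduct_add,
        dotProduct_add, Matrix.smul_mulVec, dotProduct_smul, h1, h2, h3, smul_eq_mul,
        Finset.mul_sum, ← Finset.sum_add_distrib, ← Finset.sum_add_distrib]
      refine Finset.sum_congr rfl fun z _ => ?_
      ring
    rw [e]
    refine Finset.sum_nonneg fun z _ => ?_
    have hz1 : 1 ≤ (z : Finset α).card := Finset.card_pos.2 (hne _ z.2)
    have hz2 := hd _ z.2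
    have ha' := ha _ hz1 hz2
    rcases Nat.lt_or_ge d (z : Finset α).card with h | h
    · have hgz : g z = 0 := by
        rw [hg]
        refine Finset.sum_eq_zero fun x _ => ?_
        have : δ x z = 0 := by
          by_contra hc
          have h1 := hcard x z hc
          have h2 := hd _ x.2
          omega
        rw [this, zero_mul]
      rw [hgz]
      have := mul_nonneg ha' (sq_nonneg (φ z))
      nlinarith
    · have hb' := hb ((z : Finset α).card + 1) (by omega) (by omega)
      have hab' := hab _ hz1 h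
      rw [Real.sq_sqrt hb']
      set A := a (z : Finset α).card
      set E := b ((z : Finset α).card + 1)
      -- A u² + E v² + c u v ≥ 0
      rcases eq_or_lt_of_le ha' with h0 | h0
      · have hc : c = 0 := by
          have : c ^ 2 ≤ 0 := by rw [← h0] at hab'; simpa using hab'
          exact pow_eq_zero_iff (two_ne_zero) |>.1 (le_antisymm this (sq_nonneg c))
        rw [hc, ← h0]
        have := mul_nonneg hb' (sq_nonneg (g z))
        nlinarith
      · have h4 : 0 ≤ 4 * A * (A * φ z ^ 2 + E * g z ^ 2 + c * (φ z * g z)) := by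
          have : 4 * A * (A * φ z ^ 2 + E * g z ^ 2 + c * (φ z * g z))
              = (2 * A * φ z + c * g z) ^ 2 + (4 * A * E - c ^ 2) * g z ^ 2 := by ring
          rw [this]
          have := mul_nonneg (sub_nonneg.2 hab') (sq_nonneg (g z))
          nlinarith [sq_nonneg (2 * A * φ z + c * g z)]
        by_contra hneg
        push Not at hneg
        have : 4 * A * (A * φ z ^ 2 + E * g z ^ 2 + c * (φ z * g z)) < 0 :=
          mul_neg_of_pos_of_neg (by linarith) hneg
        linarith

theorem card_facets (hG : IsComplex G) (x : G) (hx : 2 ≤ (x : Finset α).card) :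
    ∑ z : G, (if (z : Finset α) ⊆ x ∧ (x : Finset α).card = (z : Finset α).card + 1
      then (1 : ℝ) else 0) = (x : Finset α).card := by
  rw [Finset.sum_ite, Finset.sum_const_zero, add_zero, Finset.sum_const, nsmul_eq_mul, mul_one]
  congr 1
  obtain ⟨m, hm⟩ : ∃ m, (x : Finset α).card = m + 1 := ⟨(x : Finset α).card - 1, by omega⟩
  have h : (univ.filter fun z : G => (z : Finset α) ⊆ x ∧
      (x : Finset α).card = (z : Finset α).card + 1).map ⟨Subtype.val, Subtype.val_injective⟩
        = Finset.powersetCard m (x : Finset α) := by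
    ext z
    simp only [mem_map, mem_filter, mem_univ, true_and, Function.Embedding.coeFn_mk,
      mem_powersetCard]
    constructor
    · rintro ⟨w, ⟨h1, h2⟩, rfl⟩
      exact ⟨h1, by omega⟩
    · rintro ⟨h1, h2⟩
      have hne : z.Nonempty := by rw [← Finset.card_pos]; omega
      exact ⟨⟨z, hG.2 _ x.2 z h1 hne⟩, ⟨h1, by rw [hm, h2]⟩, rfl⟩
  rw [← Finset.card_map, h, Finset.card_powersetCard, hm, Nat.choose_succ_self_right]

theorem cmp_diag (hG : IsComplex G) (hδ : ∀ x y : G, δ x y ^ 2 =
      if (y : Finset α) ⊆ x ∧ (x : Finset α).card = (y : Finset α).card + 1 then 1 else 0)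
    (d : ℕ) (hd : ∀ x ∈ G, x.card ≤ d + 1) (h1 : a 1 = 1)
    (hb : ∀ m, 2 ≤ m → m ≤ d + 1 → 0 ≤ b m)
    (h2 : ∀ m : ℕ, 2 ≤ m → m ≤ d + 1 → a m + m * b m = 1) (x : G) :
    cmp G δ a b c x x = 1 := by
  have hxx : δ x x = 0 := by
    have := hδ x x
    rw [if_neg (fun h => by omega)] at this
    simpa using this
  have hs : ∑ z, δ x z * δ x z = ∑ z : G, (if (z : Finset α) ⊆ x ∧
      (x : Finset α).card = (z : Finset α).card + 1 then (1 : ℝ) else 0) := by
    refine Finset.sum_congr rfl fun z _ => ?_
    rw [← hδ, sq]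
  rw [cmp_apply, if_pos rfl, hxx, hs]
  have hx1 : 1 ≤ (x : Finset α).card := Finset.card_pos.2 (hG.1 _ x.2)
  rcases Nat.lt_or_ge (x : Finset α).card 2 with h | h
  · have hx : (x : Finset α).card = 1 := by omega
    have : ∑ z : G, (if (z : Finset α) ⊆ x ∧
      (x : Finset α).card = (z : Finset α).card + 1 then (1 : ℝ) else 0) = 0 := by
      refine Finset.sum_eq_zero fun z _ => ?_
      rw [if_neg]
      rintro ⟨-, h'⟩
      have : 1 ≤ (z : Finset α).card := Finset.card_pos.2 (hG.1 _ z.2)
      omega
    rw [this, hx, h1]; ring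
  · rw [card_facets hG x h, Real.mul_self_sqrt (hb _ h (hd _ x.2))]
    have := h2 _ h (hd _ x.2)
    linarith

theorem cmp_supp (hG : IsComplex G) (hδ : ∀ x y : G, δ x y ^ 2 =
      if (y : Finset α) ⊆ x ∧ (x : Finset α).card = (y : Finset α).card + 1 then 1 else 0)
    (x y : G) : cmp G δ a b c x y * conn G x y = cmp G δ a b c x y := by
  unfold conn
  split_ifs with h
  · rw [mul_one]
  · rw [mul_zero]
    have hsub : ∀ x z : G, δ x z ≠ 0 → (z : Finset α) ⊆ x := by
      intro x z h
      have := hδ x z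
      by_contra hc
      rw [if_neg (fun h' => hc h'.1)] at this
      exact h (by simpa using this)
    have hne : x ≠ y := by
      rintro rfl
      rw [Finset.inter_self] at h
      exact h (hG.1 _ x.2)
    have h1 : δ x y = 0 := by
      by_contra hc
      apply h
      rw [Finset.inter_eq_right.2 (hsub x y hc)]
      exact hG.1 _ y.2
    have h2 : δ y x = 0 := by
      by_contra hc
      apply h
      rw [Finset.inter_eq_left.2 (hsub y x hc)]
      exact hG.1 _ x.2
    have h3 : ∑ z, δ x z * δ y z = 0 := by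
      refine Finset.sum_eq_zero fun z _ => ?_
      by_cases hz : δ x z = 0
      · rw [hz, zero_mul]
      · by_cases hz' : δ y z = 0
        · rw [hz', mul_zero]
        · exfalso
          apply h
          exact (hG.1 _ z.2).mono (Finset.subset_inter (hsub x z hz) (hsub y z hz'))
    rw [cmp_apply, if_neg hne, h1, h2, h3]; ring

end general

/-- **Main comparison.** -/
theorem main (G : Finset (Finset α)) (hG : IsComplex G) (o : Finset α → ℝ)
    (ho : ∀ x, o x = 1 ∨ o x = -1) (d : ℕ) (hd : ∀ x ∈ G, x.card ≤ d + 1) (a b : ℕ → ℝ) (c : ℝ)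
    (h1 : a 1 = 1) (h2 : ∀ m : ℕ, 2 ≤ m → m ≤ d + 1 → a m + m * b m = 1)
    (ha : ∀ m, 1 ≤ m → m ≤ d + 1 → 0 ≤ a m) (hb : ∀ m, 2 ≤ m → m ≤ d + 1 → 0 ≤ b m)
    (hab : ∀ m, 1 ≤ m → m ≤ d → c ^ 2 ≤ 4 * a m * b (m + 1)) (k : ℕ) (hk : k ≤ G.card) :
    c * specSum (dirac_herm G o) k ≤ specSum (conn_herm G) k := by
  have hδ : ∀ x y : G, extD G o x y ^ 2 =
      if (y : Finset α) ⊆ x ∧ (x : Finset α).card = (y : Finset α).card + 1 then 1 else 0 :=
    fun x y => inc_sq o ho x y
  refine specSum_le (C := cmp G (extD G o) a b c) (conn_herm G) (dirac_herm G o)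
    (cmp_psd hδ d hd hG.1 ha hb hab) (cmp_diag hG hδ d hd h1 hb h2) (cmp_supp hG hδ) c ?_ k
    (by rw [Fintype.card_coe]; exact hk)
  have e : cmp G (extD G o) a b c - c • dirac G o = cmp G (extD G o) a b (-c) := by
    rw [cmp, cmp, dirac]
    have : (-c / 2) • (extD G o + (extD G o)ᵀ)
        = (c / 2) • (extD G o + (extD G o)ᵀ) - c • (extD G o + (extD G o)ᵀ) := by
      rw [← sub_smul]; congr 1; ring
    rw [this]; abel
  rw [e]
  exact cmp_psd hδ d hd hG.1 ha hb (fun m h h' => by rw [neg_sq]; exact hab m h h')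

end Pool.Q63.CL
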