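import Pool.Agent.Q63.CL.Tests

set_option autoImplicit false

/-!
# `d d = 0`
-/

open Matrix Finset

namespace Pool.Q63.CL

variable {α : Type} [LinearOrder α]

theorem inc_erase (o : Finset α → ℝ) (x : Finset α) (p : α) (hp : p ∈ x) :
    inc o x (x.erase p) = o x * o (x.erase p) * (-1) ^ (x.filter (· < p)).card := by
  unfold inc
  have h1 : x.card = (x.erase p).card + 1 := (Finset.card_erase_add_one hp).symm
  have h2 : x \ x.erase p = {p} := by
    ext u; simp only [mem_sdiff, mem_erase, mem_singleton]
    constructor
    · rintro ⟨h3, h4⟩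
      by_contra hc; exact h4 ⟨hc, h3⟩
    · rintro rfl; exact ⟨hp, fun h => h.1 rfl⟩
  rw [if_pos ⟨Finset.erase_subset _ _, h1⟩, h2, Finset.sum_singleton]

theorem dd_zero {G : Finset (Finset α)} (hG : IsComplex G) (o : Finset α → ℝ)
    (ho : ∀ x, o x = 1 ∨ o x = -1) (x z : G) :
    ∑ y : G, inc o (x : Finset α) y * inc o (y : Finset α) z = 0 := by
  have hfac : ∀ x y : Finset α, inc o x y ≠ 0 → y ⊆ x ∧ x.card = y.card + 1 := by
    intro x y h
    by_contra hc
    exact h (if_neg hc)
  by_cases h : (z : Finset α) ⊆ x ∧ (x : Finset α).card = (z : Finset α).card + 2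
  · have h2 : ((x : Finset α) \ z).card = 2 := by
      rw [Finset.card_sdiff_of_subset h.1]; omega
    obtain ⟨p, q, hpq', hxz⟩ := Finset.card_eq_two.1 h2
    -- order p < q
    obtain ⟨p, q, hpq, hxz⟩ : ∃ p q, p < q ∧ (x : Finset α) \ z = {p, q} := by
      rcases lt_or_gt_of_ne hpq' with h' | h'
      · exact ⟨p, q, h', hxz⟩
      · exact ⟨q, p, h', by rw [hxz, Finset.pair_comm]⟩
    have hp : p ∈ (x : Finset α) ∧ p ∉ (z : Finset α) := by
      have : p ∈ (x : Finset α) \ z := by rw [hxz]; simp
      simpa using this
    have hq : q ∈ (x : Finset α) ∧ q ∉ (z : Finset α) := by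
      have : q ∈ (x : Finset α) \ z := by rw [hxz]; simp
      simpa using this
    have hzn : (z : Finset α).Nonempty := hG.1 _ z.2
    have hz1 : 1 ≤ (z : Finset α).card := Finset.card_pos.2 hzn
    have hsub : ∀ r, r ∉ (z : Finset α) → (z : Finset α) ⊆ (x : Finset α).erase r := by
      intro r hr u hu
      exact Finset.mem_erase.2 ⟨fun h' => hr (h' ▸ hu), h.1 hu⟩
    have hmem : ∀ r, r ∉ (z : Finset α) → (x : Finset α).erase r ∈ G := fun r hr =>
      hG.2 _ x.2 _ (Finset.erase_subset _ _) (hzn.mono (hsub r hr))
    set y1 : G := ⟨(x : Finset α).erase p, hmem p hp.2⟩ with hy1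
    set y2 : G := ⟨(x : Finset α).erase q, hmem q hq.2⟩ with hy2
    have hne : y1 ≠ y2 := by
      intro h'
      have h3 : (x : Finset α).erase p = (x : Finset α).erase q := congrArg Subtype.val h'
      have : q ∈ (x : Finset α).erase p := Finset.mem_erase.2 ⟨hpq.ne', hq.1⟩
      rw [h3] at this
      exact (Finset.notMem_erase q _) this
    rw [Finset.sum_eq_add y1 y2 hne]
    · -- the two terms cancel
      have hz_p : (z : Finset α) = ((x : Finset α).erase p).erase q := by
        ext u
        simp only [mem_erase]
        constructor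
        · intro hu
          exact ⟨fun h' => hq.2 (h' ▸ hu), fun h' => hp.2 (h' ▸ hu), h.1 hu⟩
        · rintro ⟨h3, h4, h5⟩
          by_contra hc
          have : u ∈ (x : Finset α) \ z := Finset.mem_sdiff.2 ⟨h5, hc⟩
          rw [hxz] at this
          simp only [mem_insert, mem_singleton] at this
          rcases this with h6 | h6
          · exact h4 h6
          · exact h3 h6
      have hz_q : (z : Finset α) = ((x : Finset α).erase q).erase p := by
        rw [hz_p, Finset.erase_right_comm]
      have e1 : inc o (x : Finset α) y1 = o x * o y1 * (-1) ^ ((x : Finset α).filter (· < p)).card :=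
        inc_erase o x p hp.1
      have e2 : inc o (x : Finset α) y2 = o x * o y2 * (-1) ^ ((x : Finset α).filter (· < q)).card :=
        inc_erase o x q hq.1
      have e3 : inc o (y1 : Finset α) z
          = o y1 * o z * (-1) ^ (((x : Finset α).erase p).filter (· < q)).card := by
        have := inc_erase o ((x : Finset α).erase p) q (Finset.mem_erase.2 ⟨hpq.ne', hq.1⟩)
        rw [← hz_p] at this
        exact this
      have e4 : inc o (y2 : Finset α) z
          = o y2 * o z * (-1) ^ (((x : Finset α).erase q).filter (· < p)).card := by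
        have := inc_erase o ((x : Finset α).erase q) p (Finset.mem_erase.2 ⟨hpq.ne, hp.1⟩)
        rw [← hz_q] at this
        exact this
      have f1 : ((x : Finset α).filter (· < q)).card
          = (((x : Finset α).erase p).filter (· < q)).card + 1 := by
        have : ((x : Finset α).erase p).filter (· < q)
            = ((x : Finset α).filter (· < q)).erase p := by
          ext u
          simp only [mem_filter, mem_erase]
          tauto
        rw [this, Finset.card_erase_add_one]
        exact Finset.mem_filter.2 ⟨hp.1, hpq⟩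
      have f2 : (((x : Finset α).erase q).filter (· < p)).card
          = ((x : Finset α).filter (· < p)).card := by
        congr 1
        ext u
        simp only [mem_filter, mem_erase]
        constructor
        · rintro ⟨⟨-, h3⟩, h4⟩; exact ⟨h3, h4⟩
        · rintro ⟨h3, h4⟩; exact ⟨⟨(h4.trans hpq).ne, h3⟩, h4⟩
      rw [e1, e2, e3, e4, f1, f2, pow_succ]
      have g : ∀ y, o y * o y = 1 := fun y => by rcases ho y with h | h <;> rw [h] <;> norm_num
      linear_combination (o x * o z * (-1) ^ ((x : Finset α).filter (· < p)).card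
        * (-1) ^ (((x : Finset α).erase p).filter (· < q)).card) * (g y1 - g y2)
    · intro y _ hy
      by_contra hc
      have h3 : inc o (x : Finset α) y ≠ 0 := fun h' => hc (by rw [h', zero_mul])
      have h4 : inc o (y : Finset α) z ≠ 0 := fun h' => hc (by rw [h', mul_zero])
      obtain ⟨h5, h6⟩ := hfac _ _ h3
      obtain ⟨h7, h8⟩ := hfac _ _ h4
      have h9 : ((x : Finset α) \ y).card = 1 := by rw [Finset.card_sdiff_of_subset h5]; omega
      obtain ⟨r, hr⟩ := Finset.card_eq_one.1 h9
      have hrx : r ∈ (x : Finset α) \ y := by rw [hr]; simp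
      have hrx' := Finset.mem_sdiff.1 hrx
      have hye : (y : Finset α) = (x : Finset α).erase r := by
        ext u
        rw [Finset.mem_erase]
        constructor
        · intro hu
          exact ⟨fun h' => hrx'.2 (h' ▸ hu), h5 hu⟩
        · rintro ⟨h10, h11⟩
          by_contra hc'
          have : u ∈ (x : Finset α) \ y := Finset.mem_sdiff.2 ⟨h11, hc'⟩
          rw [hr, Finset.mem_singleton] at this
          exact h10 this
      have hrz : r ∈ (x : Finset α) \ z :=
        Finset.mem_sdiff.2 ⟨hrx'.1, fun h' => hrx'.2 (h7 h')⟩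
      rw [hxz] at hrz
      simp only [mem_insert, mem_singleton] at hrz
      rcases hrz with h10 | h10
      · exact hy.1 (Subtype.ext (by rw [hye, h10]))
      · exact hy.2 (Subtype.ext (by rw [hye, h10]))
    · intro h'; exact absurd (mem_univ _) h'
    · intro h'; exact absurd (mem_univ _) h'
  · refine Finset.sum_eq_zero fun y _ => ?_
    by_contra hc
    have h3 : inc o (x : Finset α) y ≠ 0 := fun h' => hc (by rw [h', zero_mul])
    have h4 : inc o (y : Finset α) z ≠ 0 := fun h' => hc (by rw [h', mul_zero])
    obtain ⟨h5, h6⟩ := hfac _ _ h3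
    obtain ⟨h7, h8⟩ := hfac _ _ h4
    exact h ⟨h7.trans h5, by omega⟩

end Pool.Q63.CL
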