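import Pool.Agent.Q63.CL.Tst

set_option autoImplicit false

/-!
# Orthonormal systems and sums of positive parts
-/

open Matrix Finset

namespace Pool.Q63.CL

variable {ι J : Type} [Fintype ι] [DecidableEq ι] [Fintype J] [DecidableEq J]

theorem compl_psd {P : Matrix ι ι ℝ} (hsym : Pᵀ = P) (hsq : P * P = P) :
    (1 - P).PosSemidef := by
  have h2 := posSemidef_conjTranspose_mul_self (1 - P)
  have e : (1 - P)ᴴ * (1 - P) = 1 - P := by
    rw [conjTranspose_eq_transpose_of_trivial, Matrix.transpose_sub, Matrix.transpose_one, hsym,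
      Matrix.mul_sub, Matrix.sub_mul, Matrix.sub_mul, hsq]
    simp
  rwa [e] at h2

theorem trace_mul_eq {P Q : Matrix ι ι ℝ} (hQ : Qᵀ = Q) :
    (P * Q).trace = ∑ i, ∑ j, P i j * Q i j := by
  simp only [Matrix.trace, Matrix.diag, Matrix.mul_apply]
  refine Finset.sum_congr rfl fun i _ => Finset.sum_congr rfl fun j _ => ?_
  have := congrFun (congrFun hQ i) j
  rw [Matrix.transpose_apply] at this
  rw [this]

theorem psd_symm {P : Matrix ι ι ℝ} (hP : P.PosSemidef) : Pᵀ = P := by
  have := hP.isHermitian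
  rwa [Matrix.IsHermitian, conjTranspose_eq_transpose_of_trivial] at this

theorem trace_mul_nonneg' {P Q : Matrix ι ι ℝ} (hP : P.PosSemidef) (hQ : Q.PosSemidef) :
    0 ≤ (P * Q).trace := by
  rw [trace_mul_eq (psd_symm hQ)]
  exact sum_mul_nonneg hP hQ

theorem sandwich_psd {Q : Matrix ι ι ℝ} (hQ : Q.PosSemidef) (Y : Matrix J ι ℝ) :
    (Y * Q * Yᵀ).PosSemidef := by
  have := hQ.mul_mul_conjTranspose_same Y
  rwa [conjTranspose_eq_transpose_of_trivial] at this

/-- upper bound for a matrix given by its singular system -/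
theorem upper (W X : Matrix J ι ℝ) (σ : J → ℝ) (hσ : ∀ j, 0 ≤ σ j) (hWW : W * Wᵀ = 1)
    (hXX : X * Xᵀ = 1) (hWX : W * Xᵀ = 0) (D : Matrix ι ι ℝ)
    (hD : D = Xᵀ * diagonal σ * W + Wᵀ * diagonal σ * X) {Q : Matrix ι ι ℝ} {t : ℝ}
    (hQ : IsTest Q t) (l : ℝ) (hl : 0 ≤ l) :
    (Q * D).trace - l * t ≤ ∑ j, max (σ j - l) 0 := by
  have hXW : X * Wᵀ = 0 := by
    have := congrArg Matrix.transpose hWX
    rwa [Matrix.transpose_mul, Matrix.transpose_transpose, Matrix.transpose_zero] at this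
  have hQs : Qᵀ = Q := psd_symm hQ.1
  set P : Matrix ι ι ℝ := Wᵀ * W + Xᵀ * X with hP
  have hPs : Pᵀ = P := by
    rw [hP, Matrix.transpose_add, Matrix.transpose_mul, Matrix.transpose_mul,
      Matrix.transpose_transpose, Matrix.transpose_transpose]
  have hPP : P * P = P := by
    rw [hP, Matrix.add_mul, Matrix.mul_add, Matrix.mul_add]
    have e1 : Wᵀ * W * (Wᵀ * W) = Wᵀ * W := by
      calc Wᵀ * W * (Wᵀ * W) = Wᵀ * (W * Wᵀ) * W := by simp only [Matrix.mul_assoc]
        _ = _ := by rw [hWW, Matrix.mul_one]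
    have e2 : Xᵀ * X * (Xᵀ * X) = Xᵀ * X := by
      calc Xᵀ * X * (Xᵀ * X) = Xᵀ * (X * Xᵀ) * X := by simp only [Matrix.mul_assoc]
        _ = _ := by rw [hXX, Matrix.mul_one]
    have e3 : Wᵀ * W * (Xᵀ * X) = 0 := by
      calc Wᵀ * W * (Xᵀ * X) = Wᵀ * (W * Xᵀ) * X := by simp only [Matrix.mul_assoc]
        _ = _ := by rw [hWX, Matrix.mul_zero, Matrix.zero_mul]
    have e4 : Xᵀ * X * (Wᵀ * W) = 0 := by
      calc Xᵀ * X * (Wᵀ * W) = Xᵀ * (X * Wᵀ) * W := by simp only [Matrix.mul_assoc]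
        _ = _ := by rw [hXW, Matrix.mul_zero, Matrix.zero_mul]
    rw [e1, e2, e3, e4]; simp
  have h1 := trace_mul_nonneg' hQ.1 (compl_psd hPs hPP)
  set a : J → ℝ := fun j => (W * Q * Wᵀ) j j with ha
  set b : J → ℝ := fun j => (X * Q * Xᵀ) j j with hb
  set q : J → ℝ := fun j => (X * Q * Wᵀ) j j with hq
  have hq' : ∀ j, (W * Q * Xᵀ) j j = q j := by
    intro j
    have e : (W * Q * Xᵀ) = (X * Q * Wᵀ)ᵀ := by
      rw [Matrix.transpose_mul, Matrix.transpose_mul, Matrix.transpose_transpose, hQs,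
        Matrix.mul_assoc]
    rw [e, Matrix.transpose_apply]
  have ht : ∑ j, (a j + b j) ≤ t := by
    rw [Matrix.mul_sub, Matrix.mul_one, Matrix.trace_sub, hQ.2.2, hP, Matrix.mul_add,
      Matrix.trace_add] at h1
    have e1 : (Q * (Wᵀ * W)).trace = ∑ j, a j := by
      rw [← Matrix.mul_assoc, Matrix.trace_mul_comm, ← Matrix.mul_assoc]; rfl
    have e2 : (Q * (Xᵀ * X)).trace = ∑ j, b j := by
      rw [← Matrix.mul_assoc, Matrix.trace_mul_comm, ← Matrix.mul_assoc]; rfl
    rw [e1, e2] at h1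
    rw [Finset.sum_add_distrib]
    linarith
  have hQD : (Q * D).trace = ∑ j, 2 * σ j * q j := by
    rw [hD, Matrix.mul_add, Matrix.trace_add]
    have e1 : (Q * (Xᵀ * diagonal σ * W)).trace = ∑ j, σ j * q j := by
      have : (Q * (Xᵀ * diagonal σ * W)).trace = (diagonal σ * (W * Q * Xᵀ)).trace := by
        calc (Q * (Xᵀ * diagonal σ * W)).trace = ((Q * Xᵀ) * (diagonal σ * W)).trace := by
              simp only [Matrix.mul_assoc]
          _ = ((diagonal σ * W) * (Q * Xᵀ)).trace := Matrix.trace_mul_comm _ _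
          _ = _ := by simp only [Matrix.mul_assoc]
      rw [this, Matrix.trace]
      refine Finset.sum_congr rfl fun j _ => ?_
      rw [Matrix.diag_apply, Matrix.diagonal_mul, hq']
    have e2 : (Q * (Wᵀ * diagonal σ * X)).trace = ∑ j, σ j * q j := by
      have : (Q * (Wᵀ * diagonal σ * X)).trace = (diagonal σ * (X * Q * Wᵀ)).trace := by
        calc (Q * (Wᵀ * diagonal σ * X)).trace = ((Q * Wᵀ) * (diagonal σ * X)).trace := by
              simp only [Matrix.mul_assoc]
          _ = ((diagonal σ * X) * (Q * Wᵀ)).trace := Matrix.trace_mul_comm _ _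
          _ = _ := by simp only [Matrix.mul_assoc]
      rw [this, Matrix.trace]
      refine Finset.sum_congr rfl fun j _ => ?_
      rw [Matrix.diag_apply, Matrix.diagonal_mul]
    rw [e1, e2, ← Finset.sum_add_distrib]
    exact Finset.sum_congr rfl fun j _ => by ring
  have hpp : ∀ j, 0 ≤ a j + b j + 2 * q j := by
    intro j
    have := (sandwich_psd hQ.1 (W + X)).diag_nonneg (i := j)
    have e : (W + X) * Q * (W + X)ᵀ = W * Q * Wᵀ + X * Q * Xᵀ + X * Q * Wᵀ + W * Q * Xᵀ := by
      rw [Matrix.transpose_add, Matrix.add_mul, Matrix.add_mul, Matrix.mul_add, Matrix.mul_add]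
      abel
    rw [e, Matrix.add_apply, Matrix.add_apply, Matrix.add_apply, hq'] at this
    have e' : a j + b j + 2 * q j = a j + b j + q j + q j := by ring
    rw [e']; exact this
  have hpm : ∀ j, 0 ≤ a j + b j - 2 * q j := by
    intro j
    have := (sandwich_psd hQ.1 (W - X)).diag_nonneg (i := j)
    have e : (W - X) * Q * (W - X)ᵀ = W * Q * Wᵀ + X * Q * Xᵀ - X * Q * Wᵀ - W * Q * Xᵀ := by
      rw [Matrix.transpose_sub, Matrix.sub_mul, Matrix.sub_mul, Matrix.mul_sub, Matrix.mul_sub]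
      abel
    rw [e, Matrix.sub_apply, Matrix.sub_apply, Matrix.add_apply, hq'] at this
    have e' : a j + b j - 2 * q j = a j + b j - q j - q j := by ring
    rw [e']; exact this
  have hp2 : ∀ j, a j + b j + 2 * q j ≤ 2 := by
    intro j
    have := (sandwich_psd hQ.2.1 (W + X)).diag_nonneg (i := j)
    have e : (W + X) * (1 - Q) * (W + X)ᵀ
        = (1 + 1) - (W * Q * Wᵀ + X * Q * Xᵀ + X * Q * Wᵀ + W * Q * Xᵀ) := by
      rw [Matrix.transpose_add, Matrix.mul_sub, Matrix.sub_mul, Matrix.mul_one]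
      have e1 : (W + X) * (Wᵀ + Xᵀ) = 1 + 1 := by
        rw [Matrix.add_mul, Matrix.mul_add, Matrix.mul_add, hWW, hXX, hWX, hXW]; simp
      rw [e1, Matrix.add_mul, Matrix.add_mul, Matrix.mul_add, Matrix.mul_add]
      abel
    rw [e, Matrix.sub_apply, Matrix.add_apply, Matrix.add_apply, Matrix.add_apply,
      Matrix.add_apply, hq', Matrix.one_apply_eq] at this
    have e' : a j + b j + 2 * q j = a j + b j + q j + q j := by ring
    rw [e']; linarith
  have hterm : ∀ j, 2 * σ j * q j - l * (a j + b j) ≤ max (σ j - l) 0 := by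
    intro j
    have h2 := hpp j
    have h3 := hpm j
    have h4 := hp2 j
    have h5 := hσ j
    have hab : 0 ≤ a j + b j := by linarith
    rcases le_total (q j) 0 with h | h
    · have : 2 * σ j * q j - l * (a j + b j) ≤ 0 := by
        nlinarith [mul_nonneg hl hab, mul_nonneg h5 (neg_nonneg.2 h)]
      exact this.trans (le_max_right _ _)
    · have h6 : 2 * q j ≤ 1 := by linarith
      have h7 : 2 * σ j * q j - l * (a j + b j) ≤ 2 * q j * (σ j - l) := by
        nlinarith [mul_le_mul_of_nonneg_left (by linarith : 2 * q j ≤ a j + b j) hl]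
      refine h7.trans ?_
      rcases le_total (σ j - l) 0 with h8 | h8
      · exact (mul_nonpos_of_nonneg_of_nonpos (by linarith) h8).trans (le_max_right _ _)
      · refine le_trans ?_ (le_max_left _ _)
        nlinarith
  calc (Q * D).trace - l * t ≤ ∑ j, 2 * σ j * q j - l * ∑ j, (a j + b j) := by
        rw [hQD]; nlinarith [mul_le_mul_of_nonneg_left ht hl]
    _ = ∑ j, (2 * σ j * q j - l * (a j + b j)) := by
        rw [Finset.mul_sum, ← Finset.sum_sub_distrib]
    _ ≤ _ := Finset.sum_le_sum fun j _ => hterm j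

/-- lower bound through a Schur multiplier and an orthonormal system -/
theorem lower (Z : Matrix J ι ℝ) (hZ : Z * Zᵀ = 1) {A B C : Matrix ι ι ℝ} (hA : Aᵀ = A)
    (hBs : Bᵀ = B) (hC : C.PosSemidef) (hdiag : ∀ i, C i i = 1)
    (hB : ∀ i j, C i j * A i j = B i j) (m : J → ℝ) (hm : ∀ j, m j ≤ (Z * B * Zᵀ) j j)
    (l : ℝ) : ∃ Q t, IsTest Q t ∧ ∑ j, max (m j - l) 0 ≤ (Q * A).trace - l * t ∧
      ∀ x y, (∀ j, Z j x = 0) → Q x y = 0 := by
  classical
  set χ : J → ℝ := fun j => if l < m j then 1 else 0 with hχ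
  have hχ0 : ∀ j, 0 ≤ χ j := fun j => by rw [hχ]; dsimp only; split_ifs <;> norm_num
  have hχ1 : ∀ j, 0 ≤ 1 - χ j := fun j => by rw [hχ]; dsimp only; split_ifs <;> norm_num
  set P : Matrix ι ι ℝ := Zᵀ * diagonal χ * Z with hP
  have hP0 : P.PosSemidef := by
    have h : (diagonal χ).PosSemidef := posSemidef_diagonal_iff.2 hχ0
    have := sandwich_psd h Zᵀ
    rwa [Matrix.transpose_transpose] at this
  have hP1 : (1 - P).PosSemidef := by
    have h : (diagonal (fun j => 1 - χ j)).PosSemidef := posSemidef_diagonal_iff.2 hχ1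
    have h2 := sandwich_psd h Zᵀ
    rw [Matrix.transpose_transpose] at h2
    have h3 : (1 - Zᵀ * Z).PosSemidef := by
      refine compl_psd ?_ ?_
      · rw [Matrix.transpose_mul, Matrix.transpose_transpose]
      · calc Zᵀ * Z * (Zᵀ * Z) = Zᵀ * (Z * Zᵀ) * Z := by simp only [Matrix.mul_assoc]
          _ = _ := by rw [hZ, Matrix.mul_one]
    have e : 1 - P = Zᵀ * diagonal (fun j => 1 - χ j) * Z + (1 - Zᵀ * Z) := by
      have : diagonal (fun j => 1 - χ j) = (1 : Matrix J J ℝ) - diagonal χ := by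
        rw [← Matrix.diagonal_one, Matrix.diagonal_sub]
      rw [this, Matrix.mul_sub, Matrix.sub_mul, Matrix.mul_one, hP]; abel
    rw [e]; exact h2.add h3
  have hPt : P.trace = ∑ j, χ j := by
    rw [hP, Matrix.trace_mul_comm, ← Matrix.mul_assoc, hZ, Matrix.one_mul, Matrix.trace_diagonal]
  have hPs := psd_symm hP0
  refine ⟨C ⊙ P, ∑ j, χ j, ⟨hC.hadamard hP0, ?_, ?_⟩, ?_, ?_⟩
  · have h := hC.hadamard hP1
    have e : C ⊙ (1 - P) = 1 - C ⊙ P := by
      ext i j
      simp only [Matrix.hadamard_apply, Matrix.sub_apply, Matrix.one_apply]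
      by_cases hij : i = j
      · subst hij; rw [hdiag]; simp
      · simp [hij]
    rwa [e] at h
  · rw [← hPt]
    simp [Matrix.trace, Matrix.diag, Matrix.hadamard_apply, hdiag]
  · have e1 : ((C ⊙ P) * A).trace = (P * B).trace := by
      rw [trace_mul_eq hA, trace_mul_eq hBs]
      refine Finset.sum_congr rfl fun i _ => Finset.sum_congr rfl fun j _ => ?_
      rw [Matrix.hadamard_apply, ← hB]; ring
    have e2 : (P * B).trace = ∑ j, χ j * (Z * B * Zᵀ) j j := by
      have : (P * B).trace = (diagonal χ * (Z * B * Zᵀ)).trace := by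
        rw [hP]
        calc (Zᵀ * diagonal χ * Z * B).trace = (Zᵀ * (diagonal χ * Z * B)).trace := by
              simp only [Matrix.mul_assoc]
          _ = ((diagonal χ * Z * B) * Zᵀ).trace := Matrix.trace_mul_comm _ _
          _ = _ := by simp only [Matrix.mul_assoc]
      rw [this, Matrix.trace]
      refine Finset.sum_congr rfl fun j _ => ?_
      rw [Matrix.diag_apply, Matrix.diagonal_mul]
    rw [e1, e2, Finset.mul_sum, ← Finset.sum_sub_distrib]
    refine Finset.sum_le_sum fun j _ => ?_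
    have := hm j
    rw [hχ]
    dsimp only
    split_ifs with h
    · rw [max_eq_left (by linarith)]; linarith
    · rw [max_eq_right (by linarith)]; simp
  · intro x y hx
    rw [Matrix.hadamard_apply, hP, Matrix.mul_assoc, Matrix.mul_apply]
    have : ∑ j, Zᵀ x j * (diagonal χ * Z) j y = 0 :=
      Finset.sum_eq_zero fun j _ => by rw [Matrix.transpose_apply, hx j, zero_mul]
    rw [this, mul_zero]

/-- the dual description of the sum of the `k` largest eigenvalues -/
theorem dual {A : Matrix ι ι ℝ} (hA : A.IsHermitian) (k : ℕ) (hk1 : 1 ≤ k)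
    (hk : k ≤ Fintype.card ι) {Q : Matrix ι ι ℝ} {t : ℝ} (hQ : IsTest Q t) :
    (Q * A).trace - hA.eigenvalues₀ ⟨k - 1, by omega⟩ * t
      ≤ specSum hA k - k * hA.eigenvalues₀ ⟨k - 1, by omega⟩ := by
  obtain ⟨U, hU1, hU2, hUA⟩ := spectral hA
  set μ := hA.eigenvalues₀ ⟨k - 1, by omega⟩ with hμ
  set R : Matrix ι ι ℝ := Uᵀ * Q * U with hR
  have hR0 : R.PosSemidef := by
    have := sandwich_psd hQ.1 Uᵀ
    rwa [Matrix.transpose_transpose] at this
  have hR1 : (1 - R).PosSemidef := by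
    have := sandwich_psd hQ.2.1 Uᵀ
    have e : Uᵀ * (1 - Q) * Uᵀᵀ = 1 - R := by
      rw [Matrix.transpose_transpose, Matrix.mul_sub, Matrix.sub_mul, Matrix.mul_one, hU2]
    rwa [e] at this
  have htr : R.trace = t := by
    rw [hR, Matrix.trace_mul_comm, ← Matrix.mul_assoc, hU1, Matrix.one_mul, hQ.2.2]
  have e1 : (Q * A).trace = ∑ i, hA.eigenvalues i * R i i := by
    have : (Q * A).trace = (R * diagonal hA.eigenvalues).trace := by
      conv_lhs => rw [hUA]
      rw [hR, ← Matrix.mul_assoc, ← Matrix.mul_assoc, Matrix.trace_mul_comm]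
      simp only [Matrix.mul_assoc]
    rw [this, Matrix.trace]
    refine Finset.sum_congr rfl fun i _ => ?_
    simp [Matrix.diag, Matrix.mul_diagonal, mul_comm]
  set e : Fin (Fintype.card ι) ≃ ι := Fintype.equivOfCardEq (Fintype.card_fin _) with he
  have e2 : ∑ i, hA.eigenvalues i * R i i = ∑ j : Fin (Fintype.card ι),
      hA.eigenvalues₀ j * R (e j) (e j) := by
    rw [← Equiv.sum_comp e]
    refine Finset.sum_congr rfl fun i _ => ?_
    simp [Matrix.IsHermitian.eigenvalues, he]
  have e3 : t = ∑ j : Fin (Fintype.card ι), R (e j) (e j) := by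
    rw [← htr, Matrix.trace, Equiv.sum_comp e (fun i => R i i)]; rfl
  have hcount : ∑ i : Fin (Fintype.card ι), (if (i : ℕ) < k then (1 : ℝ) else 0) = k := by
    rw [Finset.sum_ite, Finset.sum_const_zero, add_zero, Finset.sum_const, nsmul_eq_mul, mul_one]
    congr 1
    have : (univ.filter fun i : Fin (Fintype.card ι) => (i : ℕ) < k) =
        (univ : Finset (Fin k)).map (Fin.castLEEmb hk) := by
      ext i
      simp only [mem_filter, mem_univ, true_and, mem_map, Fin.castLEEmb_apply]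
      constructor
      · intro h
        exact ⟨⟨i, h⟩, rfl⟩
      · rintro ⟨a, rfl⟩
        simp
    rw [this]; simp
  rw [e1, e2, specSum]
  nth_rewrite 1 [e3]
  rw [← hcount, Finset.sum_mul, Finset.mul_sum, ← Finset.sum_sub_distrib,
    ← Finset.sum_sub_distrib]
  refine Finset.sum_le_sum fun j _ => ?_
  have h0 : 0 ≤ R (e j) (e j) := hR0.diag_nonneg
  have h1 : R (e j) (e j) ≤ 1 := by
    have := hR1.diag_nonneg (i := e j)
    simp at this
    linarith
  split_ifs with h
  · have : μ ≤ hA.eigenvalues₀ j := hA.eigenvalues₀_antitone (by rw [Fin.le_def]; simp; omega)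
    nlinarith
  · have : hA.eigenvalues₀ j ≤ μ := hA.eigenvalues₀_antitone (by rw [Fin.le_def]; simp; omega)
    nlinarith

end Pool.Q63.CL
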