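import Pool.Agent.Q63.CL.Tests2
import Pool.Agent.Q63.CL.Sys

set_option autoImplicit false

/-!
# The graph test restricted to a set of vertices, and direct sums of tests
-/

open Matrix Finset

namespace Pool.Q63.CL

theorem direct_sum {ι : Type} [Fintype ι] [DecidableEq ι] {Q P : Matrix ι ι ℝ} {s t : ℝ}
    (hQ : IsTest Q t) (hP : IsTest P s) (χ : ι → Prop) [DecidablePred χ]
    (h1 : ∀ x y, χ x → Q x y = 0) (h2 : ∀ x y, ¬ χ x → P x y = 0) : IsTest (Q + P) (t + s) := by
  have hQs := psd_symm hQ.1
  have hPs := psd_symm hP.1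
  have h1' : ∀ x y, χ y → Q x y = 0 := by
    intro x y hy
    have := congrFun (congrFun hQs x) y
    rw [Matrix.transpose_apply] at this
    rw [← this]; exact h1 y x hy
  have h2' : ∀ x y, ¬ χ y → P x y = 0 := by
    intro x y hy
    have := congrFun (congrFun hPs x) y
    rw [Matrix.transpose_apply] at this
    rw [← this]; exact h2 y x hy
  refine ⟨hQ.1.add hP.1, ?_, ?_⟩
  · have a := sandwich_psd hQ.2.1 (diagonal (fun x => if χ x then (0 : ℝ) else 1))
    have b := sandwich_psd hP.2.1 (diagonal (fun x => if χ x then (1 : ℝ) else 0))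
    have e : 1 - (Q + P) = diagonal (fun x => if χ x then (0 : ℝ) else 1) * (1 - Q)
        * (diagonal (fun x => if χ x then (0 : ℝ) else 1))ᵀ
        + diagonal (fun x => if χ x then (1 : ℝ) else 0) * (1 - P)
        * (diagonal (fun x => if χ x then (1 : ℝ) else 0))ᵀ := by
      ext x y
      rw [Matrix.diagonal_transpose, Matrix.diagonal_transpose, Matrix.add_apply,
        Matrix.mul_diagonal, Matrix.mul_diagonal, Matrix.diagonal_mul, Matrix.diagonal_mul,
        Matrix.sub_apply, Matrix.sub_apply, Matrix.sub_apply, Matrix.add_apply]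
      by_cases hx : χ x
      · by_cases hy : χ y
        · rw [h1 x y hx]; simp [hx, hy]
        · have hne : x ≠ y := by rintro rfl; exact hy hx
          rw [h1 x y hx, h2' x y hy, Matrix.one_apply_ne hne]; simp [hx, hy]
      · by_cases hy : χ y
        · have hne : x ≠ y := by rintro rfl; exact hx hy
          rw [h1' x y hy, h2 x y hx, Matrix.one_apply_ne hne]; simp [hx, hy]
        · rw [h2 x y hx]; simp [hx, hy]
    rw [e]; exact a.add b
  · rw [Matrix.trace_add, hQ.2.2, hP.2.2]

variable {α : Type} [LinearOrder α]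

/-- the number of sets with two elements that contain `v` -/
noncomputable def deg (G : Finset (Finset α)) (v : α) : ℝ :=
  ∑ x : G, if v ∈ (x : Finset α) ∧ (x : Finset α).card = 2 then (1 : ℝ) else 0

theorem graph_W {G : Finset (Finset α)} (hG : IsComplex G) (p : verts G → Prop)
    [DecidablePred p] :
    ∃ Q : Matrix G G ℝ, IsTest Q (Fintype.card {v // p v}) ∧
      ∑ v : {v // p v}, deg G (v : verts G) ≤ (Q * conn G).trace ∧
      ∀ x y : G, (x : Finset α).card = 3 → Q x y = 0 := by
  classical
  set R : Matrix {v // p v} G ℝ := fun v x =>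
    if ((v : verts G) : α) ∈ (x : Finset α) ∧ (x : Finset α).card ≤ 2 then 1 else 0 with hR
  set Rc : Matrix {v // ¬ p v} G ℝ := fun v x =>
    if ((v : verts G) : α) ∈ (x : Finset α) ∧ (x : Finset α).card ≤ 2 then 1 else 0 with hRc
  set Re : Matrix {v // p v} G ℝ := fun v x =>
    if ((v : verts G) : α) ∈ (x : Finset α) ∧ (x : Finset α).card = 2 then 1 else 0 with hRe
  set A : Matrix {v // p v} {v // p v} ℝ := 1 + Re * Reᵀ with hA
  have hx1 : ∀ x : G, 1 ≤ (x : Finset α).card := fun x => Finset.card_pos.2 (hG.1 _ x.2)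
  have hRR : R * Rᵀ = A := by
    ext v w
    have h0 : (1 : Matrix {v // p v} {v // p v} ℝ) v w
        = if (v : verts G) = (w : verts G) then 1 else 0 := by
      rw [Matrix.one_apply]
      by_cases h : v = w
      · subst h; simp
      · rw [if_neg h, if_neg (fun h' => h (Subtype.ext h'))]
    rw [hA, Matrix.add_apply, Matrix.mul_apply, Matrix.mul_apply, h0,
      ← sum_single hG (v : verts G) (w : verts G), ← Finset.sum_add_distrib]
    refine Finset.sum_congr rfl fun x _ => ?_
    rw [Matrix.transpose_apply, Matrix.transpose_apply, hR, hRe]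
    dsimp only
    have := hx1 x
    by_cases h1 : ((v : verts G) : α) ∈ (x : Finset α)
    · by_cases h2 : ((w : verts G) : α) ∈ (x : Finset α)
      · rcases (by omega : (x : Finset α).card = 1 ∨ (x : Finset α).card = 2 ∨
          3 ≤ (x : Finset α).card) with h | h | h
        · simp [h1, h2, h]
        · simp [h1, h2, h]
        · have e1 : ¬ (x : Finset α).card ≤ 2 := by omega
          have e2 : ¬ (x : Finset α).card = 2 := by omega
          have e3 : ¬ (x : Finset α).card = 1 := by omega
          simp [e1, e2, e3]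
      · simp [h2]
    · simp [h1]
  have hpd : A.PosDef := by
    rw [hA]
    have h1 : (Re * Reᵀ).PosSemidef := by
      have := posSemidef_self_mul_conjTranspose Re
      simpa [conjTranspose_eq_transpose_of_trivial] using this
    exact PosDef.one.add_posSemidef h1
  set X : Matrix {v // p v} {v // p v} ℝ := A⁻¹ with hX
  have hXpsd : X.PosSemidef := hpd.inv.posSemidef
  have hXA : X * A = 1 := Matrix.nonsing_inv_mul A ((Matrix.isUnit_iff_isUnit_det A).1 hpd.isUnit)
  have hXR : X * (R * Rᵀ) = 1 := by rw [hRR, hXA]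
  set Q : Matrix G G ℝ := Rᵀ * X * R with hQ
  have hQt : IsTest Q (Fintype.card {v // p v}) := rowProj R X hXpsd hXR
  have hQs := psd_symm hQt.1
  have hQ0 : ∀ x y : G, ¬ (x : Finset α).card ≤ 2 → Q x y = 0 := by
    intro x y hx
    rw [hQ, Matrix.mul_assoc, Matrix.mul_apply]
    refine Finset.sum_eq_zero fun v _ => ?_
    have : Rᵀ x v = 0 := if_neg fun h => hx h.2
    rw [this, zero_mul]
  have hQ0' : ∀ x y : G, ¬ (y : Finset α).card ≤ 2 → Q x y = 0 := by
    intro x y hy
    have := congrFun (congrFun hQs x) y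
    rw [Matrix.transpose_apply] at this
    rw [← this]; exact hQ0 y x hy
  refine ⟨Q, hQt, ?_, fun x y hx => hQ0 x y (by omega)⟩
  set Λ : Matrix G G ℝ := diagonal (fun x : G => if (x : Finset α).card = 2 then 1 else 0)
    with hΛ
  have hL : (conn G)ᵀ = conn G := by
    have := conn_herm G
    rwa [Matrix.IsHermitian, conjTranspose_eq_transpose_of_trivial] at this
  have hRR2 : (Rᵀ * R)ᵀ = Rᵀ * R := by rw [Matrix.transpose_mul, Matrix.transpose_transpose]
  have hRc2 : (Rcᵀ * Rc)ᵀ = Rcᵀ * Rc := by rw [Matrix.transpose_mul, Matrix.transpose_transpose]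
  have hΛ2 : Λᵀ = Λ := by rw [hΛ, Matrix.diagonal_transpose]
  have key : (Q * conn G).trace
      = (Q * (Rᵀ * R)).trace + (Q * (Rcᵀ * Rc)).trace - (Q * Λ).trace := by
    rw [trace_mul_eq hL, trace_mul_eq hRR2, trace_mul_eq hRc2, trace_mul_eq hΛ2,
      ← Finset.sum_add_distrib, ← Finset.sum_sub_distrib]
    refine Finset.sum_congr rfl fun x _ => ?_
    rw [← Finset.sum_add_distrib, ← Finset.sum_sub_distrib]
    refine Finset.sum_congr rfl fun y _ => ?_
    by_cases hxc : (x : Finset α).card ≤ 2
    · by_cases hyc : (y : Finset α).card ≤ 2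
      · have h1 : (Rᵀ * R) x y + (Rcᵀ * Rc) x y = (((x : Finset α) ∩ y).card : ℝ) := by
          rw [← sum_verts2 x y, ← Fintype.sum_subtype_add_sum_subtype p, Matrix.mul_apply,
            Matrix.mul_apply]
          congr 1
          · refine Finset.sum_congr rfl fun u _ => ?_
            rw [Matrix.transpose_apply, hR]
            dsimp only
            by_cases h1 : ((u : verts G) : α) ∈ (x : Finset α) <;>
              by_cases h2 : ((u : verts G) : α) ∈ (y : Finset α) <;> simp [h1, h2, hxc, hyc]
          · refine Finset.sum_congr rfl fun u _ => ?_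
            rw [Matrix.transpose_apply, hRc]
            dsimp only
            by_cases h1 : ((u : verts G) : α) ∈ (x : Finset α) <;>
              by_cases h2 : ((u : verts G) : α) ∈ (y : Finset α) <;> simp [h1, h2, hxc, hyc]
        have h2 : conn G x y = (((x : Finset α) ∩ y).card : ℝ) - Λ x y := by
          unfold conn
          rw [conn_small _ _ hxc hyc (hG.1 _ x.2), hΛ, Matrix.diagonal_apply]
          congr 1
          by_cases h : x = y
          · subst h; simp
          · rw [if_neg h, if_neg]
            rintro ⟨h', -⟩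
            exact h (Subtype.ext h')
        rw [h2, ← h1]; ring
      · rw [hQ0' x y hyc]; ring
    · rw [hQ0 x y hxc]; ring
  have k1 : (Q * (Rᵀ * R)).trace = A.trace := by
    rw [hQ, rowProj_trace]
    have : R * (Rᵀ * R) * Rᵀ = A * A := by rw [← hRR]; simp only [Matrix.mul_assoc]
    rw [this, ← Matrix.mul_assoc, hXA, Matrix.one_mul]
  have k2 : 0 ≤ (Q * (Rcᵀ * Rc)).trace := by
    refine trace_mul_nonneg' hQt.1 ?_
    have := posSemidef_conjTranspose_mul_self Rc
    rwa [conjTranspose_eq_transpose_of_trivial] at this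
  have k3 : (Q * Λ).trace ≤ Fintype.card {v // p v} := by
    rw [hQ, rowProj_trace]
    have e2 : R * Λ * Rᵀ = Re * Reᵀ := by
      ext v w
      rw [Matrix.mul_apply, Matrix.mul_apply]
      refine Finset.sum_congr rfl fun x _ => ?_
      rw [hΛ, Matrix.mul_diagonal, Matrix.transpose_apply, Matrix.transpose_apply, hR, hRe]
      dsimp only
      by_cases h1 : ((v : verts G) : α) ∈ (x : Finset α) <;>
        by_cases h2 : ((w : verts G) : α) ∈ (x : Finset α) <;>
        by_cases h3 : (x : Finset α).card = 2 <;> simp [h1, h2, h3]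
    have e4 : Re * Reᵀ = A - 1 := by rw [hA]; simp
    rw [e2, e4, Matrix.mul_sub, hXA, Matrix.mul_one, Matrix.trace_sub, Matrix.trace_one]
    have := hXpsd.trace_nonneg
    linarith
  have k4 : A.trace = Fintype.card {v // p v} + ∑ v : {v // p v}, deg G (v : verts G) := by
    rw [hA, Matrix.trace_add, Matrix.trace_one, Matrix.trace]
    congr 1
    refine Finset.sum_congr rfl fun v _ => ?_
    rw [Matrix.diag_apply, Matrix.mul_apply, deg]
    refine Finset.sum_congr rfl fun x _ => ?_
    rw [Matrix.transpose_apply, hRe]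
    dsimp only
    split_ifs <;> norm_num
  rw [key, k1, k4]
  linarith

end Pool.Q63.CL
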