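import Pool.Agent.Q63.CL.TwoTests
import Pool.Agent.Q63.CL.GraphW

set_option autoImplicit false

/-!
# The eigenvalues of the edge part against the degrees
-/

open Matrix Finset

namespace Pool.Q63.CL

theorem jensen {ι J : Type} [Fintype ι] [DecidableEq ι] [Fintype J] [DecidableEq J]
    (W : Matrix J ι ℝ) (hW : W * Wᵀ = 1) (h : J → ℝ) (N : Matrix ι ι ℝ)
    (hN : N = Wᵀ * diagonal h * W) (a κ : ℝ) (hκ : 0 ≤ κ) :
    ∑ j, min (a * h j) κ ≤ ∑ e, min (a * N e e) κ := by
  have h1 : ∀ j, ∑ e, W j e ^ 2 = 1 := by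
    intro j
    have := congrFun (congrFun hW j) j
    rw [Matrix.mul_apply, Matrix.one_apply_eq] at this
    rw [← this]
    exact Finset.sum_congr rfl fun e _ => by rw [Matrix.transpose_apply]; ring
  have h2 : ∀ e, ∑ j, W j e ^ 2 ≤ 1 := by
    intro e
    have h3 : (1 - Wᵀ * W).PosSemidef := by
      refine compl_psd ?_ ?_
      · rw [Matrix.transpose_mul, Matrix.transpose_transpose]
      · calc Wᵀ * W * (Wᵀ * W) = Wᵀ * (W * Wᵀ) * W := by simp only [Matrix.mul_assoc]
          _ = _ := by rw [hW, Matrix.mul_one]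
    have h4 := h3.diag_nonneg (i := e)
    rw [Matrix.sub_apply, Matrix.one_apply_eq, Matrix.mul_apply] at h4
    have : ∑ j, Wᵀ e j * W j e = ∑ j, W j e ^ 2 :=
      Finset.sum_congr rfl fun j _ => by rw [Matrix.transpose_apply]; ring
    linarith
  have h3 : ∀ e, N e e = ∑ j, W j e ^ 2 * h j := by
    intro e
    rw [hN, Matrix.mul_apply]
    refine Finset.sum_congr rfl fun j _ => ?_
    rw [Matrix.mul_diagonal, Matrix.transpose_apply]; ring
  calc ∑ j, min (a * h j) κ = ∑ j, ∑ e, W j e ^ 2 * min (a * h j) κ := by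
        refine Finset.sum_congr rfl fun j _ => ?_
        rw [← Finset.sum_mul, h1, one_mul]
    _ = ∑ e, ∑ j, W j e ^ 2 * min (a * h j) κ := Finset.sum_comm
    _ ≤ ∑ e, min (a * N e e) κ := by
        refine Finset.sum_le_sum fun e _ => le_min ?_ ?_
        · rw [h3, Finset.mul_sum]
          refine Finset.sum_le_sum fun j _ => ?_
          have := mul_le_mul_of_nonneg_left (min_le_left (a * h j) κ) (sq_nonneg (W j e))
          linarith
        · calc ∑ j, W j e ^ 2 * min (a * h j) κ ≤ ∑ j, W j e ^ 2 * κ :=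
                Finset.sum_le_sum fun j _ =>
                  mul_le_mul_of_nonneg_left (min_le_right _ _) (sq_nonneg _)
            _ = (∑ j, W j e ^ 2) * κ := by rw [Finset.sum_mul]
            _ ≤ 1 * κ := mul_le_mul_of_nonneg_right (h2 e) hκ
            _ = κ := one_mul κ

variable {α : Type} [LinearOrder α]

theorem deg_eq (G : Finset (Finset α)) (v : α) :
    deg G v = ((G.filter fun x => v ∈ x ∧ x.card = 2).card : ℝ) := by
  unfold deg
  have h := Finset.sum_coe_sort G
    (fun x : Finset α => if v ∈ x ∧ x.card = 2 then (1 : ℝ) else 0)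
  rw [h, Finset.sum_boole]

theorem tri_eq {G : Finset (Finset α)} (o : Finset α → ℝ)
    (ho : ∀ x, o x = 1 ∨ o x = -1) (e : G) (he : (e : Finset α).card = 2) :
    ((lvl G o 3)ᵀ * lvl G o 3) e e
      = ((G.filter fun x => x.card = 3 ∧ (e : Finset α) ⊆ x).card : ℝ) := by
  rw [Matrix.mul_apply]
  have h1 : ∀ x : G, (lvl G o 3)ᵀ e x * lvl G o 3 x e
      = if (x : Finset α).card = 3 ∧ (e : Finset α) ⊆ x then (1 : ℝ) else 0 := by
    intro x
    rw [Matrix.transpose_apply, ← sq]
    unfold lvl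
    split_ifs with h h' h'
    · rw [inc_sq o ho, if_pos ⟨h'.2, by omega⟩]
    · rw [inc_sq o ho, if_neg]
      rintro ⟨h1, -⟩
      exact h' ⟨h, h1⟩
    · exact absurd h'.1 h
    · norm_num
  rw [Finset.sum_congr rfl fun x _ => h1 x]
  have h := Finset.sum_coe_sort G
    (fun x : Finset α => if x.card = 3 ∧ (e : Finset α) ⊆ x then (1 : ℝ) else 0)
  rw [h, Finset.sum_boole]

theorem tri_zero {G : Finset (Finset α)} (o : Finset α → ℝ) (e : G)
    (he : (e : Finset α).card ≠ 2) : ((lvl G o 3)ᵀ * lvl G o 3) e e = 0 := by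
  rw [Matrix.mul_apply]
  refine Finset.sum_eq_zero fun x _ => ?_
  have : lvl G o 3 x e = 0 := by
    unfold lvl
    split_ifs with h
    · by_contra hc
      have := inc_ne hc
      omega
    · rfl
  rw [this, mul_zero]

theorem tri_le {G : Finset (Finset α)} (hG : IsComplex G) (o : Finset α → ℝ)
    (ho : ∀ x, o x = 1 ∨ o x = -1) (e : G) (he : (e : Finset α).card = 2) (v : α)
    (hv : v ∈ (e : Finset α)) :
    ((lvl G o 3)ᵀ * lvl G o 3) e e ≤ deg G v - 1 := by
  rw [tri_eq o ho e he, deg_eq]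
  have heT : (e : Finset α) ∈ G.filter fun x => v ∈ x ∧ x.card = 2 :=
    Finset.mem_filter.2 ⟨e.2, hv, he⟩
  have h1 : (G.filter fun x => x.card = 3 ∧ (e : Finset α) ⊆ x).card
      ≤ ((G.filter fun x => v ∈ x ∧ x.card = 2).erase (e : Finset α)).card := by
    refine Finset.card_le_card_of_injOn (fun x => insert v (x \ (e : Finset α))) ?_ ?_
    · intro x hx
      have hx' := Finset.mem_filter.1 (Finset.mem_coe.1 hx)
      obtain ⟨hxG, hx3, hex⟩ := hx'
      have hc : (x \ (e : Finset α)).card = 1 := by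
        rw [Finset.card_sdiff_of_subset hex]; omega
      obtain ⟨w, hw⟩ := Finset.card_eq_one.1 hc
      have hwx : w ∈ x \ (e : Finset α) := by rw [hw]; simp
      have hwx' := Finset.mem_sdiff.1 hwx
      have hvw : v ∉ x \ (e : Finset α) := fun h => (Finset.mem_sdiff.1 h).2 hv
      rw [Finset.mem_coe, Finset.mem_erase, Finset.mem_filter]
      refine ⟨?_, ?_, Finset.mem_insert_self _ _, ?_⟩
      · intro h
        apply hwx'.2
        rw [← h]
        exact Finset.mem_insert_of_mem hwx
      · refine hG.2 x hxG _ ?_ (Finset.insert_nonempty _ _)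
        intro u hu
        rcases Finset.mem_insert.1 hu with h | h
        · rw [h]; exact hex hv
        · exact (Finset.mem_sdiff.1 h).1
      · show (insert v (x \ (e : Finset α))).card = 2
        rw [Finset.card_insert_of_notMem hvw, hc]
    · intro x hx y hy hxy
      have hx' := Finset.mem_filter.1 (Finset.mem_coe.1 hx)
      have hy' := Finset.mem_filter.1 (Finset.mem_coe.1 hy)
      have hvx : v ∉ x \ (e : Finset α) := fun h => (Finset.mem_sdiff.1 h).2 hv
      have hvy : v ∉ y \ (e : Finset α) := fun h => (Finset.mem_sdiff.1 h).2 hv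
      have h2 : x \ (e : Finset α) = y \ (e : Finset α) := by
        rw [← Finset.erase_insert hvx, ← Finset.erase_insert hvy]
        exact congrArg (fun s => s.erase v) hxy
      rw [← Finset.sdiff_union_of_subset hx'.2.2, ← Finset.sdiff_union_of_subset hy'.2.2, h2]
  rw [Finset.card_erase_of_mem heT] at h1
  have h2 : 1 ≤ (G.filter fun x => v ∈ x ∧ x.card = 2).card := Finset.card_pos.2 ⟨_, heT⟩
  have h3 : (G.filter fun x => x.card = 3 ∧ (e : Finset α) ⊆ x).card + 1
      ≤ (G.filter fun x => v ∈ x ∧ x.card = 2).card := by omega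
  have h4 : (((G.filter fun x => x.card = 3 ∧ (e : Finset α) ⊆ x).card : ℝ) + 1)
      ≤ ((G.filter fun x => v ∈ x ∧ x.card = 2).card : ℝ) := by exact_mod_cast h3
  linarith

/-- the elementary inequality for the degrees -/
theorem deg_arith (n : ℕ) (hn : 2 ≤ n) (μ : ℝ) (h1 : 1 ≤ μ) (h2 : μ ≤ 1.7) :
    (n : ℝ) * min (1 / (4 * μ) * ((n : ℝ) - 1)) (√(3 * μ) - μ) ≤ n - μ := by
  have hμ : 0 < μ := by linarith
  rcases (by omega : n = 2 ∨ n = 3 ∨ 4 ≤ n) with h | h | h
  · subst h
    have : min (1 / (4 * μ) * (((2 : ℕ) : ℝ) - 1)) (√(3 * μ) - μ) ≤ 1 / (4 * μ) := by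
      refine (min_le_left _ _).trans ?_
      push_cast; norm_num
    have h3 : 1 / (4 * μ) ≤ (2 - μ) / 2 := by
      rw [div_le_div_iff₀ (by linarith) (by norm_num)]
      nlinarith
    push_cast
    linarith
  · subst h
    have : min (1 / (4 * μ) * (((3 : ℕ) : ℝ) - 1)) (√(3 * μ) - μ) ≤ 1 / (4 * μ) * 2 := by
      refine (min_le_left _ _).trans ?_
      push_cast; norm_num
    have h3 : 1 / (4 * μ) ≤ (3 - μ) / 6 := by
      rw [div_le_div_iff₀ (by linarith) (by norm_num)]
      nlinarith
    push_cast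
    linarith
  · have hn4 : (4 : ℝ) ≤ n := by exact_mod_cast h
    have h3 : (n : ℝ) * √(3 * μ) ≤ n + (n - 1) * μ := by
      have h5 : 0 ≤ (n : ℝ) + (n - 1) * μ := by nlinarith
      have h6 : ((n : ℝ) * √(3 * μ)) ^ 2 ≤ (n + (n - 1) * μ) ^ 2 := by
        rw [mul_pow, Real.sq_sqrt (by linarith)]
        nlinarith [sq_nonneg ((n : ℝ) - (n - 1) * μ), mul_nonneg (mul_nonneg
          (by linarith : (0 : ℝ) ≤ n) (by linarith : (0 : ℝ) ≤ n - 4)) hμ.le]
      exact abs_le_of_sq_le_sq' h6 h5 |>.2
    have h4 := mul_le_mul_of_nonneg_left (min_le_right (1 / (4 * μ) * ((n : ℝ) - 1))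
      (√(3 * μ) - μ)) (by linarith : (0 : ℝ) ≤ n)
    linarith

theorem edge_sum {G : Finset (Finset α)} (hG : IsComplex G) (o : Finset α → ℝ)
    (ho : ∀ x, o x = 1 ∨ o x = -1) (μ : ℝ) (h1 : 1 ≤ μ) (h2 : μ ≤ 1.7)
    [DecidablePred fun v : verts G => 2 ≤ deg G (v : α)] :
    ∑ e, min (1 / (4 * μ) * ((lvl G o 3)ᵀ * lvl G o 3) e e) (√(3 * μ) - μ)
      ≤ (1 / 2) * ∑ v : {v : verts G // 2 ≤ deg G (v : α)}, (deg G ((v : verts G) : α) - μ) := by
  have hμ : 0 < μ := by linarith
  have ha : 0 ≤ 1 / (4 * μ) := by positivity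
  have hκ : 0 ≤ √(3 * μ) - μ := by
    have : μ ≤ √(3 * μ) := Real.le_sqrt_of_sq_le (by nlinarith)
    linarith
  set a := 1 / (4 * μ) with haa
  set κ := √(3 * μ) - μ with hκκ
  set N := (lvl G o 3)ᵀ * lvl G o 3 with hN
  have hterm : ∀ e : G, min (a * N e e) κ ≤ (1 / 2) * ∑ v : verts G,
      (if (v : α) ∈ (e : Finset α) ∧ (e : Finset α).card = 2 then (1 : ℝ) else 0)
        * min (a * (deg G (v : α) - 1)) κ := by
    intro e
    by_cases he : (e : Finset α).card = 2
    · have hs := sum_verts e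
      rw [he] at hs
      have e1 : min (a * N e e) κ = (1 / 2) * ∑ v : verts G,
          (if (v : α) ∈ (e : Finset α) then (1 : ℝ) else 0) * min (a * N e e) κ := by
        rw [← Finset.sum_mul, hs]; push_cast; ring
      rw [e1]
      refine mul_le_mul_of_nonneg_left (Finset.sum_le_sum fun v _ => ?_) (by norm_num)
      by_cases hv : (v : α) ∈ (e : Finset α)
      · rw [if_pos hv, if_pos ⟨hv, he⟩, one_mul, one_mul]
        exact min_le_min (mul_le_mul_of_nonneg_left (tri_le hG o ho e he v hv) ha) le_rfl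
      · rw [if_neg hv, if_neg (fun h => hv h.1), zero_mul, zero_mul]
    · have : N e e = 0 := tri_zero o e he
      rw [this, mul_zero, min_eq_left hκ]
      have : ∑ v : verts G,
        (if (v : α) ∈ (e : Finset α) ∧ (e : Finset α).card = 2 then (1 : ℝ) else 0)
          * min (a * (deg G (v : α) - 1)) κ = 0 :=
        Finset.sum_eq_zero fun v _ => by rw [if_neg (fun h => he h.2), zero_mul]
      rw [this]; simp
  calc ∑ e, min (a * N e e) κ ≤ ∑ e : G, (1 / 2) * ∑ v : verts G,
      (if (v : α) ∈ (e : Finset α) ∧ (e : Finset α).card = 2 then (1 : ℝ) else 0)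
        * min (a * (deg G (v : α) - 1)) κ := Finset.sum_le_sum fun e _ => hterm e
    _ = (1 / 2) * ∑ v : verts G, deg G (v : α) * min (a * (deg G (v : α) - 1)) κ := by
        rw [← Finset.mul_sum, Finset.sum_comm]
        congr 1
        refine Finset.sum_congr rfl fun v _ => ?_
        rw [← Finset.sum_mul]; rfl
    _ ≤ _ := by
        refine mul_le_mul_of_nonneg_left ?_ (by norm_num)
        rw [← Fintype.sum_subtype_add_sum_subtype (fun v : verts G => 2 ≤ deg G (v : α))]
        have hz : ∑ v : {v : verts G // ¬ 2 ≤ deg G (v : α)}, deg G ((v : verts G) : α)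
            * min (a * (deg G ((v : verts G) : α) - 1)) κ = 0 := by
          refine Finset.sum_eq_zero fun v _ => ?_
          have hv := v.2
          rw [deg_eq] at hv ⊢
          have : (G.filter fun x => ((v : verts G) : α) ∈ x ∧ x.card = 2).card < 2 := by
            by_contra hc
            push Not at hc
            exact hv (by exact_mod_cast hc)
          rcases (by omega : (G.filter fun x => ((v : verts G) : α) ∈ x ∧ x.card = 2).card = 0 ∨
            (G.filter fun x => ((v : verts G) : α) ∈ x ∧ x.card = 2).card = 1) with h | h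
          · rw [h]; simp
          · rw [h]; simp [hκ]
        rw [hz, add_zero]
        refine Finset.sum_le_sum fun v _ => ?_
        have hv := v.2
        rw [deg_eq] at hv ⊢
        exact deg_arith _ (by exact_mod_cast hv) μ h1 h2

end Pool.Q63.CL
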