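import Pool.Agent.Q63.CL.AllD2

set_option autoImplicit false

/-!
# Disjoint sets give large eigenvalues of the connection matrix
-/

open Matrix Finset

namespace Pool.Q63.CL

/-- a lower bound for the `k`-th eigenvalue by an injective family of test vectors -/
theorem lam_ge {ι : Type} [Fintype ι] [DecidableEq ι] {A : Matrix ι ι ℝ} (hA : A.IsHermitian)
    (k : ℕ) (hk1 : 1 ≤ k) (hk : k ≤ Fintype.card ι) (m : ℝ) {T : Type} [Fintype T]
    (hT : k ≤ Fintype.card T) (F : (T → ℝ) →ₗ[ℝ] (ι → ℝ))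
    (hpos : ∀ f, f ≠ 0 → 0 < F f ⬝ᵥ F f) (hm : ∀ f, m * (F f ⬝ᵥ F f) ≤ F f ⬝ᵥ (A *ᵥ F f)) :
    m ≤ hA.eigenvalues₀ ⟨k - 1, by omega⟩ := by
  classical
  by_contra hlt
  push Not at hlt
  set μ := hA.eigenvalues₀ ⟨k - 1, by omega⟩ with hμ
  obtain ⟨U, hU1, hU2, hUA⟩ := spectral hA
  set e : Fin (Fintype.card ι) ≃ ι := Fintype.equivOfCardEq (Fintype.card_fin _) with he
  have hev : ∀ j, hA.eigenvalues (e j) = hA.eigenvalues₀ j := by
    intro j; simp [Matrix.IsHermitian.eigenvalues, he]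
  set T' : (T → ℝ) →ₗ[ℝ] (Fin (k - 1) → ℝ) :=
    (LinearMap.pi fun i : Fin (k - 1) =>
      (LinearMap.proj (e ⟨i, by omega⟩) : (ι → ℝ) →ₗ[ℝ] ℝ) ∘ₗ (Matrix.mulVecLin Uᵀ) ∘ₗ F)
    with hT'
  have hker : LinearMap.ker T' ≠ ⊥ := by
    apply LinearMap.ker_ne_bot_of_finrank_lt
    simp
    omega
  obtain ⟨f, hf, hf0⟩ := (Submodule.ne_bot_iff _).1 hker
  have hfT : ∀ i : Fin (k - 1), (Uᵀ *ᵥ (F f)) (e ⟨i, by omega⟩) = 0 := by
    intro i
    exact congrFun (LinearMap.mem_ker.1 hf) i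
  set φ : ι → ℝ := F f with hφ
  have hφ0 : 0 < φ ⬝ᵥ φ := hpos f hf0
  set c : ι → ℝ := Uᵀ *ᵥ φ with hc
  have h1 : φ ⬝ᵥ φ = ∑ i, c i ^ 2 := by
    have : c ⬝ᵥ c = φ ⬝ᵥ φ := by
      rw [hc, Matrix.dotProduct_mulVec, Matrix.vecMul_transpose, Matrix.mulVec_mulVec, hU1,
        Matrix.one_mulVec]
    rw [← this, dotProduct]
    exact Finset.sum_congr rfl fun i _ => (sq _).symm
  have h2 : φ ⬝ᵥ (A *ᵥ φ) = ∑ i, hA.eigenvalues i * c i ^ 2 := by
    have : φ ⬝ᵥ (A *ᵥ φ) = c ⬝ᵥ (diagonal hA.eigenvalues *ᵥ c) := by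
      conv_lhs => rw [hUA]
      rw [← Matrix.mulVec_mulVec, ← Matrix.mulVec_mulVec, Matrix.dotProduct_mulVec φ U,
        ← Matrix.mulVec_transpose]
    rw [this, dotProduct]
    refine Finset.sum_congr rfl fun i _ => ?_
    rw [Matrix.mulVec_diagonal]; ring
  have h3 : ∑ i, hA.eigenvalues i * c i ^ 2 ≤ ∑ i, μ * c i ^ 2 := by
    rw [← Equiv.sum_comp e, ← Equiv.sum_comp e (fun i => μ * c i ^ 2)]
    refine Finset.sum_le_sum fun j _ => ?_
    rw [hev]
    rcases Nat.lt_or_ge (j : ℕ) (k - 1) with h | h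
    · have : c (e j) = 0 := hfT ⟨j, h⟩
      rw [this]; simp
    · have : hA.eigenvalues₀ j ≤ μ := hA.eigenvalues₀_antitone (by rw [Fin.le_def]; exact h)
      exact mul_le_mul_of_nonneg_right this (sq_nonneg _)
  rw [← Finset.mul_sum, ← h1, ← h2] at h3
  have := hm f
  nlinarith

variable {α : Type} [LinearOrder α]

/-- the sets between a chosen vertex and `x` -/
theorem block_card {G : Finset (Finset α)} (hG : IsComplex G) (x : Finset α) (hx : x ∈ G)
    (v : α) (hv : v ∈ x) :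
    (univ.filter fun y : G => v ∈ (y : Finset α) ∧ (y : Finset α) ⊆ x).card
      = 2 ^ (x.card - 1) := by
  rw [← Finset.card_erase_of_mem hv, ← Finset.card_powerset]
  refine Finset.card_bij (fun y _ => (y : Finset α).erase v) ?_ ?_ ?_
  · intro y hy
    have hy' := (Finset.mem_filter.1 hy).2
    exact Finset.mem_powerset.2 (Finset.erase_subset_erase v hy'.2)
  · intro y hy z hz hyz
    have hy' := (Finset.mem_filter.1 hy).2
    have hz' := (Finset.mem_filter.1 hz).2
    apply Subtype.ext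
    rw [← Finset.insert_erase hy'.1, ← Finset.insert_erase hz'.1]
    exact congrArg (insert v) hyz
  · intro z hz
    have hz' := Finset.mem_powerset.1 hz
    have hvz : v ∉ z := fun h => (Finset.mem_erase.1 (hz' h)).1 rfl
    have hsub : insert v z ⊆ x := by
      intro u hu
      rcases Finset.mem_insert.1 hu with h | h
      · rw [h]; exact hv
      · exact (Finset.mem_erase.1 (hz' h)).2
    refine ⟨⟨insert v z, hG.2 x hx _ hsub (Finset.insert_nonempty _ _)⟩, ?_, ?_⟩
    · exact Finset.mem_filter.2 ⟨mem_univ _, Finset.mem_insert_self _ _, hsub⟩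
    · exact Finset.erase_insert hvz

theorem disjoint_large {G : Finset (Finset α)} (hG : IsComplex G) (s : ℕ)
    (S : Finset (Finset α)) (hS : ∀ x ∈ S, x ∈ G ∧ s ≤ x.card)
    (hdis : ∀ x ∈ S, ∀ y ∈ S, x ≠ y → Disjoint x y) (k : ℕ) (hk1 : 1 ≤ k)
    (hk : k ≤ Fintype.card G) (hkS : k ≤ S.card) :
    (2 : ℝ) ^ (s - 1) ≤ (conn_herm G).eigenvalues₀ ⟨k - 1, by omega⟩ := by
  classical
  have hne : ∀ x : S, (x : Finset α).Nonempty := fun x => hG.1 _ (hS x x.2).1
  set v : S → α := fun x => (x : Finset α).min' (hne x) with hv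
  have hvx : ∀ x : S, v x ∈ (x : Finset α) := fun x => Finset.min'_mem _ _
  set B : Matrix S G ℝ := fun x y =>
    if v x ∈ (y : Finset α) ∧ (y : Finset α) ⊆ (x : Finset α) then 1 else 0 with hB
  set N : S → ℝ := fun x => (2 : ℝ) ^ ((x : Finset α).card - 1) with hN
  have hBsum : ∀ x, ∑ y, B x y = N x := by
    intro x
    rw [hB, hN]
    dsimp only
    rw [Finset.sum_boole, block_card hG (x : Finset α) (hS x x.2).1 (v x) (hvx x)]
    push_cast; rfl
  have hBB1 : ∀ x y, B x y * B x y = B x y := by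
    intro x y; rw [hB]; dsimp only; split_ifs <;> norm_num
  have hBne : ∀ x y, B x y ≠ 0 → v x ∈ (y : Finset α) ∧ (y : Finset α) ⊆ (x : Finset α) := by
    intro x y h
    by_contra hc
    exact h (if_neg hc)
  have hBB : B * Bᵀ = diagonal N := by
    ext x x'
    rw [Matrix.mul_apply, Matrix.diagonal_apply]
    by_cases h : x = x'
    · subst h
      rw [if_pos rfl, ← hBsum]
      exact Finset.sum_congr rfl fun y _ => by rw [Matrix.transpose_apply, hBB1]
    · rw [if_neg h]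
      refine Finset.sum_eq_zero fun y _ => ?_
      rw [Matrix.transpose_apply]
      by_contra hc
      have h1 := hBne x y (left_ne_zero_of_mul hc)
      have h2 := hBne x' y (right_ne_zero_of_mul hc)
      have h3 := hdis x x.2 x' x'.2 (fun h' => h (Subtype.ext h'))
      exact Finset.disjoint_left.1 h3 (h1.2 h1.1) (h2.2 h1.1)
  have hBL : B * conn G * Bᵀ = diagonal (fun x => N x * N x) := by
    ext x x'
    rw [Matrix.mul_apply, Matrix.diagonal_apply]
    by_cases h : x = x'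
    · subst h
      rw [if_pos rfl]
      have e : ∀ y, (B * conn G) x y * Bᵀ y x = N x * B x y := by
        intro y
        rw [Matrix.transpose_apply]
        by_cases hy : B x y = 0
        · rw [hy]; ring
        · congr 1
          rw [Matrix.mul_apply, ← hBsum]
          refine Finset.sum_congr rfl fun z _ => ?_
          by_cases hz : B x z = 0
          · rw [hz, zero_mul]
          · unfold conn
            rw [if_pos, mul_one]
            exact ⟨v x, Finset.mem_inter.2 ⟨(hBne x z hz).1, (hBne x y hy).1⟩⟩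
      rw [Finset.sum_congr rfl fun y _ => e y, ← Finset.mul_sum, hBsum]
    · rw [if_neg h]
      refine Finset.sum_eq_zero fun y _ => ?_
      rw [Matrix.transpose_apply]
      by_cases hy : B x' y = 0
      · rw [hy, mul_zero]
      · rw [Matrix.mul_apply]
        have : ∑ z, B x z * conn G z y = 0 := by
          refine Finset.sum_eq_zero fun z _ => ?_
          by_cases hz : B x z = 0
          · rw [hz, zero_mul]
          · unfold conn
            rw [if_neg, mul_zero]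
            rintro ⟨u, hu⟩
            have hu' := Finset.mem_inter.1 hu
            have h3 := hdis x x.2 x' x'.2 (fun h' => h (Subtype.ext h'))
            exact Finset.disjoint_left.1 h3 ((hBne x z hz).2 hu'.1) ((hBne x' y hy).2 hu'.2)
        rw [this, zero_mul]
  have hNs : ∀ x, (2 : ℝ) ^ (s - 1) ≤ N x := fun x =>
    pow_le_pow_right₀ (by norm_num) (by have := (hS x x.2).2; omega)
  have hN0 : ∀ x, 0 < N x := fun x => by rw [hN]; positivity
  have dot1 : ∀ f : S → ℝ, (Bᵀ *ᵥ f) ⬝ᵥ (Bᵀ *ᵥ f) = ∑ x, N x * f x ^ 2 := by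
    intro f
    have : (Bᵀ *ᵥ f) ⬝ᵥ (Bᵀ *ᵥ f) = f ⬝ᵥ (diagonal N *ᵥ f) := by
      rw [← hBB, ← Matrix.mulVec_mulVec, Matrix.dotProduct_mulVec f B, Matrix.mulVec_transpose]
    rw [this, dotProduct]
    refine Finset.sum_congr rfl fun x _ => ?_
    rw [Matrix.mulVec_diagonal]; ring
  have dot2 : ∀ f : S → ℝ, (Bᵀ *ᵥ f) ⬝ᵥ (conn G *ᵥ (Bᵀ *ᵥ f)) = ∑ x, N x * N x * f x ^ 2 := by
    intro f
    have : (Bᵀ *ᵥ f) ⬝ᵥ (conn G *ᵥ (Bᵀ *ᵥ f))
        = f ⬝ᵥ (diagonal (fun x => N x * N x) *ᵥ f) := by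
      rw [← hBL, ← Matrix.mulVec_mulVec, ← Matrix.mulVec_mulVec, Matrix.dotProduct_mulVec f B,
        Matrix.mulVec_transpose]
    rw [this, dotProduct]
    refine Finset.sum_congr rfl fun x _ => ?_
    rw [Matrix.mulVec_diagonal]; ring
  refine lam_ge (conn_herm G) k hk1 hk _ (T := S) (by rw [Fintype.card_coe]; exact hkS)
    (Matrix.mulVecLin Bᵀ) (fun f hf => ?_) (fun f => ?_)
  · rw [Matrix.mulVecLin_apply, dot1]
    obtain ⟨x, hx⟩ : ∃ x, f x ≠ 0 := by
      by_contra hc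
      push Not at hc
      exact hf (funext hc)
    refine lt_of_lt_of_le ?_ (Finset.single_le_sum (f := fun x => N x * f x ^ 2)
      (fun x _ => mul_nonneg (hN0 x).le (sq_nonneg _)) (mem_univ x))
    exact mul_pos (hN0 x) (by positivity)
  · rw [Matrix.mulVecLin_apply, dot1, dot2, Finset.mul_sum]
    refine Finset.sum_le_sum fun x _ => ?_
    have h1 := mul_le_mul_of_nonneg_right (hNs x) (mul_nonneg (hN0 x).le (sq_nonneg (f x)))
    calc (2 : ℝ) ^ (s - 1) * (N x * f x ^ 2) ≤ N x * (N x * f x ^ 2) := h1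
      _ = N x * N x * f x ^ 2 := by ring

theorem disjoint_case {G : Finset (Finset α)} (hG : IsComplex G) (o : Finset α → ℝ)
    (ho : ∀ x, o x = 1 ∨ o x = -1) (d : ℕ) (hd : ∀ x ∈ G, x.card ≤ d + 1) (s : ℕ)
    (hds : d ≤ 2 ^ (s - 1)) (S : Finset (Finset α)) (hS : ∀ x ∈ S, x ∈ G ∧ s ≤ x.card)
    (hdis : ∀ x ∈ S, ∀ y ∈ S, x ≠ y → Disjoint x y) (k : ℕ) (hkS : k ≤ S.card) :
    specSum (dirac_herm G o) k ≤ specSum (conn_herm G) k := by
  have hSG : S ⊆ G := fun x hx => (hS x hx).1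
  have hk : k ≤ G.card := hkS.trans (Finset.card_le_card hSG)
  have hk' : k ≤ Fintype.card G := by rw [Fintype.card_coe]; exact hk
  refine large hG o ho d hd k hk fun i hi => ?_
  have h1 := disjoint_large hG s S hS hdis k (by omega) hk' hkS
  have h2 : (conn_herm G).eigenvalues₀ ⟨k - 1, by omega⟩ ≤ (conn_herm G).eigenvalues₀ i :=
    (conn_herm G).eigenvalues₀_antitone (by rw [Fin.le_def]; show (i : ℕ) ≤ k - 1; omega)
  have h3 : (d : ℝ) ≤ (2 : ℝ) ^ (s - 1) := by exact_mod_cast hds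
  linarith

end Pool.Q63.CL
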