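import Pool.Agent.Q63.CL.Tests

set_option autoImplicit false

/-!
# The `k`-th eigenvalue of the connection matrix is at least `1` for `k` up to the number of
vertices
-/

open Matrix Finset

namespace Pool.Q63.CL

variable {α : Type} [LinearOrder α]

theorem lam_ge_one {G : Finset (Finset α)} (hG : IsComplex G) (k : ℕ) (hk1 : 1 ≤ k)
    (hk : k ≤ Fintype.card G) (hkV : k ≤ (verts G).card) :
    1 ≤ (conn_herm G).eigenvalues₀ ⟨k - 1, by omega⟩ := by
  classical
  by_contra hlt
  push Not at hlt
  set hA := conn_herm G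
  set μ := hA.eigenvalues₀ ⟨k - 1, by omega⟩ with hμ
  obtain ⟨U, hU1, hU2, hUA⟩ := spectral hA
  set e : Fin (Fintype.card G) ≃ G := Fintype.equivOfCardEq (Fintype.card_fin _) with he
  have hev : ∀ j, hA.eigenvalues (e j) = hA.eigenvalues₀ j := by
    intro j; simp [Matrix.IsHermitian.eigenvalues, he]
  -- the linear map from functions on the vertices to the coefficients of index `< k - 1`
  set ext0 : (verts G → ℝ) →ₗ[ℝ] (G → ℝ) :=
    { toFun := fun f x => ∑ v : verts G, if (x : Finset α) = {(v : α)} then f v else 0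
      map_add' := by
        intro f g; ext x
        simp only [Pi.add_apply, ← Finset.sum_add_distrib]
        refine Finset.sum_congr rfl fun v _ => ?_
        split_ifs <;> ring
      map_smul' := by
        intro c f; ext x
        simp only [Pi.smul_apply, smul_eq_mul, RingHom.id_apply, Finset.mul_sum]
        refine Finset.sum_congr rfl fun v _ => ?_
        split_ifs <;> ring } with hext
  set T : (verts G → ℝ) →ₗ[ℝ] (Fin (k - 1) → ℝ) :=
    (LinearMap.pi fun i : Fin (k - 1) =>
      (LinearMap.proj (e ⟨i, by omega⟩) : (G → ℝ) →ₗ[ℝ] ℝ) ∘ₗ (Matrix.mulVecLin Uᵀ) ∘ₗ ext0)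
    with hT
  have hker : LinearMap.ker T ≠ ⊥ := by
    apply LinearMap.ker_ne_bot_of_finrank_lt
    simp
    omega
  obtain ⟨f, hf, hf0⟩ := (Submodule.ne_bot_iff _).1 hker
  have hfT : ∀ i : Fin (k - 1), (Uᵀ *ᵥ (ext0 f)) (e ⟨i, by omega⟩) = 0 := by
    intro i
    exact congrFun (LinearMap.mem_ker.1 hf) i
  set φ : G → ℝ := ext0 f with hφ
  have hφs : ∀ v : verts G, φ ⟨{(v : α)}, single_mem hG v⟩ = f v := by
    intro v
    show (∑ w : verts G, if ({(v : α)} : Finset α) = {(w : α)} then f w else 0) = f v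
    rw [Finset.sum_eq_single v]
    · simp
    · intro w _ hw
      rw [if_neg]
      intro h
      exact hw (Subtype.ext (Finset.singleton_injective h)).symm
    · intro h; exact absurd (mem_univ _) h
  have hφc : ∀ x : G, (x : Finset α).card ≠ 1 → φ x = 0 := by
    intro x hx
    refine Finset.sum_eq_zero fun v _ => ?_
    rw [if_neg]
    intro h
    exact hx (by rw [h]; exact Finset.card_singleton _)
  have hφ0 : 0 < φ ⬝ᵥ φ := by
    obtain ⟨v, hv⟩ : ∃ v, f v ≠ 0 := by
      by_contra hc
      push Not at hc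
      exact hf0 (funext hc)
    rw [dotProduct]
    have h1 := Finset.single_le_sum (f := fun x => φ x * φ x) (fun x _ => mul_self_nonneg (φ x))
      (mem_univ (⟨{(v : α)}, single_mem hG v⟩ : G))
    rw [hφs] at h1
    exact lt_of_lt_of_le (mul_self_pos.2 hv) h1
  -- L φ on the vertices
  have hLφ : φ ⬝ᵥ (conn G *ᵥ φ) = φ ⬝ᵥ φ := by
    rw [dotProduct, dotProduct]
    refine Finset.sum_congr rfl fun x _ => ?_
    by_cases hx : (x : Finset α).card = 1
    · congr 1
      rw [Matrix.mulVec, dotProduct, Finset.sum_eq_single x]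
      · unfold conn
        rw [if_pos, one_mul]
        rw [Finset.inter_self]; exact hG.1 _ x.2
      · intro y _ hy
        by_cases hyc : (y : Finset α).card = 1
        · obtain ⟨a, ha⟩ := Finset.card_eq_one.1 hx
          obtain ⟨b, hb⟩ := Finset.card_eq_one.1 hyc
          unfold conn
          rw [if_neg, zero_mul]
          rw [ha, hb, Finset.not_nonempty_iff_eq_empty, Finset.singleton_inter_of_notMem]
          rw [Finset.mem_singleton]
          intro h
          apply hy
          apply Subtype.ext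
          rw [ha, hb, h]
        · rw [hφc y hyc, mul_zero]
      · intro h; exact absurd (mem_univ _) h
    · rw [hφc x hx]; ring
  set c : G → ℝ := Uᵀ *ᵥ φ with hc
  have h1 : φ ⬝ᵥ φ = ∑ i, c i ^ 2 := by
    have : c ⬝ᵥ c = φ ⬝ᵥ φ := by
      rw [hc, Matrix.dotProduct_mulVec, Matrix.vecMul_transpose, Matrix.mulVec_mulVec, hU1,
        Matrix.one_mulVec]
    rw [← this, dotProduct]
    exact Finset.sum_congr rfl fun i _ => (sq _).symm
  have h2 : φ ⬝ᵥ (conn G *ᵥ φ) = ∑ i, hA.eigenvalues i * c i ^ 2 := by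
    have : φ ⬝ᵥ (conn G *ᵥ φ) = c ⬝ᵥ (diagonal hA.eigenvalues *ᵥ c) := by
      conv_lhs => rw [hUA]
      rw [← Matrix.mulVec_mulVec, ← Matrix.mulVec_mulVec, Matrix.dotProduct_mulVec φ U,
        ← Matrix.mulVec_transpose]
    rw [this, dotProduct]
    refine Finset.sum_congr rfl fun i _ => ?_
    rw [Matrix.mulVec_diagonal]; ring
  have h3 : ∑ i, hA.eigenvalues i * c i ^ 2 ≤ ∑ i, μ * c i ^ 2 := by
    rw [← Equiv.sum_comp e, ← Equiv.sum_comp e (fun i => μ * c i ^ 2)]
    refine Finset.sum_le_sum fun j _ => ?_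
    rw [hev]
    rcases Nat.lt_or_ge (j : ℕ) (k - 1) with h | h
    · have : c (e j) = 0 := hfT ⟨j, h⟩
      rw [this]; simp
    · have : hA.eigenvalues₀ j ≤ μ := hA.eigenvalues₀_antitone (by rw [Fin.le_def]; exact h)
      exact mul_le_mul_of_nonneg_right this (sq_nonneg _)
  rw [← Finset.mul_sum, ← h1, ← h2, hLφ] at h3
  nlinarith

end Pool.Q63.CL
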