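import Pool.Agent.Q63.CL.Sys

set_option autoImplicit false

/-!
# Boosted singular systems and multipliers of the form `K Kᵀ`
-/

open Matrix Finset

namespace Pool.Q63.CL

section abstract

variable {ι J K : Type} [Fintype ι] [DecidableEq ι] [Fintype J] [DecidableEq J] [Fintype K]
  [DecidableEq K]

theorem boost (c : ℝ) (hc : 0 < c) (P A : Matrix ι ι ℝ) (W X : Matrix J ι ℝ) (h : J → ℝ)
    (hpos : ∀ j, 0 < h j) (hWW : W * Wᵀ = 1) (hXX : X * Xᵀ = 1) (hWX : W * Xᵀ = 0)
    (hWP : W * P = W) (hXP : X * P = 0) (hWA : W * A = 0)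
    (hXA : X * A = diagonal (fun j => √(h j)) * W) :
    ∃ Z : Matrix J ι ℝ, Z * Zᵀ = 1 ∧
      Z * (P + (1 / √c) • A) = diagonal (fun j => √(1 + h j / c)) * W ∧
      ∃ S T : Matrix J J ℝ, Z = S * W + T * X := by
  have hXW : X * Wᵀ = 0 := by
    have := congrArg Matrix.transpose hWX
    rwa [Matrix.transpose_mul, Matrix.transpose_transpose, Matrix.transpose_zero] at this
  have hp : ∀ j, 0 < 1 + h j / c := fun j => by have := div_pos (hpos j) hc; linarith
  have hsp : ∀ j, 0 < √(1 + h j / c) := fun j => Real.sqrt_pos.2 (hp j)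
  set s : J → ℝ := fun j => (√(1 + h j / c))⁻¹ with hs
  set t : J → ℝ := fun j => √(h j / c) * (√(1 + h j / c))⁻¹ with ht
  refine ⟨diagonal s * W + diagonal t * X, ?_, ?_, diagonal s, diagonal t, rfl⟩
  · rw [Matrix.transpose_add, Matrix.transpose_mul, Matrix.transpose_mul,
      Matrix.diagonal_transpose, Matrix.diagonal_transpose, Matrix.add_mul, Matrix.mul_add,
      Matrix.mul_add]
    have e1 : diagonal s * W * (Wᵀ * diagonal s) = diagonal s * diagonal s := by
      calc diagonal s * W * (Wᵀ * diagonal s) = diagonal s * (W * Wᵀ) * diagonal s := by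
            simp only [Matrix.mul_assoc]
        _ = _ := by rw [hWW, Matrix.mul_one]
    have e2 : diagonal t * X * (Xᵀ * diagonal t) = diagonal t * diagonal t := by
      calc diagonal t * X * (Xᵀ * diagonal t) = diagonal t * (X * Xᵀ) * diagonal t := by
            simp only [Matrix.mul_assoc]
        _ = _ := by rw [hXX, Matrix.mul_one]
    have e3 : diagonal s * W * (Xᵀ * diagonal t) = 0 := by
      calc diagonal s * W * (Xᵀ * diagonal t) = diagonal s * (W * Xᵀ) * diagonal t := by
            simp only [Matrix.mul_assoc]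
        _ = _ := by rw [hWX, Matrix.mul_zero, Matrix.zero_mul]
    have e4 : diagonal t * X * (Wᵀ * diagonal s) = 0 := by
      calc diagonal t * X * (Wᵀ * diagonal s) = diagonal t * (X * Wᵀ) * diagonal s := by
            simp only [Matrix.mul_assoc]
        _ = _ := by rw [hXW, Matrix.mul_zero, Matrix.zero_mul]
    rw [e1, e2, e3, e4, Matrix.diagonal_mul_diagonal, Matrix.diagonal_mul_diagonal, add_zero,
      zero_add, Matrix.diagonal_add, ← Matrix.diagonal_one]
    congr 1
    ext j
    have h1 := Real.mul_self_sqrt (hp j).le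
    have h2 : √(h j / c) * √(h j / c) = h j / c := Real.mul_self_sqrt (div_pos (hpos j) hc).le
    have h3 := (hsp j).ne'
    have h4 : s j * s j + t j * t j = (1 + h j / c) * (s j * s j) := by
      rw [hs, ht]; dsimp only
      linear_combination ((√(1 + h j / c))⁻¹ * (√(1 + h j / c))⁻¹) * h2
    rw [h4, hs]; dsimp only
    rw [← mul_inv, h1, mul_inv_cancel₀ (hp j).ne']
  · rw [Matrix.mul_add, Matrix.add_mul, Matrix.add_mul, Matrix.mul_smul, Matrix.mul_smul]
    have e1 : diagonal s * W * P = diagonal s * W := by rw [Matrix.mul_assoc, hWP]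
    have e2 : diagonal t * X * P = 0 := by rw [Matrix.mul_assoc, hXP, Matrix.mul_zero]
    have e3 : diagonal s * W * A = 0 := by rw [Matrix.mul_assoc, hWA, Matrix.mul_zero]
    have e4 : diagonal t * X * A = diagonal (fun j => t j * √(h j)) * W := by
      rw [Matrix.mul_assoc, hXA, ← Matrix.mul_assoc, Matrix.diagonal_mul_diagonal]
    rw [e1, e2, e3, e4, smul_zero, zero_add, add_zero, ← Matrix.smul_mul, ← Matrix.add_mul]
    congr 1
    rw [← Matrix.diagonal_smul, Matrix.diagonal_add]
    congr 1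
    ext j
    have h1 := Real.mul_self_sqrt (hp j).le
    have h3 := (hsp j).ne'
    have hc' : √c ≠ 0 := (Real.sqrt_pos.2 hc).ne'
    have h5 : √(h j / c) = √(h j) / √c := Real.sqrt_div (hpos j).le c
    have h6 := Real.mul_self_sqrt (hpos j).le
    have h7 := Real.mul_self_sqrt hc.le
    have h8 : s j + (1 / √c) * (t j * √(h j)) = (1 + h j / c) * s j := by
      rw [hs, ht]; dsimp only
      rw [h5]
      have : 1 / √c * (√(h j) / √c * (√(1 + h j / c))⁻¹ * √(h j))
          = (√(h j) * √(h j)) / (√c * √c) * (√(1 + h j / c))⁻¹ := by field_simp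
      rw [this, h6, h7]; ring
    show s j + (1 / √c) * (t j * √(h j)) = √(1 + h j / c)
    rw [h8, hs]; dsimp only
    nth_rewrite 1 [← h1]
    field_simp

theorem rows_one (A : Matrix J ι ℝ) (B : Matrix K ι ℝ) (hA : A * Aᵀ = 1) (hB : B * Bᵀ = 1)
    (hAB : A * Bᵀ = 0) : fromRows A B * (fromRows A B)ᵀ = 1 := by
  have hBA : B * Aᵀ = 0 := by
    have := congrArg Matrix.transpose hAB
    rwa [Matrix.transpose_mul, Matrix.transpose_transpose, Matrix.transpose_zero] at this
  rw [Matrix.transpose_fromRows, Matrix.fromRows_mul_fromCols, hA, hB, hAB, hBA,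
    Matrix.fromBlocks_one]

theorem rows_zero (A C : Matrix J ι ℝ) (B D : Matrix K ι ℝ) (h1 : A * Cᵀ = 0) (h2 : B * Dᵀ = 0)
    (h3 : A * Dᵀ = 0) (h4 : B * Cᵀ = 0) : fromRows A B * (fromRows C D)ᵀ = 0 := by
  rw [Matrix.transpose_fromRows, Matrix.fromRows_mul_fromCols, h1, h2, h3, h4,
    Matrix.fromBlocks_zero]

theorem rows_diag (f : J → ℝ) (g : K → ℝ) (A : Matrix J ι ℝ) (B : Matrix K ι ℝ) :
    fromRows (diagonal f * A) (diagonal g * B) = diagonal (Sum.elim f g) * fromRows A B := by
  ext i j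
  rw [Matrix.diagonal_mul]
  rcases i with i | i <;> simp [Matrix.fromRows, Matrix.diagonal_mul]

theorem rows_sum (f : J → ℝ) (g : K → ℝ) (A C : Matrix J ι ℝ) (B D : Matrix K ι ℝ) :
    (fromRows A B)ᵀ * diagonal (Sum.elim f g) * fromRows C D
      = Aᵀ * diagonal f * C + Bᵀ * diagonal g * D := by
  ext i j
  rw [Matrix.add_apply, Matrix.mul_apply, Matrix.mul_apply, Matrix.mul_apply,
    Fintype.sum_sum_type]
  congr 1 <;>
  · refine Finset.sum_congr rfl fun l _ => ?_
    rw [Matrix.mul_diagonal, Matrix.mul_diagonal]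
    rfl

end abstract

section multipliers

variable {α : Type} [LinearOrder α] {J : Type} [Fintype J] [DecidableEq J]

theorem mult {G : Finset (Finset α)} (hG : IsComplex G) (K : Matrix G G ℝ)
    (hs : ∀ x z : G, K x z ≠ 0 → (z : Finset α) ⊆ x) (hn : ∀ x, ∑ z, K x z ^ 2 = 1) :
    (K * Kᵀ).PosSemidef ∧ (K * Kᵀ)ᵀ = K * Kᵀ ∧ (∀ x, (K * Kᵀ) x x = 1) ∧
      ∀ x y, (K * Kᵀ) x y * conn G x y = (K * Kᵀ) x y := by
  refine ⟨?_, ?_, ?_, ?_⟩
  · have := posSemidef_self_mul_conjTranspose K
    rwa [conjTranspose_eq_transpose_of_trivial] at this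
  · rw [Matrix.transpose_mul, Matrix.transpose_transpose]
  · intro x
    rw [Matrix.mul_apply, ← hn x]
    exact Finset.sum_congr rfl fun z _ => by rw [Matrix.transpose_apply]; ring
  · intro x y
    unfold conn
    split_ifs with h
    · rw [mul_one]
    · rw [mul_zero, Matrix.mul_apply]
      refine (Finset.sum_eq_zero fun z _ => ?_).symm
      rw [Matrix.transpose_apply]
      by_cases h1 : K x z = 0
      · rw [h1, zero_mul]
      · by_cases h2 : K y z = 0
        · rw [h2, mul_zero]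
        · exact absurd ((hG.1 _ z.2).mono (Finset.subset_inter (hs x z h1) (hs y z h2))) h

theorem test_of {G : Finset (Finset α)} (hG : IsComplex G) (K : Matrix G G ℝ)
    (hs : ∀ x z : G, K x z ≠ 0 → (z : Finset α) ⊆ x) (hn : ∀ x, ∑ z, K x z ^ 2 = 1)
    (Z W : Matrix J G ℝ) (hZ : Z * Zᵀ = 1) (hW : W * Wᵀ = 1) (g : J → ℝ) (hg : ∀ j, 0 ≤ g j)
    (hZK : Z * K = diagonal (fun j => √(g j)) * W) (l : ℝ) :
    ∃ Q t, IsTest Q t ∧ ∑ j, max (g j - l) 0 ≤ (Q * conn G).trace - l * t ∧
      ∀ x y, (∀ j, Z j x = 0) → Q x y = 0 := by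
  obtain ⟨h1, h2, h3, h4⟩ := mult hG K hs hn
  have hL : (conn G)ᵀ = conn G := by
    have := conn_herm G
    rwa [Matrix.IsHermitian, conjTranspose_eq_transpose_of_trivial] at this
  refine lower Z hZ hL h2 h1 h3 h4 g (fun j => ?_) l
  have e : Z * (K * Kᵀ) * Zᵀ = diagonal g := by
    calc Z * (K * Kᵀ) * Zᵀ = (Z * K) * (Z * K)ᵀ := by
          rw [Matrix.transpose_mul]; simp only [Matrix.mul_assoc]
      _ = diagonal (fun j => √(g j)) * (W * Wᵀ) * diagonal (fun j => √(g j)) := by
          rw [hZK, Matrix.transpose_mul, Matrix.diagonal_transpose]; simp only [Matrix.mul_assoc]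
      _ = diagonal g := by
          rw [hW, Matrix.mul_one, Matrix.diagonal_mul_diagonal]
          congr 1; ext j; exact Real.mul_self_sqrt (hg j)
  rw [e, Matrix.diagonal_apply_eq]

end multipliers

end Pool.Q63.CL
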