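import Pool.Agent.Q63.CL.Tests2
import Pool.Agent.Q63.CL.Arith

set_option autoImplicit false

/-!
# The comparison for `k` at least the number of vertices
-/

open Matrix Finset

namespace Pool.Q63.CL

variable {α : Type} [LinearOrder α]

/-- the number of pairs `y ⊂ x` in the complex with `|x| = |y| + 1` -/
noncomputable def facetPairs (G : Finset (Finset α)) : ℝ :=
  ∑ x : G, ∑ y : G, if (y : Finset α) ⊆ x ∧ (x : Finset α).card = (y : Finset α).card + 1
    then (1 : ℝ) else 0

theorem dirac_sq (G : Finset (Finset α)) (o : Finset α → ℝ) (ho : ∀ x, o x = 1 ∨ o x = -1) :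
    (∑ x, ∑ y, dirac G o x y ^ 2) / 2 = facetPairs G := by
  have h1 : ∀ x y : G, dirac G o x y ^ 2 = inc o x y ^ 2 + inc o y x ^ 2 := by
    intro x y
    have h0 : inc o (x : Finset α) y * inc o (y : Finset α) x = 0 := by
      by_cases h : (y : Finset α) ⊆ x ∧ (x : Finset α).card = (y : Finset α).card + 1
      · have : inc o (y : Finset α) x = 0 := by
          unfold inc
          rw [if_neg]
          rintro ⟨-, h'⟩
          omega
        rw [this, mul_zero]
      · have : inc o (x : Finset α) y = 0 := by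
          unfold inc
          rw [if_neg h]
        rw [this, zero_mul]
    have : dirac G o x y = inc o x y + inc o y x := rfl
    rw [this]
    linear_combination 2 * h0
  have h2 : ∑ x : G, ∑ y : G, dirac G o x y ^ 2
      = ∑ x : G, ∑ y : G, inc o x y ^ 2 + ∑ x : G, ∑ y : G, inc o (y : Finset α) x ^ 2 := by
    rw [← Finset.sum_add_distrib]
    refine Finset.sum_congr rfl fun x _ => ?_
    rw [← Finset.sum_add_distrib]
    exact Finset.sum_congr rfl fun y _ => h1 x y
  have h3 : ∑ x : G, ∑ y : G, inc o (y : Finset α) x ^ 2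
      = ∑ x : G, ∑ y : G, inc o (x : Finset α) y ^ 2 := Finset.sum_comm
  have h4 : ∑ x : G, ∑ y : G, inc o (x : Finset α) y ^ 2 = facetPairs G := by
    unfold facetPairs
    exact Finset.sum_congr rfl fun x _ => Finset.sum_congr rfl fun y _ => inc_sq o ho _ _
  rw [h2, h3, h4]; ring

/-- the parity sign -/
noncomputable def par (G : Finset (Finset α)) (x : G) : ℝ := (-1) ^ (x : Finset α).card

theorem par_pm (G : Finset (Finset α)) (x : G) : par G x = 1 ∨ par G x = -1 := by
  unfold par
  rcases Nat.even_or_odd (x : Finset α).card with h | h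
  · left; exact h.neg_one_pow
  · right; exact h.neg_one_pow

theorem par_bip (G : Finset (Finset α)) (o : Finset α → ℝ) (x y : G) (h : par G x = par G y) :
    dirac G o x y = 0 := by
  have key : ∀ x y : G, par G x = par G y → inc o (x : Finset α) y = 0 := by
    intro x y h
    unfold inc
    rw [if_neg]
    rintro ⟨-, h'⟩
    unfold par at h
    rw [h', pow_succ] at h
    have : ((-1 : ℝ)) ^ (y : Finset α).card ≠ 0 := pow_ne_zero _ (by norm_num)
    apply this
    linarith
  have : dirac G o x y = inc o x y + inc o y x := rfl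
  rw [this, key x y h, key y x h.symm, add_zero]

/-- `n ≤ S_k(L)` as soon as `k` is at least the number of vertices -/
theorem conn_ge_card {G : Finset (Finset α)} (hG : IsComplex G) (k : ℕ)
    (hk : k ≤ G.card) (hV : (verts G).card ≤ k) : (G.card : ℝ) ≤ specSum (conn_herm G) k := by
  obtain ⟨Q, hQ, hQL⟩ := star_test hG
  have h1 : IsTest (1 : Matrix G G ℝ) G.card := by
    have := test_one (ι := G)
    rwa [Fintype.card_coe] at this
  have h1L : (G.card : ℝ) ≤ ((1 : Matrix G G ℝ) * conn G).trace := by
    rw [Matrix.one_mul, Matrix.trace]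
    have : ∀ x, (conn G).diag x = 1 := by
      intro x
      rw [Matrix.diag_apply]
      unfold conn
      rw [if_pos]; rw [Finset.inter_self]; exact hG.1 _ x.2
    rw [Finset.sum_congr rfl fun x _ => this x]
    simp
  have hVk : ((verts G).card : ℝ) ≤ k := by exact_mod_cast hV
  have hkn : (k : ℝ) ≤ G.card := by exact_mod_cast hk
  rcases eq_or_lt_of_le (hVk.trans hkn) with h | h
  · have e : (k : ℝ) = (verts G).card := le_antisymm (hkn.trans h.ge) hVk
    have := hQ.le (conn_herm G) k (by rw [Fintype.card_coe]; exact hk) e.symm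
    linarith
  · have hpos : 0 < (G.card : ℝ) - (verts G).card := by linarith
    have := interp (conn_herm G) hQ h1 hQL h1L k (by rw [Fintype.card_coe]; exact hk)
      (((G.card : ℝ) - k) / (G.card - (verts G).card)) (div_nonneg (by linarith) hpos.le)
      (by rw [div_le_one hpos]; linarith) (by field_simp; ring)
    linarith

/-- the four bounds for the Dirac matrix -/
theorem dirac_bounds {G : Finset (Finset α)} (o : Finset α → ℝ)
    (ho : ∀ x, o x = 1 ∨ o x = -1) (k : ℕ) (hk : k ≤ G.card) :
    specSum (dirac_herm G o) k ^ 2 ≤ k * facetPairs G ∧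
    specSum (dirac_herm G o) k ^ 2 ≤ ((G.card : ℝ) - k) * facetPairs G ∧
    specSum (dirac_herm G o) k ^ 2 ≤ (∑ x, if par G x = 1 then (1 : ℝ) else 0) * facetPairs G ∧
    specSum (dirac_herm G o) k ^ 2 ≤ (∑ x, if par G x = -1 then (1 : ℝ) else 0) * facetPairs G := by
  have hk' : k ≤ Fintype.card G := by rw [Fintype.card_coe]; exact hk
  have h1 := bip_bound (dirac_herm G o) (par G) (par_pm G) (par_bip G o) k hk'
  have h2 := class_bound (dirac_herm G o) (par G) (par_pm G) (par_bip G o) 1 (Or.inl rfl) k hk'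
  have h3 := class_bound (dirac_herm G o) (par G) (par_pm G) (par_bip G o) (-1) (Or.inr rfl) k hk'
  rw [dirac_sq G o ho] at h1 h2 h3
  rw [Fintype.card_coe] at h1
  exact ⟨h1.1, h1.2, h2, h3⟩

/-- **Any dimension.** -/
theorem any_dim {G : Finset (Finset α)} (hG : IsComplex G) (o : Finset α → ℝ)
    (ho : ∀ x, o x = 1 ∨ o x = -1) (k : ℕ) (hk : k ≤ G.card) (hV : (verts G).card ≤ k)
    (hF : min (k : ℝ) (G.card - k) * facetPairs G ≤ (G.card : ℝ) ^ 2) :
    specSum (dirac_herm G o) k ≤ specSum (conn_herm G) k := by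
  have h1 := conn_ge_card hG k hk hV
  obtain ⟨h2, h3, -, -⟩ := dirac_bounds (G := G) o ho k hk
  have h4 : specSum (dirac_herm G o) k ^ 2 ≤ (G.card : ℝ) ^ 2 := by
    rcases le_total (k : ℝ) (G.card - k) with h | h
    · rw [min_eq_left h] at hF; linarith
    · rw [min_eq_right h] at hF; linarith
  have h5 : specSum (dirac_herm G o) k ≤ G.card := by
    have := abs_le_of_sq_le_sq h4 (Nat.cast_nonneg _)
    exact (le_abs_self _).trans this
  linarith

theorem facetPairs_eq {G : Finset (Finset α)} (hG : IsComplex G) (h3 : ∀ x ∈ G, x.card ≤ 3) :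
    facetPairs G = 2 * cnt G 2 + 3 * cnt G 3 := by
  unfold facetPairs cnt
  rw [Finset.mul_sum, Finset.mul_sum, ← Finset.sum_add_distrib]
  refine Finset.sum_congr rfl fun x _ => ?_
  have hx1 : 1 ≤ (x : Finset α).card := Finset.card_pos.2 (hG.1 _ x.2)
  have hx3 := h3 _ x.2
  rcases Nat.lt_or_ge (x : Finset α).card 2 with h | h
  · have hx : (x : Finset α).card = 1 := by omega
    have : ∑ z : G, (if (z : Finset α) ⊆ x ∧
      (x : Finset α).card = (z : Finset α).card + 1 then (1 : ℝ) else 0) = 0 := by
      refine Finset.sum_eq_zero fun z _ => ?_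
      rw [if_neg]
      rintro ⟨-, h'⟩
      have : 1 ≤ (z : Finset α).card := Finset.card_pos.2 (hG.1 _ z.2)
      omega
    rw [this, hx]; norm_num
  · rw [card_facets hG x h]
    rcases (by omega : (x : Finset α).card = 2 ∨ (x : Finset α).card = 3) with h' | h'
    · rw [h']; norm_num
    · rw [h']; norm_num

/-- **Dimension two**, `k` at least the number of vertices. -/
theorem dim_two {G : Finset (Finset α)} (hG : IsComplex G) (o : Finset α → ℝ)
    (ho : ∀ x, o x = 1 ∨ o x = -1) (h3 : ∀ x ∈ G, x.card ≤ 3) (k : ℕ) (hk : k ≤ G.card)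
    (hV : (verts G).card ≤ k) :
    specSum (dirac_herm G o) k ≤ specSum (conn_herm G) k := by
  have hx1 : ∀ x : G, 1 ≤ (x : Finset α).card := fun x => Finset.card_pos.2 (hG.1 _ x.2)
  have hn : (G.card : ℝ) = cnt G 1 + cnt G 2 + cnt G 3 := by
    unfold cnt
    rw [← Finset.sum_add_distrib, ← Finset.sum_add_distrib]
    have : ∀ x : G, ((if (x : Finset α).card = 1 then (1 : ℝ) else 0)
        + (if (x : Finset α).card = 2 then (1 : ℝ) else 0)
        + (if (x : Finset α).card = 3 then (1 : ℝ) else 0)) = 1 := by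
      intro x
      have h1 := hx1 x
      have h2 := h3 _ x.2
      rcases (by omega : (x : Finset α).card = 1 ∨ (x : Finset α).card = 2 ∨
        (x : Finset α).card = 3) with h | h | h <;> rw [h] <;> norm_num
    rw [Finset.sum_congr rfl fun x _ => this x]
    simp
  have hv := cnt_one hG
  have hpe : ∑ x, (if par G x = 1 then (1 : ℝ) else 0) = cnt G 2 := by
    unfold cnt
    refine Finset.sum_congr rfl fun x _ => ?_
    have h1 := hx1 x
    have h2 := h3 _ x.2
    unfold par
    rcases (by omega : (x : Finset α).card = 1 ∨ (x : Finset α).card = 2 ∨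
        (x : Finset α).card = 3) with h | h | h <;> rw [h] <;> norm_num
  have hpo : ∑ x, (if par G x = -1 then (1 : ℝ) else 0) = cnt G 1 + cnt G 3 := by
    unfold cnt
    rw [← Finset.sum_add_distrib]
    refine Finset.sum_congr rfl fun x _ => ?_
    have h1 := hx1 x
    have h2 := h3 _ x.2
    unfold par
    rcases (by omega : (x : Finset α).card = 1 ∨ (x : Finset α).card = 2 ∨
        (x : Finset α).card = 3) with h | h | h <;> rw [h] <;> norm_num
  obtain ⟨b1, b2, b3, b4⟩ := dirac_bounds (G := G) o ho k hk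
  rw [facetPairs_eq hG h3] at b1 b2 b3 b4
  rw [hpe] at b3
  rw [hpo] at b4
  have l1 := conn_ge_card hG k hk hV
  have hkn : (k : ℝ) ≤ G.card := by exact_mod_cast hk
  have hVk : cnt G 1 ≤ k := by rw [hv]; exact_mod_cast hV
  obtain ⟨Q, S, hQ, hS, hQL, hSL⟩ := graph_tests hG
  rw [← hv] at hQ hS
  have hk' : k ≤ Fintype.card G := by rw [Fintype.card_coe]; exact hk
  have h1 : IsTest (1 : Matrix G G ℝ) G.card := by
    have := test_one (ι := G)
    rwa [Fintype.card_coe] at this
  have h1L : (G.card : ℝ) ≤ ((1 : Matrix G G ℝ) * conn G).trace := by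
    rw [Matrix.one_mul, Matrix.trace]
    have : ∀ x, (conn G).diag x = 1 := by
      intro x
      rw [Matrix.diag_apply]
      unfold conn
      rw [if_pos]; rw [Finset.inter_self]; exact hG.1 _ x.2
    rw [Finset.sum_congr rfl fun x _ => this x]
    simp
  have hc1 := cnt_nonneg G 1
  have hc2 := cnt_nonneg G 2
  have hc3 := cnt_nonneg G 3
  refine arith (cnt G 1) (cnt G 2) (cnt G 3) k _ _ hc1 hc2 hc3 hVk (by rw [← hn]; exact hkn)
    b1 (by rw [← hn]; exact b2) b3 b4 (by rw [← hn]; exact l1) ?_ ?_
  · intro hkb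
    rcases eq_or_lt_of_le hc3 with h | h
    · have e : cnt G 1 = k := by linarith
      have := hQ.le (conn_herm G) k hk' e
      linarith
    · have := interp (conn_herm G) hQ hS hQL hSL k hk' ((cnt G 1 + cnt G 3 - k) / cnt G 3)
        (div_nonneg (by linarith) h.le) (by rw [div_le_one h]; linarith) (by field_simp; ring)
      have e : (cnt G 1 + cnt G 3 - k) / cnt G 3 * (2 * cnt G 2)
          + (1 - (cnt G 1 + cnt G 3 - k) / cnt G 3) * (2 * cnt G 2 + cnt G 3)
          = 2 * cnt G 2 + (k - cnt G 1) := by field_simp; ring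
      linarith
  · intro hkb
    rcases eq_or_lt_of_le hc2 with h | h
    · rw [← h]
      have : (k : ℝ) = cnt G 1 + cnt G 3 := by linarith
      rw [this]; ring_nf; exact le_refl _
    · have := interp (conn_herm G) hS h1 hSL h1L k hk' (((G.card : ℝ) - k) / cnt G 2)
        (div_nonneg (by linarith) h.le) (by rw [div_le_one h]; linarith)
        (by rw [hn]; field_simp; ring)
      have e : cnt G 2 * (((G.card : ℝ) - k) / cnt G 2 * (2 * cnt G 2 + cnt G 3)
          + (1 - ((G.card : ℝ) - k) / cnt G 2) * G.card)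
          = cnt G 2 * (cnt G 1 + cnt G 2 + cnt G 3)
            + (cnt G 1 + cnt G 2 + cnt G 3 - k) * (cnt G 2 - cnt G 1) := by
        rw [hn]; field_simp; ring
      rw [← e]
      exact mul_le_mul_of_nonneg_left this h.le

end Pool.Q63.CL
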