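import Mathlib

set_option autoImplicit false

/-!
# Sums of the largest eigenvalues and Schur multipliers
-/

open Matrix Finset

namespace Pool.Q63.CL

variable {ι : Type} [Fintype ι] [DecidableEq ι]

/-- The sum of the `k` largest eigenvalues (counted with multiplicity) of a real symmetric
matrix.  `eigenvalues₀` lists the eigenvalues in decreasing order. -/
noncomputable def specSum {A : Matrix ι ι ℝ} (hA : A.IsHermitian) (k : ℕ) : ℝ :=
  ∑ i : Fin (Fintype.card ι), if (i : ℕ) < k then hA.eigenvalues₀ i else 0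

/-- weighted sums of a decreasing sequence -/
theorem bathtub {n : ℕ} (l q : Fin n → ℝ) (hl : Antitone l) (h0 : ∀ i, 0 ≤ q i)
    (h1 : ∀ i, q i ≤ 1) (k : ℕ) (hk : k ≤ n) (hs : ∑ i, q i = k) :
    ∑ i, l i * q i ≤ ∑ i : Fin n, if (i : ℕ) < k then l i else 0 := by
  rcases Nat.eq_zero_or_pos k with rfl | hkp
  · have hz : ∀ i, q i = 0 := by
      intro i
      have := (Finset.sum_eq_zero_iff_of_nonneg (fun i _ => h0 i)).1 (by simpa using hs)
      exact this i (mem_univ i)
    simp [hz]
  · set m : Fin n := ⟨k - 1, by omega⟩ with hm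
    have hcount : ∑ i : Fin n, (if (i : ℕ) < k then (1 : ℝ) else 0) = k := by
      rw [Finset.sum_ite, Finset.sum_const_zero, add_zero, Finset.sum_const, nsmul_eq_mul, mul_one]
      congr 1
      have : (univ.filter fun i : Fin n => (i : ℕ) < k) = (univ : Finset (Fin k)).map
          (Fin.castLEEmb hk) := by
        ext i
        simp only [mem_filter, mem_univ, true_and, mem_map, Fin.castLEEmb_apply]
        constructor
        · intro h
          exact ⟨⟨i, h⟩, rfl⟩
        · rintro ⟨a, rfl⟩
          simp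
      rw [this]; simp
    have key : ∀ i : Fin n, l i * q i ≤ (if (i : ℕ) < k then l i else 0)
        + l m * (q i - if (i : ℕ) < k then 1 else 0) := by
      intro i
      split_ifs with h
      · have : l m ≤ l i := hl (by rw [Fin.le_def, hm]; simp; omega)
        nlinarith [h1 i]
      · have : l i ≤ l m := hl (by rw [Fin.le_def, hm]; simp; omega)
        nlinarith [h0 i]
    calc ∑ i, l i * q i ≤ ∑ i : Fin n, ((if (i : ℕ) < k then l i else 0)
        + l m * (q i - if (i : ℕ) < k then 1 else 0)) := Finset.sum_le_sum fun i _ => key i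
      _ = ∑ i : Fin n, if (i : ℕ) < k then l i else 0 := by
        rw [Finset.sum_add_distrib, ← Finset.mul_sum, Finset.sum_sub_distrib, hs, hcount]
        simp

theorem spectral {A : Matrix ι ι ℝ} (hA : A.IsHermitian) :
    ∃ U : Matrix ι ι ℝ, U * Uᵀ = 1 ∧ Uᵀ * U = 1 ∧ A = U * diagonal hA.eigenvalues * Uᵀ := by
  refine ⟨hA.eigenvectorUnitary, ?_, ?_, ?_⟩
  · have := (Unitary.mem_iff.1 hA.eigenvectorUnitary.2).2
    simpa [star_eq_conjTranspose, conjTranspose_eq_transpose_of_trivial] using this
  · have := (Unitary.mem_iff.1 hA.eigenvectorUnitary.2).1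
    simpa [star_eq_conjTranspose, conjTranspose_eq_transpose_of_trivial] using this
  · have := hA.spectral_theorem
    rw [Unitary.conjStarAlgAut_apply] at this
    conv_lhs => rw [this]
    simp [star_eq_conjTranspose, conjTranspose_eq_transpose_of_trivial]

/-- upper bound in the Ky Fan principle -/
theorem trace_le {A : Matrix ι ι ℝ} (hA : A.IsHermitian) (Q : Matrix ι ι ℝ)
    (h0 : Q.PosSemidef) (h1 : (1 - Q).PosSemidef) (k : ℕ) (hk : k ≤ Fintype.card ι)
    (ht : Q.trace = k) : (Q * A).trace ≤ specSum hA k := by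
  obtain ⟨U, hU1, hU2, hUA⟩ := spectral hA
  set R : Matrix ι ι ℝ := Uᵀ * Q * U with hR
  have hR0 : R.PosSemidef := by
    have := h0.conjTranspose_mul_mul_same U
    simpa [conjTranspose_eq_transpose_of_trivial] using this
  have hR1 : (1 - R).PosSemidef := by
    have := h1.conjTranspose_mul_mul_same U
    have e : Uᴴ * (1 - Q) * U = 1 - R := by
      rw [conjTranspose_eq_transpose_of_trivial, Matrix.mul_sub, Matrix.sub_mul, Matrix.mul_one,
        hU2]
    rwa [e] at this
  have htr : R.trace = k := by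
    rw [hR, Matrix.trace_mul_comm, ← Matrix.mul_assoc, hU1, Matrix.one_mul, ht]
  have e1 : (Q * A).trace = ∑ i, hA.eigenvalues i * R i i := by
    have : (Q * A).trace = (R * diagonal hA.eigenvalues).trace := by
      conv_lhs => rw [hUA]
      rw [hR, ← Matrix.mul_assoc, ← Matrix.mul_assoc, Matrix.trace_mul_comm]
      simp only [Matrix.mul_assoc]
    rw [this, Matrix.trace]
    refine Finset.sum_congr rfl fun i _ => ?_
    simp [Matrix.diag, Matrix.mul_diagonal, mul_comm]
  set e : Fin (Fintype.card ι) ≃ ι := Fintype.equivOfCardEq (Fintype.card_fin _) with he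
  have e2 : ∑ i, hA.eigenvalues i * R i i = ∑ j : Fin (Fintype.card ι),
      hA.eigenvalues₀ j * R (e j) (e j) := by
    rw [← Equiv.sum_comp e]
    refine Finset.sum_congr rfl fun i _ => ?_
    simp [Matrix.IsHermitian.eigenvalues, he]
  rw [e1, e2]
  refine bathtub _ _ hA.eigenvalues₀_antitone (fun j => hR0.diag_nonneg) (fun j => ?_) k hk ?_
  · have := hR1.diag_nonneg (i := e j)
    simp at this
    linarith
  · rw [← htr, Matrix.trace, Equiv.sum_comp e (fun i => R i i)]
    rfl

/-- the Ky Fan principle: the supremum is attained -/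
theorem exists_proj {A : Matrix ι ι ℝ} (hA : A.IsHermitian) (k : ℕ)
    (hk : k ≤ Fintype.card ι) : ∃ Q : Matrix ι ι ℝ, Q.PosSemidef ∧ (1 - Q).PosSemidef ∧
      Q.trace = k ∧ (Q * A).trace = specSum hA k := by
  obtain ⟨U, hU1, hU2, hUA⟩ := spectral hA
  set e : Fin (Fintype.card ι) ≃ ι := Fintype.equivOfCardEq (Fintype.card_fin _) with he
  set χ : ι → ℝ := fun i => if ((e.symm i : Fin _) : ℕ) < k then 1 else 0 with hχ
  have hcount : ∑ i, χ i = k := by
    rw [← Equiv.sum_comp e, hχ]
    simp only [Equiv.symm_apply_apply]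
    rw [Finset.sum_ite, Finset.sum_const_zero, add_zero, Finset.sum_const, nsmul_eq_mul, mul_one]
    congr 1
    have : (univ.filter fun i : Fin (Fintype.card ι) => (i : ℕ) < k) =
        (univ : Finset (Fin k)).map (Fin.castLEEmb hk) := by
      ext i
      simp only [mem_filter, mem_univ, true_and, mem_map, Fin.castLEEmb_apply]
      constructor
      · intro h
        exact ⟨⟨i, h⟩, rfl⟩
      · rintro ⟨a, rfl⟩
        simp
    rw [this]; simp
  refine ⟨U * diagonal χ * Uᵀ, ?_, ?_, ?_, ?_⟩
  · have h : (diagonal χ).PosSemidef := by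
      rw [posSemidef_diagonal_iff]
      intro i; rw [hχ]; dsimp only; split_ifs <;> norm_num
    have := h.mul_mul_conjTranspose_same U
    simpa [conjTranspose_eq_transpose_of_trivial] using this
  · have h : (diagonal (fun i => 1 - χ i)).PosSemidef := by
      rw [posSemidef_diagonal_iff]
      intro i; rw [hχ]; dsimp only; split_ifs <;> norm_num
    have := h.mul_mul_conjTranspose_same U
    have e' : U * diagonal (fun i => 1 - χ i) * Uᴴ = 1 - U * diagonal χ * Uᵀ := by
      have : diagonal (fun i => 1 - χ i) = (1 : Matrix ι ι ℝ) - diagonal χ := by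
        rw [← Matrix.diagonal_one, Matrix.diagonal_sub]
      rw [this, conjTranspose_eq_transpose_of_trivial, Matrix.mul_sub, Matrix.sub_mul,
        Matrix.mul_one, hU1]
    rwa [e'] at this
  · rw [Matrix.trace_mul_comm, ← Matrix.mul_assoc, hU2, Matrix.one_mul, Matrix.trace_diagonal,
      hcount]
  · conv_lhs => rw [hUA]
    have e1 : U * diagonal χ * Uᵀ * (U * diagonal hA.eigenvalues * Uᵀ)
        = U * (diagonal χ * diagonal hA.eigenvalues) * Uᵀ := by
      calc U * diagonal χ * Uᵀ * (U * diagonal hA.eigenvalues * Uᵀ)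
          = U * diagonal χ * (Uᵀ * U) * diagonal hA.eigenvalues * Uᵀ := by
            simp only [Matrix.mul_assoc]
        _ = _ := by rw [hU2, Matrix.mul_one]; simp only [Matrix.mul_assoc]
    rw [e1, Matrix.trace_mul_comm, ← Matrix.mul_assoc, hU2, Matrix.one_mul,
      Matrix.diagonal_mul_diagonal, Matrix.trace_diagonal, specSum, ← Equiv.sum_comp e]
    refine Finset.sum_congr rfl fun i _ => ?_
    rw [hχ]
    simp [Matrix.IsHermitian.eigenvalues, he]

/-- traces of products of positive semidefinite matrices -/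
theorem sum_mul_nonneg {P Q : Matrix ι ι ℝ} (hP : P.PosSemidef) (hQ : Q.PosSemidef) :
    0 ≤ ∑ i, ∑ j, P i j * Q i j := by
  have h := hP.hadamard hQ
  have := h.dotProduct_mulVec_nonneg (fun _ => (1 : ℝ))
  simpa [dotProduct, mulVec, Matrix.hadamard_apply] using this

/-- **Schur multiplier comparison.**  If `C` is positive semidefinite with unit diagonal, `L` is
`1` wherever `C` is nonzero, and `C - c D` is positive semidefinite, then the sum of the `k`
largest eigenvalues of `c D` is at most that of `L`. -/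
theorem specSum_le {L D C : Matrix ι ι ℝ} (hL : L.IsHermitian) (hD : D.IsHermitian)
    (hC : C.PosSemidef) (hdiag : ∀ i, C i i = 1) (hsupp : ∀ i j, C i j * L i j = C i j)
    (c : ℝ) (hCD : (C - c • D).PosSemidef) (k : ℕ) (hk : k ≤ Fintype.card ι) :
    c * specSum hD k ≤ specSum hL k := by
  obtain ⟨Q, hQ0, hQ1, hQt, hQD⟩ := exists_proj hD k hk
  have hP0 : (C ⊙ Q).PosSemidef := hC.hadamard hQ0
  have hP1 : (1 - C ⊙ Q).PosSemidef := by
    have h := hC.hadamard hQ1
    have e : C ⊙ (1 - Q) = 1 - C ⊙ Q := by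
      ext i j
      simp only [Matrix.hadamard_apply, Matrix.sub_apply, Matrix.one_apply]
      by_cases hij : i = j
      · subst hij; rw [hdiag]; simp
      · simp [hij]
    rwa [e] at h
  have hPt : (C ⊙ Q).trace = k := by
    rw [← hQt]
    simp [Matrix.trace, Matrix.diag, Matrix.hadamard_apply, hdiag]
  have h1 := trace_le hL (C ⊙ Q) hP0 hP1 k hk hPt
  have tr : ∀ X Y : Matrix ι ι ℝ, Y.IsHermitian → (X * Y).trace = ∑ i, ∑ j, X i j * Y i j := by
    intro X Y hY
    simp only [Matrix.trace, Matrix.diag, Matrix.mul_apply]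
    refine Finset.sum_congr rfl fun i _ => Finset.sum_congr rfl fun j _ => ?_
    have := hY.apply j i
    simp at this
    rw [this]
  have h2 : ((C ⊙ Q) * L).trace = ∑ i, ∑ j, C i j * Q i j := by
    rw [tr _ _ hL]
    refine Finset.sum_congr rfl fun i _ => Finset.sum_congr rfl fun j _ => ?_
    rw [Matrix.hadamard_apply]
    calc C i j * Q i j * L i j = (C i j * L i j) * Q i j := by ring
      _ = C i j * Q i j := by rw [hsupp]
  have h3 := sum_mul_nonneg hCD hQ0
  have h4 : ∑ i, ∑ j, (C - c • D) i j * Q i j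
      = ∑ i, ∑ j, C i j * Q i j - c * ∑ i, ∑ j, Q i j * D i j := by
    rw [Finset.mul_sum, ← Finset.sum_sub_distrib]
    refine Finset.sum_congr rfl fun i _ => ?_
    rw [Finset.mul_sum, ← Finset.sum_sub_distrib]
    refine Finset.sum_congr rfl fun j _ => ?_
    simp only [Matrix.sub_apply, Matrix.smul_apply, smul_eq_mul]
    ring
  rw [h4, ← tr _ _ hD, hQD] at h3
  linarith [h2 ▸ h1]

end Pool.Q63.CL
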