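import Pool.Agent.Q63.CL.Sys

set_option autoImplicit false

/-!
# Singular systems
-/

open Matrix Finset

namespace Pool.Q63.CL

variable {ι : Type} [Fintype ι] [DecidableEq ι]

theorem svd (A : Matrix ι ι ℝ) : ∃ (J : Type) (_ : Fintype J) (_ : DecidableEq J)
    (W X : Matrix J ι ℝ) (h : J → ℝ), (∀ j, 0 < h j) ∧ W * Wᵀ = 1 ∧ X * Xᵀ = 1 ∧
      A * Wᵀ = Xᵀ * diagonal (fun j => √(h j)) ∧ X * A = diagonal (fun j => √(h j)) * W ∧
      A = Xᵀ * diagonal (fun j => √(h j)) * W ∧ Aᵀ * A = Wᵀ * diagonal h * W := by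
  classical
  have hN : (Aᵀ * A).PosSemidef := by
    have := posSemidef_conjTranspose_mul_self A
    rwa [conjTranspose_eq_transpose_of_trivial] at this
  obtain ⟨U, hU1, hU2, hUA⟩ := spectral hN.isHermitian
  set lam := hN.isHermitian.eigenvalues with hlam
  have hlam0 : ∀ i, 0 ≤ lam i := hN.eigenvalues_nonneg
  set J := {i : ι // 0 < lam i} with hJ
  set W : Matrix J ι ℝ := fun j i => U i j with hW
  set h : J → ℝ := fun j => lam j with hh
  have hpos : ∀ j : J, 0 < h j := fun j => j.2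
  have hsq : ∀ j : J, 0 < √(h j) := fun j => Real.sqrt_pos.2 (hpos j)
  have hWW : W * Wᵀ = 1 := by
    ext j j'
    have e : (W * Wᵀ) j j' = (Uᵀ * U) j j' := by
      rw [Matrix.mul_apply, Matrix.mul_apply]; rfl
    rw [e, hU2, Matrix.one_apply, Matrix.one_apply]
    by_cases hj : j = j'
    · subst hj; simp
    · rw [if_neg hj, if_neg (fun h' => hj (Subtype.ext h'))]
  have hNW : Aᵀ * A = Wᵀ * diagonal h * W := by
    rw [hUA]
    ext i i'
    rw [Matrix.mul_apply, Matrix.mul_apply]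
    rw [← Fintype.sum_subtype_add_sum_subtype (fun j => 0 < lam j)]
    have h0 : ∑ j : {j // ¬ 0 < lam j}, (U * diagonal lam) i j * Uᵀ j i' = 0 := by
      refine Finset.sum_eq_zero fun j _ => ?_
      have : lam j = 0 := le_antisymm (not_lt.1 j.2) (hlam0 _)
      rw [Matrix.mul_diagonal, this]; ring
    rw [h0, add_zero]
    refine Finset.sum_congr rfl fun j _ => ?_
    rw [Matrix.mul_diagonal, Matrix.mul_diagonal]
    rfl
  have hWN : W * (Aᵀ * A) = diagonal h * W := by
    rw [hNW, ← Matrix.mul_assoc, ← Matrix.mul_assoc, hWW, Matrix.one_mul]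
  set X : Matrix J ι ℝ := diagonal (fun j => (√(h j))⁻¹) * W * Aᵀ with hX
  have hd1 : diagonal (fun j => (√(h j))⁻¹) * diagonal h = diagonal (fun j => √(h j)) := by
    rw [Matrix.diagonal_mul_diagonal]
    congr 1; ext j
    have := Real.mul_self_sqrt (hpos j).le
    have h2 := (hsq j).ne'
    field_simp
    rw [sq]; exact this.symm
  have hd2 : diagonal (fun j => √(h j)) * diagonal (fun j => (√(h j))⁻¹) = 1 := by
    rw [Matrix.diagonal_mul_diagonal, ← Matrix.diagonal_one]
    congr 1; ext j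
    exact mul_inv_cancel₀ (hsq j).ne'
  have hd3 : diagonal (fun j => (√(h j))⁻¹) * diagonal (fun j => √(h j)) = 1 := by
    rw [Matrix.diagonal_mul_diagonal, ← Matrix.diagonal_one]
    congr 1; ext j
    exact inv_mul_cancel₀ (hsq j).ne'
  have hXt : Xᵀ = A * Wᵀ * diagonal (fun j => (√(h j))⁻¹) := by
    rw [hX, Matrix.transpose_mul, Matrix.transpose_mul, Matrix.transpose_transpose,
      Matrix.diagonal_transpose, Matrix.mul_assoc]
  have hXA : X * A = diagonal (fun j => √(h j)) * W := by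
    calc X * A = diagonal (fun j => (√(h j))⁻¹) * (W * (Aᵀ * A)) := by
          rw [hX]; simp only [Matrix.mul_assoc]
      _ = (diagonal (fun j => (√(h j))⁻¹) * diagonal h) * W := by
          rw [hWN]; simp only [Matrix.mul_assoc]
      _ = _ := by rw [hd1]
  have hAW : A * Wᵀ = Xᵀ * diagonal (fun j => √(h j)) := by
    rw [hXt, Matrix.mul_assoc, hd3, Matrix.mul_one]
  have hXX : X * Xᵀ = 1 := by
    calc X * Xᵀ = (X * A) * Wᵀ * diagonal (fun j => (√(h j))⁻¹) := by
          rw [hXt]; simp only [Matrix.mul_assoc]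
      _ = diagonal (fun j => √(h j)) * (W * Wᵀ) * diagonal (fun j => (√(h j))⁻¹) := by
          rw [hXA]; simp only [Matrix.mul_assoc]
      _ = 1 := by rw [hWW, Matrix.mul_one, hd2]
  have hAE : A * (1 - Wᵀ * W) = 0 := by
    have h1 : (Aᵀ * A) * (1 - Wᵀ * W) = 0 := by
      rw [Matrix.mul_sub, Matrix.mul_one, hNW]
      have : Wᵀ * diagonal h * W * (Wᵀ * W) = Wᵀ * diagonal h * (W * Wᵀ) * W := by
        simp only [Matrix.mul_assoc]
      rw [this, hWW, Matrix.mul_one, sub_self]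
    have h2 : (A * (1 - Wᵀ * W))ᴴ * (A * (1 - Wᵀ * W)) = 0 := by
      rw [conjTranspose_eq_transpose_of_trivial, Matrix.transpose_mul]
      calc (1 - Wᵀ * W)ᵀ * Aᵀ * (A * (1 - Wᵀ * W))
          = (1 - Wᵀ * W)ᵀ * ((Aᵀ * A) * (1 - Wᵀ * W)) := by simp only [Matrix.mul_assoc]
        _ = 0 := by rw [h1, Matrix.mul_zero]
    exact Matrix.conjTranspose_mul_self_eq_zero.1 h2
  refine ⟨J, inferInstance, inferInstance, W, X, h, hpos, hWW, hXX, hAW, hXA, ?_, hNW⟩
  rw [← hAW]
  have := hAE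
  rw [Matrix.mul_sub, Matrix.mul_one, sub_eq_zero] at this
  rw [Matrix.mul_assoc]; exact this

end Pool.Q63.CL
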