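import Pool.Agent.Q63.CL.Cls

set_option autoImplicit false

/-!
# Three test matrices for the connection matrix
-/

open Matrix Finset

namespace Pool.Q63.CL

variable {α : Type} [LinearOrder α]

/-- the set of vertices -/
def verts (G : Finset (Finset α)) : Finset α := G.biUnion id

theorem mem_verts {G : Finset (Finset α)} {x : Finset α} (hx : x ∈ G) {v : α} (hv : v ∈ x) :
    v ∈ verts G := Finset.mem_biUnion.2 ⟨x, hx, hv⟩

theorem single_mem {G : Finset (Finset α)} (hG : IsComplex G) (v : verts G) :
    {(v : α)} ∈ G := by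
  obtain ⟨x, hx, hv⟩ := Finset.mem_biUnion.1 v.2
  exact hG.2 x hx _ (Finset.singleton_subset_iff.2 hv) (Finset.singleton_nonempty _)

/-- number of sets with `j` elements -/
noncomputable def cnt (G : Finset (Finset α)) (j : ℕ) : ℝ :=
  ∑ x : G, if (x : Finset α).card = j then (1 : ℝ) else 0

theorem cnt_nonneg (G : Finset (Finset α)) (j : ℕ) : 0 ≤ cnt G j :=
  Finset.sum_nonneg fun _ _ => by split_ifs <;> norm_num

theorem sum_single {G : Finset (Finset α)} (hG : IsComplex G) (v w : verts G) :
    ∑ x : G, (if (v : α) ∈ (x : Finset α) ∧ (w : α) ∈ (x : Finset α) ∧ (x : Finset α).card = 1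
      then (1 : ℝ) else 0) = if v = w then 1 else 0 := by
  by_cases h : v = w
  · subst h
    rw [if_pos rfl, Finset.sum_eq_single (⟨{(v : α)}, single_mem hG v⟩ : G)]
    · simp
    · intro y _ hy
      rw [if_neg]
      rintro ⟨h1, -, h3⟩
      obtain ⟨a, ha⟩ := Finset.card_eq_one.1 h3
      apply hy
      apply Subtype.ext
      rw [ha, Finset.mem_singleton] at h1
      show (y : Finset α) = {(v : α)}
      rw [ha]
      exact congrArg _ h1.symm
    · intro h; exact absurd (mem_univ _) h
  · rw [if_neg h]
    refine Finset.sum_eq_zero fun x _ => ?_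
    rw [if_neg]
    rintro ⟨h1, h2, h3⟩
    obtain ⟨a, ha⟩ := Finset.card_eq_one.1 h3
    rw [ha, Finset.mem_singleton] at h1 h2
    exact h (Subtype.ext (h1.trans h2.symm))

theorem sum_verts {G : Finset (Finset α)} (x : G) :
    ∑ v : verts G, (if (v : α) ∈ (x : Finset α) then (1 : ℝ) else 0) = (x : Finset α).card := by
  rw [Finset.sum_ite, Finset.sum_const_zero, add_zero, Finset.sum_const, nsmul_eq_mul, mul_one]
  congr 1
  rw [← Finset.card_map ⟨Subtype.val, Subtype.val_injective⟩]
  congr 1
  ext v
  simp only [mem_map, mem_filter, mem_univ, true_and, Function.Embedding.coeFn_mk]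
  constructor
  · rintro ⟨w, h, rfl⟩; exact h
  · intro h; exact ⟨⟨v, mem_verts x.2 h⟩, h, rfl⟩

theorem cnt_one {G : Finset (Finset α)} (hG : IsComplex G) : cnt G 1 = (verts G).card := by
  have h1 : ∀ v : verts G, ∑ x : G, (if (v : α) ∈ (x : Finset α) ∧ (v : α) ∈ (x : Finset α) ∧
      (x : Finset α).card = 1 then (1 : ℝ) else 0) = 1 := by
    intro v; rw [sum_single hG, if_pos rfl]
  have h2 : ∑ v : verts G, ∑ x : G, (if (v : α) ∈ (x : Finset α) ∧ (v : α) ∈ (x : Finset α) ∧
      (x : Finset α).card = 1 then (1 : ℝ) else 0) = (verts G).card := by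
    rw [Finset.sum_congr rfl fun v _ => h1 v]; simp
  rw [← h2, Finset.sum_comm, cnt]
  refine Finset.sum_congr rfl fun x _ => ?_
  have h3 := sum_verts x
  by_cases h : (x : Finset α).card = 1
  · rw [if_pos h]
    rw [h, Nat.cast_one] at h3
    refine h3.symm.trans ?_
    refine Finset.sum_congr rfl fun v _ => ?_
    by_cases hv : (v : α) ∈ (x : Finset α)
    · rw [if_pos hv, if_pos ⟨hv, hv, h⟩]
    · rw [if_neg hv, if_neg (fun h' => hv h'.1)]
  · rw [if_neg h]
    exact (Finset.sum_eq_zero fun v _ => if_neg fun h' => h h'.2.2).symm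

/-! ### stars -/

theorem star_test {G : Finset (Finset α)} (hG : IsComplex G) :
    ∃ Q : Matrix G G ℝ, IsTest Q (verts G).card ∧ (G.card : ℝ) ≤ (Q * conn G).trace := by
  classical
  set R : Matrix (verts G) G ℝ := fun v x =>
    if (x : Finset α).min = ((v : α) : WithTop α) then 1 else 0 with hR
  have hR01 : ∀ v x, R v x * R v x = R v x := by
    intro v x; rw [hR]; dsimp only; split_ifs <;> norm_num
  have hRmem : ∀ v x, R v x ≠ 0 → (v : α) ∈ (x : Finset α) := by
    intro v x h
    have : (x : Finset α).min = ((v : α) : WithTop α) := by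
      by_contra hc
      exact h (if_neg hc)
    exact Finset.mem_of_min this
  have hRsum : ∀ x, ∑ v, R v x = 1 := by
    intro x
    obtain ⟨a, ha⟩ := Finset.min_of_nonempty (hG.1 _ x.2)
    have hav : a ∈ verts G := mem_verts x.2 (Finset.mem_of_min ha)
    rw [Finset.sum_eq_single (⟨a, hav⟩ : verts G)]
    · rw [hR]; exact if_pos ha
    · intro w _ hw
      rw [hR]
      refine if_neg fun h => hw ?_
      rw [ha] at h
      exact Subtype.ext (WithTop.coe_injective h).symm
    · intro h; exact absurd (mem_univ _) h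
  set N : verts G → ℝ := fun v => ∑ x, R v x with hN
  have hNpos : ∀ v, 0 < N v := by
    intro v
    have h0 : ∀ x, 0 ≤ R v x := fun x => by rw [← hR01]; exact mul_self_nonneg _
    have : R v ⟨{(v : α)}, single_mem hG v⟩ = 1 := by
      rw [hR]; exact if_pos (Finset.min_singleton)
    have h1 := Finset.single_le_sum (f := fun x => R v x) (fun x _ => h0 x)
      (mem_univ (⟨{(v : α)}, single_mem hG v⟩ : G))
    rw [hN]
    dsimp only at h1 ⊢
    linarith
  have hRR : R * Rᵀ = diagonal N := by
    ext v w
    rw [Matrix.mul_apply, Matrix.diagonal_apply]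
    by_cases h : v = w
    · subst h
      rw [if_pos rfl, hN]
      exact Finset.sum_congr rfl fun x _ => by rw [Matrix.transpose_apply, hR01]
    · rw [if_neg h]
      refine Finset.sum_eq_zero fun x _ => ?_
      rw [Matrix.transpose_apply]
      by_cases h1 : R v x = 0
      · rw [h1, zero_mul]
      · by_cases h2 : R w x = 0
        · rw [h2, mul_zero]
        · exfalso
          have e1 : (x : Finset α).min = ((v : α) : WithTop α) := by
            by_contra hc; exact h1 (if_neg hc)
          have e2 : (x : Finset α).min = ((w : α) : WithTop α) := by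
            by_contra hc; exact h2 (if_neg hc)
          rw [e1] at e2
          exact h (Subtype.ext (WithTop.coe_injective e2))
  set X : Matrix (verts G) (verts G) ℝ := diagonal (fun v => (N v)⁻¹) with hX
  have hXpsd : X.PosSemidef := by
    rw [hX, posSemidef_diagonal_iff]
    intro v; exact (inv_pos.2 (hNpos v)).le
  have hXR : X * (R * Rᵀ) = 1 := by
    rw [hRR, hX, Matrix.diagonal_mul_diagonal, ← Matrix.diagonal_one]
    congr 1
    ext v
    exact inv_mul_cancel₀ (hNpos v).ne'
  refine ⟨Rᵀ * X * R, ?_, ?_⟩
  · have := rowProj R X hXpsd hXR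
    rwa [Fintype.card_coe] at this
  · rw [rowProj_trace]
    have e1 : ∀ v, (R * conn G * Rᵀ) v v = N v * N v := by
      intro v
      rw [Matrix.mul_apply, hN, Finset.mul_sum]
      refine Finset.sum_congr rfl fun y _ => ?_
      rw [Matrix.transpose_apply]
      by_cases hy : R v y = 0
      · rw [hy]; simp
      · rw [Matrix.mul_apply]
        congr 1
        refine Finset.sum_congr rfl fun x _ => ?_
        by_cases hx : R v x = 0
        · rw [hx, zero_mul]
        · have : conn G x y = 1 := by
            unfold conn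
            exact if_pos ⟨v, Finset.mem_inter.2 ⟨hRmem v x hx, hRmem v y hy⟩⟩
          rw [this, mul_one]
    have e2 : (X * (R * conn G * Rᵀ)).trace = ∑ v, N v := by
      rw [Matrix.trace]
      refine Finset.sum_congr rfl fun v _ => ?_
      rw [Matrix.diag_apply, hX, Matrix.diagonal_mul, e1, ← mul_assoc,
        inv_mul_cancel₀ (hNpos v).ne', one_mul]
    rw [e2, hN, Finset.sum_comm, Finset.sum_congr rfl fun x _ => hRsum x]
    simp

end Pool.Q63.CL
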