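import Pool.Agent.Q63.CL.Tests

set_option autoImplicit false

/-!
# Two more test matrices for the connection matrix
-/

open Matrix Finset

namespace Pool.Q63.CL

variable {α : Type} [LinearOrder α]

theorem conn_small (x y : Finset α) (hx : x.card ≤ 2) (hy : y.card ≤ 2) (hxn : x.Nonempty) :
    (if (x ∩ y).Nonempty then (1 : ℝ) else 0) = ((x ∩ y).card : ℝ)
      - (if x = y ∧ x.card = 2 then 1 else 0) := by
  by_cases h : x = y
  · subst h
    rw [Finset.inter_self, if_pos hxn]
    have h1 : 1 ≤ x.card := Finset.card_pos.2 hxn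
    rcases (by omega : x.card = 1 ∨ x.card = 2) with h2 | h2
    · rw [if_neg (by omega), h2]; norm_num
    · rw [if_pos ⟨rfl, h2⟩, h2]; norm_num
  · have e0 : ¬ (x = y ∧ x.card = 2) := fun h' => h h'.1
    rw [if_neg e0, sub_zero]
    have h1 : (x ∩ y).card ≤ 1 := by
      by_contra hc
      have h2 : (x ∩ y).card ≤ x.card := Finset.card_le_card Finset.inter_subset_left
      have h3 : (x ∩ y).card ≤ y.card := Finset.card_le_card Finset.inter_subset_right
      have e1 : x ∩ y = x := Finset.eq_of_subset_of_card_le Finset.inter_subset_left (by omega)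
      have e2 : x ∩ y = y := Finset.eq_of_subset_of_card_le Finset.inter_subset_right (by omega)
      exact h (e1.symm.trans e2)
    split_ifs with h2
    · have : 1 ≤ (x ∩ y).card := Finset.card_pos.2 h2
      have : (x ∩ y).card = 1 := by omega
      rw [this]; norm_num
    · rw [Finset.not_nonempty_iff_eq_empty.1 h2]; simp

theorem sum_verts2 {G : Finset (Finset α)} (x y : G) :
    ∑ v : verts G, (if (v : α) ∈ (x : Finset α) ∧ (v : α) ∈ (y : Finset α) then (1 : ℝ) else 0)
      = ((x : Finset α) ∩ y).card := by
  rw [Finset.sum_ite, Finset.sum_const_zero, add_zero, Finset.sum_const, nsmul_eq_mul, mul_one]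
  congr 1
  rw [← Finset.card_map ⟨Subtype.val, Subtype.val_injective⟩]
  congr 1
  ext v
  simp only [mem_map, mem_filter, mem_univ, true_and, Function.Embedding.coeFn_mk, mem_inter]
  constructor
  · rintro ⟨w, h, rfl⟩; exact h
  · intro h; exact ⟨⟨v, mem_verts x.2 h.1⟩, h, rfl⟩

theorem graph_tests {G : Finset (Finset α)} (hG : IsComplex G) :
    ∃ Q S : Matrix G G ℝ, IsTest Q (verts G).card ∧ IsTest S ((verts G).card + cnt G 3) ∧
      2 * cnt G 2 ≤ (Q * conn G).trace ∧ 2 * cnt G 2 + cnt G 3 ≤ (S * conn G).trace := by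
  classical
  set R : Matrix (verts G) G ℝ := fun v x =>
    if (v : α) ∈ (x : Finset α) ∧ (x : Finset α).card ≤ 2 then 1 else 0 with hR
  set Re : Matrix (verts G) G ℝ := fun v x =>
    if (v : α) ∈ (x : Finset α) ∧ (x : Finset α).card = 2 then 1 else 0 with hRe
  set A : Matrix (verts G) (verts G) ℝ := 1 + Re * Reᵀ with hA
  have hx1 : ∀ x : G, 1 ≤ (x : Finset α).card := fun x => Finset.card_pos.2 (hG.1 _ x.2)
  have hRR : R * Rᵀ = A := by
    ext v w
    rw [hA, Matrix.add_apply, Matrix.mul_apply, Matrix.mul_apply, Matrix.one_apply,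
      ← sum_single hG v w, ← Finset.sum_add_distrib]
    refine Finset.sum_congr rfl fun x _ => ?_
    rw [Matrix.transpose_apply, Matrix.transpose_apply, hR, hRe]
    dsimp only
    have := hx1 x
    by_cases h1 : (v : α) ∈ (x : Finset α)
    · by_cases h2 : (w : α) ∈ (x : Finset α)
      · rcases (by omega : (x : Finset α).card = 1 ∨ (x : Finset α).card = 2 ∨
          3 ≤ (x : Finset α).card) with h | h | h
        · simp [h1, h2, h]
        · simp [h1, h2, h]
        · have e1 : ¬ (x : Finset α).card ≤ 2 := by omega
          have e2 : ¬ (x : Finset α).card = 2 := by omega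
          have e3 : ¬ (x : Finset α).card = 1 := by omega
          simp [e1, e2, e3]
      · simp [h2]
    · simp [h1]
  have hpd : A.PosDef := by
    rw [hA]
    have h1 : (Re * Reᵀ).PosSemidef := by
      have := posSemidef_self_mul_conjTranspose Re
      simpa [conjTranspose_eq_transpose_of_trivial] using this
    exact PosDef.one.add_posSemidef h1
  set X : Matrix (verts G) (verts G) ℝ := A⁻¹ with hX
  have hXpsd : X.PosSemidef := hpd.inv.posSemidef
  have hXA : X * A = 1 := Matrix.nonsing_inv_mul A ((Matrix.isUnit_iff_isUnit_det A).1 hpd.isUnit)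
  have hXR : X * (R * Rᵀ) = 1 := by rw [hRR, hXA]
  have hXt : Xᵀ = X := by
    have := hXpsd.isHermitian
    rwa [Matrix.IsHermitian, conjTranspose_eq_transpose_of_trivial] at this
  set Q : Matrix G G ℝ := Rᵀ * X * R with hQ
  have hQt : IsTest Q (verts G).card := by
    have := rowProj R X hXpsd hXR
    rwa [Fintype.card_coe] at this
  have hsq : Q * Q = Q := by
    rw [hQ]
    calc (Rᵀ * X * R) * (Rᵀ * X * R) = Rᵀ * (X * (R * Rᵀ)) * X * R := by
          simp only [Matrix.mul_assoc]
      _ = _ := by rw [hXR, Matrix.mul_one]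
  have hsym : Qᵀ = Q := by
    rw [hQ, Matrix.transpose_mul, Matrix.transpose_mul, Matrix.transpose_transpose, hXt,
      Matrix.mul_assoc]
  -- the trace of Q L
  have hRLR : R * conn G * Rᵀ = A * A - A + 1 := by
    set Λ : Matrix G G ℝ := diagonal (fun x : G => if (x : Finset α).card = 2 then 1 else 0)
      with hΛ
    have e1 : R * conn G * Rᵀ = R * (Rᵀ * R - Λ) * Rᵀ := by
      ext v w
      rw [Matrix.mul_apply, Matrix.mul_apply]
      refine Finset.sum_congr rfl fun y _ => ?_
      rw [Matrix.transpose_apply]
      by_cases hy : R w y = 0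
      · rw [hy]; simp
      · congr 1
        rw [Matrix.mul_apply, Matrix.mul_apply]
        refine Finset.sum_congr rfl fun x _ => ?_
        by_cases hx : R v x = 0
        · rw [hx]; simp
        · congr 1
          have hxc : (x : Finset α).card ≤ 2 := by
            by_contra hc; exact hx (if_neg fun h => hc h.2)
          have hyc : (y : Finset α).card ≤ 2 := by
            by_contra hc; exact hy (if_neg fun h => hc h.2)
          have h1 : (Rᵀ * R) x y = (((x : Finset α) ∩ y).card : ℝ) := by
            rw [Matrix.mul_apply, ← sum_verts2 x y]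
            refine Finset.sum_congr rfl fun u _ => ?_
            rw [Matrix.transpose_apply, hR]
            dsimp only
            by_cases h1 : (u : α) ∈ (x : Finset α) <;> by_cases h2 : (u : α) ∈ (y : Finset α) <;>
              simp [h1, h2, hxc, hyc]
          rw [Matrix.sub_apply, h1, hΛ, Matrix.diagonal_apply]
          unfold conn
          rw [conn_small _ _ hxc hyc (hG.1 _ x.2)]
          congr 1
          by_cases h : x = y
          · subst h; simp
          · rw [if_neg h, if_neg]
            rintro ⟨h', -⟩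
            exact h (Subtype.ext h')
    have e2 : R * Λ * Rᵀ = Re * Reᵀ := by
      ext v w
      rw [Matrix.mul_apply, Matrix.mul_apply]
      refine Finset.sum_congr rfl fun x _ => ?_
      rw [hΛ, Matrix.mul_diagonal, Matrix.transpose_apply, Matrix.transpose_apply, hR, hRe]
      dsimp only
      by_cases h1 : (v : α) ∈ (x : Finset α) <;> by_cases h2 : (w : α) ∈ (x : Finset α) <;>
        by_cases h3 : (x : Finset α).card = 2 <;> simp [h1, h2, h3]
    rw [e1, Matrix.mul_sub, Matrix.sub_mul, e2]
    have e3 : R * (Rᵀ * R) * Rᵀ = A * A := by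
      rw [← hRR]; simp only [Matrix.mul_assoc]
    have e4 : Re * Reᵀ = A - 1 := by rw [hA]; simp
    rw [e3, e4]; abel
  have htrA : A.trace = (verts G).card + 2 * cnt G 2 := by
    rw [← hRR, ← cnt_one hG, cnt, cnt, Finset.mul_sum, ← Finset.sum_add_distrib, Matrix.trace]
    have e : ∀ v, (R * Rᵀ).diag v = ∑ x, R v x := by
      intro v
      rw [Matrix.diag_apply, Matrix.mul_apply]
      refine Finset.sum_congr rfl fun x _ => ?_
      rw [Matrix.transpose_apply, hR]
      dsimp only
      split_ifs <;> norm_num
    rw [Finset.sum_congr rfl fun v _ => e v, Finset.sum_comm]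
    refine Finset.sum_congr rfl fun x _ => ?_
    have h1 := sum_verts x
    have h2 : ∑ v, R v x = if (x : Finset α).card ≤ 2 then ((x : Finset α).card : ℝ) else 0 := by
      rw [hR]
      dsimp only
      split_ifs with h
      · rw [← h1]
        refine Finset.sum_congr rfl fun v _ => ?_
        by_cases h3 : (v : α) ∈ (x : Finset α) <;> simp [h3, h]
      · exact Finset.sum_eq_zero fun v _ => if_neg fun h' => h h'.2
    rw [h2]
    have := hx1 x
    rcases (by omega : (x : Finset α).card = 1 ∨ (x : Finset α).card = 2 ∨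
          3 ≤ (x : Finset α).card) with h | h | h
    · simp [h]
    · simp [h]
    · have e1 : ¬ (x : Finset α).card ≤ 2 := by omega
      have e2 : ¬ (x : Finset α).card = 2 := by omega
      have e3 : ¬ (x : Finset α).card = 1 := by omega
      simp [e1, e2, e3]
  have hQL : 2 * cnt G 2 ≤ (Q * conn G).trace := by
    rw [hQ, rowProj_trace, hRLR]
    have e : X * (A * A - A + 1) = A - 1 + X := by
      rw [Matrix.mul_add, Matrix.mul_sub, ← Matrix.mul_assoc, hXA, Matrix.one_mul, Matrix.mul_one]
    rw [e, Matrix.trace_add, Matrix.trace_sub, htrA, Matrix.trace_one, Fintype.card_coe]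
    have := hXpsd.trace_nonneg
    linarith
  set P : Matrix G G ℝ := diagonal (fun x : G => if (x : Finset α).card = 3 then 1 else 0) with hP
  have hPP : P * P = P := by
    rw [hP, Matrix.diagonal_mul_diagonal]
    congr 1; ext x; split_ifs <;> norm_num
  have hPt : Pᵀ = P := by rw [hP, Matrix.diagonal_transpose]
  have hRP : R * P = 0 := by
    ext v x
    rw [hP, Matrix.mul_diagonal, Matrix.zero_apply, hR]
    dsimp only
    by_cases h : (x : Finset α).card = 3
    · have : ¬ (x : Finset α).card ≤ 2 := by omega
      simp [this]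
    · simp [h]
  have hQP : Q * P = 0 := by rw [hQ, Matrix.mul_assoc, hRP, Matrix.mul_zero]
  have hPQ : P * Q = 0 := by
    have := congrArg Matrix.transpose hQP
    rwa [Matrix.transpose_mul, hPt, hsym, Matrix.transpose_zero] at this
  have hPpsd : P.PosSemidef := by
    rw [hP, posSemidef_diagonal_iff]; intro x; split_ifs <;> norm_num
  have hPtr : P.trace = cnt G 3 := by rw [hP, Matrix.trace_diagonal, cnt]
  refine ⟨Q, Q + P, hQt, ⟨hQt.1.add hPpsd, ?_, ?_⟩, hQL, ?_⟩
  · have h2 := posSemidef_conjTranspose_mul_self (1 - (Q + P))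
    have e : (1 - (Q + P))ᴴ * (1 - (Q + P)) = 1 - (Q + P) := by
      rw [conjTranspose_eq_transpose_of_trivial, Matrix.transpose_sub, Matrix.transpose_one,
        Matrix.transpose_add, hsym, hPt]
      have : (Q + P) * (Q + P) = Q + P := by
        rw [Matrix.add_mul, Matrix.mul_add, Matrix.mul_add, hsq, hPP, hQP, hPQ]; simp
      rw [Matrix.mul_sub, Matrix.sub_mul, Matrix.sub_mul, this]
      simp
    rwa [e] at h2
  · rw [Matrix.trace_add, hQt.2.2, hPtr]
  · rw [Matrix.add_mul, Matrix.trace_add]
    have : (P * conn G).trace = cnt G 3 := by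
      rw [Matrix.trace, cnt]
      refine Finset.sum_congr rfl fun x _ => ?_
      rw [Matrix.diag_apply, hP, Matrix.diagonal_mul]
      have : conn G x x = 1 := by
        unfold conn
        rw [if_pos]; rw [Finset.inter_self]; exact hG.1 _ x.2
      rw [this, mul_one]
    linarith

end Pool.Q63.CL
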