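import Pool.Agent.Q63.CL.Complex

set_option autoImplicit false

/-!
# Test matrices for sums of the largest eigenvalues
-/

open Matrix Finset

namespace Pool.Q63.CL

variable {ι κ : Type} [Fintype ι] [DecidableEq ι] [Fintype κ] [DecidableEq κ]

/-- a test matrix of trace `t` -/
def IsTest (Q : Matrix ι ι ℝ) (t : ℝ) : Prop :=
  Q.PosSemidef ∧ (1 - Q).PosSemidef ∧ Q.trace = t

/-- the orthogonal projection on the row space of `R` -/
theorem rowProj (R : Matrix κ ι ℝ) (X : Matrix κ κ ℝ) (hX : X.PosSemidef)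
    (hXR : X * (R * Rᵀ) = 1) : IsTest (Rᵀ * X * R) (Fintype.card κ) := by
  have hXt : Xᵀ = X := by
    have := hX.isHermitian
    rwa [Matrix.IsHermitian, conjTranspose_eq_transpose_of_trivial] at this
  have h1 : (Rᵀ * X * R).PosSemidef := by
    have := hX.mul_mul_conjTranspose_same Rᵀ
    simpa [conjTranspose_eq_transpose_of_trivial] using this
  have hsq : (Rᵀ * X * R) * (Rᵀ * X * R) = Rᵀ * X * R := by
    calc (Rᵀ * X * R) * (Rᵀ * X * R) = Rᵀ * (X * (R * Rᵀ)) * X * R := by
          simp only [Matrix.mul_assoc]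
      _ = _ := by rw [hXR, Matrix.mul_one]
  have hsym : (Rᵀ * X * R)ᵀ = Rᵀ * X * R := by
    rw [Matrix.transpose_mul, Matrix.transpose_mul, Matrix.transpose_transpose, hXt,
      Matrix.mul_assoc]
  refine ⟨h1, ?_, ?_⟩
  · have h2 := posSemidef_conjTranspose_mul_self (1 - Rᵀ * X * R)
    have e : (1 - Rᵀ * X * R)ᴴ * (1 - Rᵀ * X * R) = 1 - Rᵀ * X * R := by
      rw [conjTranspose_eq_transpose_of_trivial, Matrix.transpose_sub, Matrix.transpose_one, hsym,
        Matrix.mul_sub, Matrix.sub_mul, Matrix.sub_mul, hsq]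
      simp
    rwa [e] at h2
  · rw [Matrix.mul_assoc, Matrix.trace_mul_comm, Matrix.mul_assoc, hXR, Matrix.trace_one]

theorem rowProj_trace (R : Matrix κ ι ℝ) (X : Matrix κ κ ℝ) (A : Matrix ι ι ℝ) :
    (Rᵀ * X * R * A).trace = (X * (R * A * Rᵀ)).trace := by
  rw [Matrix.mul_assoc, Matrix.mul_assoc, Matrix.trace_mul_comm]
  simp only [Matrix.mul_assoc]

theorem test_one : IsTest (1 : Matrix ι ι ℝ) (Fintype.card ι) := by
  refine ⟨PosSemidef.one, ?_, Matrix.trace_one⟩
  rw [sub_self]; exact PosSemidef.zero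

/-- convex combinations of test matrices -/
theorem IsTest.comb {P Q : Matrix ι ι ℝ} {s t : ℝ} (hP : IsTest P s) (hQ : IsTest Q t) (θ : ℝ)
    (h0 : 0 ≤ θ) (h1 : θ ≤ 1) : IsTest (θ • P + (1 - θ) • Q) (θ * s + (1 - θ) * t) := by
  have h1' : 0 ≤ 1 - θ := by linarith
  refine ⟨(hP.1.smul h0).add (hQ.1.smul h1'), ?_, ?_⟩
  · have e : 1 - (θ • P + (1 - θ) • Q) = θ • (1 - P) + (1 - θ) • (1 - Q) := by
      rw [smul_sub, smul_sub]
      have : (1 : Matrix ι ι ℝ) = θ • 1 + (1 - θ) • 1 := by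
        rw [← add_smul]; simp
      nth_rw 1 [this]
      abel
    rw [e]
    exact (hP.2.1.smul h0).add (hQ.2.1.smul h1')
  · rw [Matrix.trace_add, Matrix.trace_smul, Matrix.trace_smul, hP.2.2, hQ.2.2]
    rfl

theorem comb_trace (P Q A : Matrix ι ι ℝ) (θ : ℝ) :
    ((θ • P + (1 - θ) • Q) * A).trace = θ * (P * A).trace + (1 - θ) * (Q * A).trace := by
  rw [Matrix.add_mul, Matrix.trace_add, Matrix.smul_mul, Matrix.smul_mul, Matrix.trace_smul,
    Matrix.trace_smul]
  rfl

theorem IsTest.le {A : Matrix ι ι ℝ} (hA : A.IsHermitian) {Q : Matrix ι ι ℝ} {t : ℝ}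
    (hQ : IsTest Q t) (k : ℕ) (hk : k ≤ Fintype.card ι) (hkt : t = k) :
    (Q * A).trace ≤ specSum hA k :=
  trace_le hA Q hQ.1 hQ.2.1 k hk (by rw [hQ.2.2, hkt])

/-- interpolation between two test matrices -/
theorem interp {A : Matrix ι ι ℝ} (hA : A.IsHermitian) {P Q : Matrix ι ι ℝ} {s t u w : ℝ}
    (hP : IsTest P s) (hQ : IsTest Q t) (hu : u ≤ (P * A).trace) (hw : w ≤ (Q * A).trace)
    (k : ℕ) (hk : k ≤ Fintype.card ι) (θ : ℝ) (h0 : 0 ≤ θ) (h1 : θ ≤ 1)
    (hkt : θ * s + (1 - θ) * t = k) : θ * u + (1 - θ) * w ≤ specSum hA k := by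
  have := (hP.comb hQ θ h0 h1).le hA k hk hkt
  rw [comb_trace] at this
  have h1' : 0 ≤ 1 - θ := by linarith
  nlinarith [mul_le_mul_of_nonneg_left hu h0, mul_le_mul_of_nonneg_left hw h1']

/-- the sum of the `k` largest eigenvalues of a symmetric matrix `D` with zero diagonal that
vanishes inside the two classes of a partition (`ε = ± 1`) -/
theorem bip_bound {D : Matrix ι ι ℝ} (hD : D.IsHermitian) (ε : ι → ℝ)
    (hε : ∀ i, ε i = 1 ∨ ε i = -1) (hbip : ∀ i j, ε i = ε j → D i j = 0) (k : ℕ)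
    (hk : k ≤ Fintype.card ι) :
    specSum hD k ^ 2 ≤ k * ((∑ i, ∑ j, D i j ^ 2) / 2) ∧
    specSum hD k ^ 2 ≤ ((Fintype.card ι : ℝ) - k) * ((∑ i, ∑ j, D i j ^ 2) / 2) := by
  -- a bound for test matrices
  have key : ∀ (Q : Matrix ι ι ℝ) (t : ℝ), IsTest Q t →
      (∑ i, ∑ j, Q i j * D i j) ^ 2 ≤ t * ((∑ i, ∑ j, D i j ^ 2) / 2) := by
    intro Q t hQ
    have hεε : ∀ i, ε i * ε i = 1 := fun i => by rcases hε i with h | h <;> rw [h] <;> norm_num
    have hJ : (Matrix.of fun i j => ε i * ε j * Q i j).PosSemidef := by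
      have := hQ.1.mul_mul_conjTranspose_same (diagonal ε)
      have e : diagonal ε * Q * (diagonal ε)ᴴ = Matrix.of fun i j => ε i * ε j * Q i j := by
        ext i j
        rw [conjTranspose_eq_transpose_of_trivial, Matrix.diagonal_transpose,
          Matrix.mul_diagonal, Matrix.diagonal_mul, Matrix.of_apply]
        ring
      rwa [e] at this
    have h1 := sum_mul_nonneg hQ.1 hJ
    have h2 := sum_mul_nonneg hQ.1 hQ.2.1
    have h2' : ∑ i, ∑ j, Q i j ^ 2 ≤ t := by
      have e : ∑ i, ∑ j, Q i j * (1 - Q) i j = t - ∑ i, ∑ j, Q i j ^ 2 := by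
        rw [← hQ.2.2, Matrix.trace, ← Finset.sum_sub_distrib]
        refine Finset.sum_congr rfl fun i _ => ?_
        have : ∀ j, Q i j * (1 - Q) i j = (if i = j then Q i j else 0) - Q i j ^ 2 := by
          intro j
          rw [Matrix.sub_apply, Matrix.one_apply]
          split_ifs <;> ring
        rw [Finset.sum_congr rfl fun j _ => this j, Finset.sum_sub_distrib,
          Finset.sum_ite_eq]
        simp [Matrix.diag]
      linarith
    -- the part of Q between the classes
    set O : ℝ := ∑ i, ∑ j, (if ε i = ε j then 0 else Q i j ^ 2) with hO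
    have hO1 : 2 * O ≤ t := by
      have e : ∑ i, ∑ j, Q i j ^ 2 - ∑ i, ∑ j, Q i j * (Matrix.of fun i j => ε i * ε j * Q i j) i j
          = 2 * O := by
        rw [hO, Finset.mul_sum, ← Finset.sum_sub_distrib]
        refine Finset.sum_congr rfl fun i _ => ?_
        rw [Finset.mul_sum, ← Finset.sum_sub_distrib]
        refine Finset.sum_congr rfl fun j _ => ?_
        rw [Matrix.of_apply]
        split_ifs with h
        · rw [h, hεε]; ring
        · have : ε i * ε j = -1 := by
            rcases hε i with h1 | h1 <;> rcases hε j with h2 | h2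
            · exact absurd (h1.trans h2.symm) h
            · rw [h1, h2]; norm_num
            · rw [h1, h2]; norm_num
            · exact absurd (h1.trans h2.symm) h
          rw [this]; ring
      linarith
    have hcs : (∑ i, ∑ j, Q i j * D i j) ^ 2 ≤ O * ∑ i, ∑ j, D i j ^ 2 := by
      have e1 : ∑ i, ∑ j, Q i j * D i j
          = ∑ p ∈ (univ : Finset (ι × ι)), (if ε p.1 = ε p.2 then 0 else Q p.1 p.2) * D p.1 p.2 := by
        rw [← Finset.univ_product_univ, Finset.sum_product]
        refine Finset.sum_congr rfl fun i _ => Finset.sum_congr rfl fun j _ => ?_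
        dsimp only
        split_ifs with h
        · rw [hbip i j h]; ring
        · rfl
      have e2 : O = ∑ p ∈ (univ : Finset (ι × ι)), (if ε p.1 = ε p.2 then 0 else Q p.1 p.2) ^ 2 := by
        rw [hO, ← Finset.univ_product_univ, Finset.sum_product]
        refine Finset.sum_congr rfl fun i _ => Finset.sum_congr rfl fun j _ => ?_
        dsimp only
        split_ifs <;> ring
      have e3 : ∑ i, ∑ j, D i j ^ 2 = ∑ p ∈ (univ : Finset (ι × ι)), D p.1 p.2 ^ 2 := by
        rw [← Finset.univ_product_univ, Finset.sum_product]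
      rw [e1, e2, e3]
      exact Finset.sum_mul_sq_le_sq_mul_sq _ _ _
    have hpos : 0 ≤ ∑ i, ∑ j, D i j ^ 2 :=
      Finset.sum_nonneg fun i _ => Finset.sum_nonneg fun j _ => sq_nonneg _
    nlinarith
  obtain ⟨Q, hQ0, hQ1, hQt, hQD⟩ := exists_proj hD k hk
  have tr : ∀ X : Matrix ι ι ℝ, (X * D).trace = ∑ i, ∑ j, X i j * D i j := by
    intro X
    simp only [Matrix.trace, Matrix.diag, Matrix.mul_apply]
    refine Finset.sum_congr rfl fun i _ => Finset.sum_congr rfl fun j _ => ?_
    have := hD.apply j i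
    simp at this
    rw [this]
  constructor
  · rw [← hQD, tr]
    exact key Q k ⟨hQ0, hQ1, hQt⟩
  · have h := key (1 - Q) ((Fintype.card ι : ℝ) - k) ⟨hQ1, by rw [sub_sub_cancel]; exact hQ0, by
      rw [Matrix.trace_sub, hQt, Matrix.trace_one]⟩
    have hdiag : D.trace = 0 := by
      rw [Matrix.trace]
      exact Finset.sum_eq_zero fun i _ => hbip i i rfl
    have e : ∑ i, ∑ j, (1 - Q) i j * D i j = - specSum hD k := by
      rw [← tr, Matrix.sub_mul, Matrix.one_mul, Matrix.trace_sub, hdiag, hQD]; ring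
    rw [e, neg_sq] at h
    exact h

end Pool.Q63.CL
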