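import Pool.Agent.Q63.CL.Svd
import Pool.Agent.Q63.CL.Lift
import Pool.Agent.Q63.CL.DD

set_option autoImplicit false

/-!
# The singular systems of a two-dimensional complex
-/

open Matrix Finset

namespace Pool.Q63.CL

section abstract

variable {ι J K : Type} [Fintype ι] [DecidableEq ι] [Fintype J] [DecidableEq J] [Fintype K]
  [DecidableEq K]

theorem supp_W {A P : Matrix ι ι ℝ} {W X : Matrix J ι ℝ} {h : J → ℝ} (hpos : ∀ j, 0 < h j)
    (hXA : X * A = diagonal (fun j => √(h j)) * W) (hP : A * P = A) : W * P = W := by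
  have hd3 : diagonal (fun j => (√(h j))⁻¹) * diagonal (fun j => √(h j)) = 1 := by
    rw [Matrix.diagonal_mul_diagonal, ← Matrix.diagonal_one]
    congr 1; ext j
    exact inv_mul_cancel₀ (Real.sqrt_pos.2 (hpos j)).ne'
  have hW : W = diagonal (fun j => (√(h j))⁻¹) * (X * A) := by
    rw [hXA, ← Matrix.mul_assoc, hd3, Matrix.one_mul]
  rw [hW, Matrix.mul_assoc, Matrix.mul_assoc, hP]

theorem supp_X {A P : Matrix ι ι ℝ} {W X : Matrix J ι ℝ} {h : J → ℝ} (hpos : ∀ j, 0 < h j)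
    (hAW : A * Wᵀ = Xᵀ * diagonal (fun j => √(h j))) (hPs : Pᵀ = P) (hP : P * A = A) :
    X * P = X := by
  have hd3 : diagonal (fun j => √(h j)) * diagonal (fun j => (√(h j))⁻¹) = 1 := by
    rw [Matrix.diagonal_mul_diagonal, ← Matrix.diagonal_one]
    congr 1; ext j
    exact mul_inv_cancel₀ (Real.sqrt_pos.2 (hpos j)).ne'
  have hX : Xᵀ = A * Wᵀ * diagonal (fun j => (√(h j))⁻¹) := by
    rw [hAW, Matrix.mul_assoc, hd3, Matrix.mul_one]
  have h1 : P * Xᵀ = Xᵀ := by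
    rw [hX, ← Matrix.mul_assoc, ← Matrix.mul_assoc, hP]
  have := congrArg Matrix.transpose h1
  rwa [Matrix.transpose_mul, Matrix.transpose_transpose, hPs] at this

theorem orth {P P' : Matrix ι ι ℝ} {Y : Matrix J ι ℝ} {Y' : Matrix K ι ℝ} (h1 : Y * P = Y)
    (h2 : Y' * P' = Y') (h3 : P * P' = 0) (h4 : P'ᵀ = P') : Y * Y'ᵀ = 0 := by
  calc Y * Y'ᵀ = (Y * P) * (Y' * P')ᵀ := by rw [h1, h2]
    _ = Y * (P * P') * Y'ᵀ := by
      rw [Matrix.transpose_mul, h4]; simp only [Matrix.mul_assoc]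
    _ = 0 := by rw [h3, Matrix.mul_zero, Matrix.zero_mul]

theorem orthM {P P' M : Matrix ι ι ℝ} {Y : Matrix J ι ℝ} (h1 : Y * P = Y)
    (h2 : P' * M = M) (h3 : P * P' = 0) : Y * M = 0 := by
  calc Y * M = (Y * P) * (P' * M) := by rw [h1, h2]
    _ = Y * (P * P') * M := by simp only [Matrix.mul_assoc]
    _ = 0 := by rw [h3, Matrix.mul_zero, Matrix.zero_mul]

end abstract

variable {α : Type} [LinearOrder α]

/-- the part of the exterior derivative on the sets with `j` elements -/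
def lvl (G : Finset (Finset α)) (o : Finset α → ℝ) (j : ℕ) : Matrix G G ℝ := fun x y =>
  if (x : Finset α).card = j then inc o x y else 0

/-- the projection on the sets with `j` elements -/
def pr (G : Finset (Finset α)) (j : ℕ) : Matrix G G ℝ :=
  diagonal (fun x => if (x : Finset α).card = j then 1 else 0)

theorem inc_ne {o : Finset α → ℝ} {x y : Finset α} (h : inc o x y ≠ 0) :
    y ⊆ x ∧ x.card = y.card + 1 := by
  by_contra hc
  exact h (if_neg hc)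

theorem lvl_pr (G : Finset (Finset α)) (o : Finset α → ℝ) (j : ℕ) :
    lvl G o (j + 1) * pr G j = lvl G o (j + 1) := by
  ext x y
  rw [pr, Matrix.mul_diagonal]
  split_ifs with h
  · rw [mul_one]
  · rw [mul_zero]
    unfold lvl
    split_ifs with h'
    · by_contra hc
      have := inc_ne (Ne.symm hc)
      omega
    · rfl

theorem pr_lvl (G : Finset (Finset α)) (o : Finset α → ℝ) (j : ℕ) :
    pr G j * lvl G o j = lvl G o j := by
  ext x y
  rw [pr, Matrix.diagonal_mul]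
  unfold lvl
  split_ifs <;> simp

theorem pr_pr (G : Finset (Finset α)) {i j : ℕ} (h : i ≠ j) : pr G i * pr G j = 0 := by
  rw [pr, pr, Matrix.diagonal_mul_diagonal, ← Matrix.diagonal_zero]
  congr 1; ext x
  split_ifs with h1 h2
  · exact absurd (h1.symm.trans h2) h
  all_goals simp

theorem pr_symm (G : Finset (Finset α)) (j : ℕ) : (pr G j)ᵀ = pr G j := by
  rw [pr, Matrix.diagonal_transpose]

theorem lvl_lvl {G : Finset (Finset α)} (hG : IsComplex G) (o : Finset α → ℝ)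
    (ho : ∀ x, o x = 1 ∨ o x = -1) (j : ℕ) : lvl G o (j + 1) * lvl G o j = 0 := by
  ext x z
  rw [Matrix.mul_apply, Matrix.zero_apply]
  unfold lvl
  by_cases hx : (x : Finset α).card = j + 1
  · rw [← dd_zero hG o ho x z]
    refine Finset.sum_congr rfl fun y _ => ?_
    rw [if_pos hx]
    by_cases h : inc o (x : Finset α) y = 0
    · rw [h, zero_mul, zero_mul]
    · have := inc_ne h
      rw [if_pos (by omega)]
  · exact Finset.sum_eq_zero fun y _ => by rw [if_neg hx, zero_mul]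

theorem dirac_lvl {G : Finset (Finset α)} (hG : IsComplex G) (o : Finset α → ℝ)
    (h3 : ∀ x ∈ G, x.card ≤ 3) :
    dirac G o = (lvl G o 2 + lvl G o 3) + (lvl G o 2 + lvl G o 3)ᵀ := by
  have : extD G o = lvl G o 2 + lvl G o 3 := by
    ext x y
    rw [Matrix.add_apply]
    unfold lvl extD
    have hx1 : 1 ≤ (x : Finset α).card := Finset.card_pos.2 (hG.1 _ x.2)
    have hx3 := h3 _ x.2
    rcases (by omega : (x : Finset α).card = 1 ∨ (x : Finset α).card = 2 ∨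
      (x : Finset α).card = 3) with h | h | h
    · rw [if_neg (by omega), if_neg (by omega), add_zero]
      by_contra hc
      have h' := inc_ne hc
      have : 1 ≤ (y : Finset α).card := Finset.card_pos.2 (hG.1 _ y.2)
      omega
    · rw [if_pos h, if_neg (by omega), add_zero]
    · rw [if_neg (by omega), if_pos h, zero_add]
  rw [dirac, this]

theorem lvl_row {G : Finset (Finset α)} (hG : IsComplex G) (o : Finset α → ℝ)
    (ho : ∀ x, o x = 1 ∨ o x = -1) (j : ℕ) (hj : 2 ≤ j) (x : G) :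
    ∑ z, lvl G o j x z ^ 2 = if (x : Finset α).card = j then (j : ℝ) else 0 := by
  unfold lvl
  split_ifs with h
  · rw [Finset.sum_congr rfl fun z _ => inc_sq o ho _ _, card_facets hG x (by omega), h]
  · simp

/-- everything about the singular systems -/
theorem two_sys {G : Finset (Finset α)} (hG : IsComplex G) (o : Finset α → ℝ)
    (ho : ∀ x, o x = 1 ∨ o x = -1) (h3 : ∀ x ∈ G, x.card ≤ 3) :
    ∃ (J0 : Type) (_ : Fintype J0) (_ : DecidableEq J0) (J1 : Type) (_ : Fintype J1)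
      (_ : DecidableEq J1) (W0 X0 : Matrix J0 G ℝ) (h0 : J0 → ℝ) (W1 X1 : Matrix J1 G ℝ)
      (h1 : J1 → ℝ), ((∀ j, 0 < h0 j) ∧ (∀ j, 0 < h1 j) ∧ W0 * W0ᵀ = 1 ∧ X0 * X0ᵀ = 1 ∧
        W1 * W1ᵀ = 1 ∧ X1 * X1ᵀ = 1) ∧ (W0 * X0ᵀ = 0 ∧ W0 * X1ᵀ = 0 ∧ W0 * W1ᵀ = 0 ∧
        X0 * X1ᵀ = 0 ∧ W1 * X0ᵀ = 0 ∧ W1 * X1ᵀ = 0) ∧
      (X0 * lvl G o 2 = diagonal (fun j => √(h0 j)) * W0 ∧
        X1 * lvl G o 3 = diagonal (fun j => √(h1 j)) * W1) ∧
      (W0 * pr G 1 = W0 ∧ X0 * pr G 1 = 0 ∧ W0 * lvl G o 2 = 0 ∧ W0 * lvl G o 3 = 0 ∧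
        X0 * lvl G o 3 = 0 ∧ X1 * pr G 1 = 0 ∧ X1 * lvl G o 2 = 0 ∧ W1 * pr G 2 = W1 ∧
        X1 * pr G 2 = 0 ∧ W1 * lvl G o 3 = 0 ∧ W1 * pr G 1 = 0 ∧ X1 * pr G 3 = X1) ∧
      dirac G o = (fromRows X0 X1)ᵀ * diagonal (Sum.elim (fun j => √(h0 j)) (fun j => √(h1 j)))
          * fromRows W0 W1 + (fromRows W0 W1)ᵀ * diagonal (Sum.elim (fun j => √(h0 j))
            (fun j => √(h1 j))) * fromRows X0 X1 ∧
      (lvl G o 3)ᵀ * lvl G o 3 = W1ᵀ * diagonal h1 * W1 := by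
  obtain ⟨J0, f0, d0, W0, X0, h0, hp0, hWW0, hXX0, hAW0, hXA0, hA0, hN0⟩ := svd (lvl G o 2)
  obtain ⟨J1, f1, d1, W1, X1, h1, hp1, hWW1, hXX1, hAW1, hXA1, hA1, hN1⟩ := svd (lvl G o 3)
  have a1 : W0 * pr G 1 = W0 := supp_W hp0 hXA0 (lvl_pr G o 1)
  have a2 : X0 * pr G 2 = X0 := supp_X hp0 hAW0 (pr_symm G 2) (pr_lvl G o 2)
  have a3 : W1 * pr G 2 = W1 := supp_W hp1 hXA1 (lvl_pr G o 2)
  have a4 : X1 * pr G 3 = X1 := supp_X hp1 hAW1 (pr_symm G 3) (pr_lvl G o 3)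
  have b12 := pr_pr G (by norm_num : (1 : ℕ) ≠ 2)
  have b13 := pr_pr G (by norm_num : (1 : ℕ) ≠ 3)
  have b23 := pr_pr G (by norm_num : (2 : ℕ) ≠ 3)
  have b21 := pr_pr G (by norm_num : (2 : ℕ) ≠ 1)
  have b31 := pr_pr G (by norm_num : (3 : ℕ) ≠ 1)
  have b32 := pr_pr G (by norm_num : (3 : ℕ) ≠ 2)
  have c10 : W1 * X0ᵀ = 0 := by
    have hd0 : diagonal (fun j => √(h0 j)) * diagonal (fun j => (√(h0 j))⁻¹) = 1 := by
      rw [Matrix.diagonal_mul_diagonal, ← Matrix.diagonal_one]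
      congr 1; ext j
      exact mul_inv_cancel₀ (Real.sqrt_pos.2 (hp0 j)).ne'
    have hd1 : diagonal (fun j => (√(h1 j))⁻¹) * diagonal (fun j => √(h1 j)) = 1 := by
      rw [Matrix.diagonal_mul_diagonal, ← Matrix.diagonal_one]
      congr 1; ext j
      exact inv_mul_cancel₀ (Real.sqrt_pos.2 (hp1 j)).ne'
    have hX : X0ᵀ = lvl G o 2 * W0ᵀ * diagonal (fun j => (√(h0 j))⁻¹) := by
      rw [hAW0, Matrix.mul_assoc, hd0, Matrix.mul_one]
    have hW : W1 = diagonal (fun j => (√(h1 j))⁻¹) * (X1 * lvl G o 3) := by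
      rw [hXA1, ← Matrix.mul_assoc, hd1, Matrix.one_mul]
    rw [hX, hW]
    calc diagonal (fun j => (√(h1 j))⁻¹) * (X1 * lvl G o 3)
          * (lvl G o 2 * W0ᵀ * diagonal (fun j => (√(h0 j))⁻¹))
        = diagonal (fun j => (√(h1 j))⁻¹) * X1 * (lvl G o 3 * lvl G o 2) * W0ᵀ
          * diagonal (fun j => (√(h0 j))⁻¹) := by simp only [Matrix.mul_assoc]
      _ = 0 := by
        rw [lvl_lvl hG o ho 2, Matrix.mul_zero, Matrix.zero_mul, Matrix.zero_mul]
  refine ⟨J0, f0, d0, J1, f1, d1, W0, X0, h0, W1, X1, h1, ⟨hp0, hp1, hWW0, hXX0, hWW1, hXX1⟩,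
    ⟨orth a1 a2 b12 (pr_symm G 2), orth a1 a4 b13 (pr_symm G 3), orth a1 a3 b12 (pr_symm G 2),
      orth a2 a4 b23 (pr_symm G 3), c10, orth a3 a4 b23 (pr_symm G 3)⟩, ⟨hXA0, hXA1⟩,
    ⟨a1, ?_, orthM a1 (pr_lvl G o 2) b12, orthM a1 (pr_lvl G o 3) b13,
      orthM a2 (pr_lvl G o 3) b23, ?_, orthM a4 (pr_lvl G o 2) b32, a3, ?_,
      orthM a3 (pr_lvl G o 3) b23, ?_, a4⟩, ?_, hN1⟩
  · rw [← a2, Matrix.mul_assoc, b21, Matrix.mul_zero]
  · rw [← a4, Matrix.mul_assoc, b31, Matrix.mul_zero]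
  · rw [← a4, Matrix.mul_assoc, b32, Matrix.mul_zero]
  · rw [← a3, Matrix.mul_assoc, b21, Matrix.mul_zero]
  · rw [dirac_lvl hG o h3]
    have e1 : lvl G o 2 + lvl G o 3 = (fromRows X0 X1)ᵀ * diagonal (Sum.elim
        (fun j => √(h0 j)) (fun j => √(h1 j))) * fromRows W0 W1 := by
      rw [rows_sum, ← hA0, ← hA1]
    have e2 : (lvl G o 2 + lvl G o 3)ᵀ = (fromRows W0 W1)ᵀ * diagonal (Sum.elim
        (fun j => √(h0 j)) (fun j => √(h1 j))) * fromRows X0 X1 := by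
      rw [e1, Matrix.transpose_mul, Matrix.transpose_mul, Matrix.transpose_transpose,
        Matrix.diagonal_transpose, Matrix.mul_assoc]
    rw [e2, e1]

end Pool.Q63.CL
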