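import Pool.Agent.Q63.CL.Edges
import Pool.Agent.Q63.CL.LamOne
import Pool.Agent.Q63.CL.Rng

set_option autoImplicit false

/-!
# The comparison for two-dimensional complexes
-/

open Matrix Finset

namespace Pool.Q63.CL

theorem pt_a (μ s : ℝ) (hμ : 1 ≤ μ) (hs : 0 < s) :
    max (√s - μ) 0 ≤ (1 / 2) * max ((1 + s / 2) - μ) 0 := by
  have h1 := Real.sq_sqrt hs.le
  refine max_le ?_ (mul_nonneg (by norm_num) (le_max_right _ _))
  refine le_trans ?_ (mul_le_mul_of_nonneg_left (le_max_left _ _) (by norm_num))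
  nlinarith [sq_nonneg (√s - 2)]

theorem pt_b (μ s : ℝ) (hμ : 1 ≤ μ) (hμ2 : μ ≤ 1.7) (hs : 0 < s) :
    max (√s - μ) 0 ≤ max (s / 3 - μ) 0 + min (1 / (4 * μ) * s) (√(3 * μ) - μ) := by
  have hμ0 : 0 < μ := by linarith
  have hκ : 0 ≤ √(3 * μ) - μ := by
    have : μ ≤ √(3 * μ) := Real.le_sqrt_of_sq_le (by nlinarith)
    linarith
  have h1 := Real.sq_sqrt hs.le
  have h0 : 0 ≤ min (1 / (4 * μ) * s) (√(3 * μ) - μ) := le_min (by positivity) hκ
  refine max_le ?_ (add_nonneg (le_max_right _ _) h0)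
  rcases min_choice (1 / (4 * μ) * s) (√(3 * μ) - μ) with h | h
  · rw [h]
    have h2 : √s - μ ≤ 1 / (4 * μ) * s := by
      rw [one_div, inv_mul_eq_div, le_div_iff₀ (by linarith)]
      nlinarith [sq_nonneg (√s - 2 * μ)]
    have := le_max_right (s / 3 - μ) 0
    linarith
  · rw [h]
    set q := √(3 * μ) with hq
    have hq2 : q ^ 2 = 3 * μ := Real.sq_sqrt (by linarith)
    rcases le_total s (3 * μ) with h2 | h2
    · have : √s ≤ q := Real.sqrt_le_sqrt h2
      have := le_max_right (s / 3 - μ) 0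
      linarith
    · have h3 : q ≤ √s := Real.sqrt_le_sqrt h2
      have h4 : (1.5 : ℝ) ≤ q := Real.le_sqrt_of_sq_le (by norm_num; linarith)
      have h5 := le_max_left (s / 3 - μ) 0
      have h6 : 0 ≤ (√s - q) * (√s + q - 3) := mul_nonneg (by linarith) (by linarith)
      nlinarith

theorem pt_c (μ s : ℝ) (hμ : 1.7 ≤ μ) (hs : 0 < s) :
    max (√s - μ) 0 ≤ (7 / 20) * max ((1 + s / 2) - μ) 0 := by
  have h1 := Real.sq_sqrt hs.le
  refine max_le ?_ (mul_nonneg (by norm_num) (le_max_right _ _))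
  refine le_trans ?_ (mul_le_mul_of_nonneg_left (le_max_left _ _) (by norm_num))
  nlinarith [sq_nonneg (√s - 20 / 7)]

theorem pt_d (μ s : ℝ) (hμ : 1.7 ≤ μ) (hs : 0 < s) :
    max (√s - μ) 0 ≤ (13 / 20) * max ((1 + s / 3) - μ) 0 := by
  have h1 := Real.sq_sqrt hs.le
  refine max_le ?_ (mul_nonneg (by norm_num) (le_max_right _ _))
  refine le_trans ?_ (mul_le_mul_of_nonneg_left (le_max_left _ _) (by norm_num))
  nlinarith [sq_nonneg (√s - 30 / 13)]

variable {α : Type} [LinearOrder α]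

theorem small_k {G : Finset (Finset α)} (hG : IsComplex G) (o : Finset α → ℝ)
    (ho : ∀ x, o x = 1 ∨ o x = -1) (h3 : ∀ x ∈ G, x.card ≤ 3) (k : ℕ) (hk1 : 1 ≤ k)
    (hk : k ≤ G.card) (hkV : k ≤ (verts G).card) :
    specSum (dirac_herm G o) k ≤ specSum (conn_herm G) k := by
  classical
  have hk' : k ≤ Fintype.card G := by rw [Fintype.card_coe]; exact hk
  set μ := (conn_herm G).eigenvalues₀ ⟨k - 1, by omega⟩ with hμ
  have hμ1 : 1 ≤ μ := lam_ge_one hG k hk1 hk' hkV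
  have hdual : ∀ (Q : Matrix G G ℝ) (t : ℝ), IsTest Q t →
      (Q * conn G).trace - μ * t ≤ specSum (conn_herm G) k - k * μ :=
    fun Q t hQ => dual (conn_herm G) k hk1 hk' hQ
  obtain ⟨J0, f0, J1, f1, d1, h0, W1, h1, hp0, hp1, hWW1, hN1, hU, hX1, hX2, hX3⟩ :=
    tests_two hG o ho h3
  have hD := hU k μ (by linarith) hk'
  obtain ⟨Q1, t1, hQ1, hs1⟩ := hX1 μ
  have hd1 := hdual Q1 t1 hQ1
  rcases le_total μ 1.7 with hμ2 | hμ2
  · -- small μ
    obtain ⟨P, t3, hP, hs3, hPz⟩ := hX3 μ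
    obtain ⟨Q, hQ, hQs, hQz⟩ := graph_W hG (fun v : verts G => 2 ≤ deg G (v : α))
    have hS := direct_sum hQ hP (fun x : G => (x : Finset α).card = 3) hQz hPz
    have hd3 := hdual _ _ hS
    rw [Matrix.add_mul, Matrix.trace_add] at hd3
    have he := edge_sum hG o ho μ hμ1 hμ2
    have hκ : 0 ≤ √(3 * μ) - μ := by
      have : μ ≤ √(3 * μ) := Real.le_sqrt_of_sq_le (by nlinarith)
      linarith
    have hj := jensen W1 hWW1 h1 _ hN1 (1 / (4 * μ)) (√(3 * μ) - μ) hκ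
    have e0 : ∑ j, max (√(h0 j) - μ) 0 ≤ (1 / 2) * ∑ j, max ((1 + h0 j / 2) - μ) 0 := by
      rw [Finset.mul_sum]
      exact Finset.sum_le_sum fun j _ => pt_a μ _ hμ1 (hp0 j)
    have e1 : ∑ j, max (√(h1 j) - μ) 0 ≤ ∑ j, max (h1 j / 3 - μ) 0
        + ∑ j, min (1 / (4 * μ) * h1 j) (√(3 * μ) - μ) := by
      rw [← Finset.sum_add_distrib]
      exact Finset.sum_le_sum fun j _ => pt_b μ _ hμ1 hμ2 (hp1 j)
    have e2 : ∑ v : {v : verts G // 2 ≤ deg G (v : α)}, (deg G ((v : verts G) : α) - μ)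
        = ∑ v : {v : verts G // 2 ≤ deg G (v : α)}, deg G ((v : verts G) : α)
          - (Fintype.card {v : verts G // 2 ≤ deg G (v : α)} : ℝ) * μ := by
      rw [Finset.sum_sub_distrib, Finset.sum_const, nsmul_eq_mul, Finset.card_univ]
    rw [e2] at he
    linarith
  · -- large μ
    obtain ⟨Q2, t2, hQ2, hs2⟩ := hX2 μ
    have hd2 := hdual Q2 t2 hQ2
    have e0 : ∑ j, max (√(h0 j) - μ) 0 ≤ (7 / 20) * ∑ j, max ((1 + h0 j / 2) - μ) 0 := by
      rw [Finset.mul_sum]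
      exact Finset.sum_le_sum fun j _ => pt_c μ _ hμ2 (hp0 j)
    have e1 : ∑ j, max (√(h1 j) - μ) 0 ≤ (13 / 20) * ∑ j, max ((1 + h1 j / 3) - μ) 0 := by
      rw [Finset.mul_sum]
      exact Finset.sum_le_sum fun j _ => pt_d μ _ hμ2 (hp1 j)
    have e2 : 0 ≤ ∑ j, max (h1 j / 3 - μ) 0 := Finset.sum_nonneg fun j _ => le_max_right _ _
    linarith

/-- **Dimension at most two.** -/
theorem two_dim {G : Finset (Finset α)} (hG : IsComplex G) (o : Finset α → ℝ)
    (ho : ∀ x, o x = 1 ∨ o x = -1) (h3 : ∀ x ∈ G, x.card ≤ 3) (k : ℕ) (hk : k ≤ G.card) :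
    specSum (dirac_herm G o) k ≤ specSum (conn_herm G) k := by
  rcases Nat.lt_or_ge k (verts G).card with h | h
  · rcases Nat.eq_zero_or_pos k with h0 | h0
    · subst h0
      unfold specSum
      simp
    · exact small_k hG o ho h3 k h0 hk h.le
  · exact dim_two hG o ho h3 k hk h

end Pool.Q63.CL
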