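import Pool.Agent.Q63.CL.Two

set_option autoImplicit false

/-!
# Bounds for the two matrices of a two-dimensional complex
-/

open Matrix Finset

namespace Pool.Q63.CL

variable {α : Type} [LinearOrder α]

/-- the multiplier root -/
noncomputable def KK (G : Finset (Finset α)) (o : Finset α → ℝ) (s t : ℝ) : Matrix G G ℝ :=
  pr G 1 + s • pr G 2 + t • lvl G o 2 + (1 / √3) • lvl G o 3

theorem KK_apply (G : Finset (Finset α)) (o : Finset α → ℝ) (s t : ℝ) (x z : G) :
    KK G o s t x z = (if x = z then (if (x : Finset α).card = 1 then 1 else 0) else 0)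
      + s * (if x = z then (if (x : Finset α).card = 2 then 1 else 0) else 0)
      + t * lvl G o 2 x z + (1 / √3) * lvl G o 3 x z := by
  unfold KK pr
  rw [Matrix.add_apply, Matrix.add_apply, Matrix.add_apply, Matrix.smul_apply,
    Matrix.smul_apply, Matrix.smul_apply, Matrix.diagonal_apply, Matrix.diagonal_apply]
  rfl

theorem KK_supp (G : Finset (Finset α)) (o : Finset α → ℝ) (s t : ℝ) (x z : G)
    (h : KK G o s t x z ≠ 0) : (z : Finset α) ⊆ x := by
  by_contra hc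
  apply h
  have hne : x ≠ z := by rintro rfl; exact hc (Finset.Subset.refl _)
  have hi : inc o (x : Finset α) z = 0 := by
    by_contra hi
    exact hc (inc_ne hi).1
  rw [KK_apply, if_neg hne, if_neg hne]
  unfold lvl
  rw [hi]; simp

theorem KK_row {G : Finset (Finset α)} (hG : IsComplex G) (o : Finset α → ℝ)
    (ho : ∀ x, o x = 1 ∨ o x = -1) (h3 : ∀ x ∈ G, x.card ≤ 3) (s t : ℝ)
    (hst : s ^ 2 + 2 * t ^ 2 = 1) (x : G) : ∑ z, KK G o s t x z ^ 2 = 1 := by
  have hx1 : 1 ≤ (x : Finset α).card := Finset.card_pos.2 (hG.1 _ x.2)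
  have hx3 := h3 _ x.2
  rcases (by omega : (x : Finset α).card = 1 ∨ (x : Finset α).card = 2 ∨
      (x : Finset α).card = 3) with h | h | h
  · have e : ∀ z, KK G o s t x z ^ 2 = if x = z then 1 else 0 := by
      intro z
      rw [KK_apply]
      have h20 : lvl G o 2 x z = 0 := by unfold lvl; rw [if_neg (by omega)]
      have h30 : lvl G o 3 x z = 0 := by unfold lvl; rw [if_neg (by omega)]
      rw [h20, h30]
      simp only [h]
      by_cases hz : x = z <;> simp [hz]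
    rw [Finset.sum_congr rfl fun z _ => e z]; simp
  · have e : ∀ z, KK G o s t x z ^ 2 = (if x = z then s ^ 2 else 0) + t ^ 2 * lvl G o 2 x z ^ 2 := by
      intro z
      rw [KK_apply]
      have h30 : lvl G o 3 x z = 0 := by unfold lvl; rw [if_neg (by omega)]
      rw [h30]
      simp only [h]
      by_cases hz : x = z
      · subst hz
        have : lvl G o 2 x x = 0 := by
          unfold lvl
          rw [if_pos h]
          by_contra hc
          have := inc_ne hc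
          omega
        rw [this]; simp
      · simp [hz, mul_pow]
    rw [Finset.sum_congr rfl fun z _ => e z, Finset.sum_add_distrib, ← Finset.mul_sum,
      lvl_row hG o ho 2 le_rfl, if_pos h]
    simp only [Finset.sum_ite_eq, mem_univ, if_true]
    push_cast; linarith
  · have e : ∀ z, KK G o s t x z ^ 2 = (1 / 3) * lvl G o 3 x z ^ 2 := by
      intro z
      rw [KK_apply]
      have h20 : lvl G o 2 x z = 0 := by unfold lvl; rw [if_neg (by omega)]
      rw [h20]
      simp only [h]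
      have h33 : (1 / √3 : ℝ) ^ 2 = 1 / 3 := by
        rw [div_pow, Real.sq_sqrt (by norm_num : (0 : ℝ) ≤ 3)]; norm_num
      have : (if x = z then (if (3 : ℕ) = 1 then (1 : ℝ) else 0) else 0)
          + s * (if x = z then (if (3 : ℕ) = 2 then (1 : ℝ) else 0) else 0) + t * 0
          + 1 / √3 * lvl G o 3 x z = (1 / √3) * lvl G o 3 x z := by
        simp
      rw [this, mul_pow, h33]
    rw [Finset.sum_congr rfl fun z _ => e z, ← Finset.mul_sum,
      lvl_row hG o ho 3 (by norm_num), if_pos h]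
    norm_num

theorem tests_two {G : Finset (Finset α)} (hG : IsComplex G) (o : Finset α → ℝ)
    (ho : ∀ x, o x = 1 ∨ o x = -1) (h3 : ∀ x ∈ G, x.card ≤ 3) :
    ∃ (J0 : Type) (_ : Fintype J0) (J1 : Type) (_ : Fintype J1) (_ : DecidableEq J1)
      (h0 : J0 → ℝ) (W1 : Matrix J1 G ℝ) (h1 : J1 → ℝ), (∀ j, 0 < h0 j) ∧ (∀ j, 0 < h1 j) ∧
      W1 * W1ᵀ = 1 ∧ (lvl G o 3)ᵀ * lvl G o 3 = W1ᵀ * diagonal h1 * W1 ∧
      (∀ (k : ℕ) (l : ℝ), 0 ≤ l → k ≤ Fintype.card G → specSum (dirac_herm G o) k - l * k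
        ≤ ∑ j, max (√(h0 j) - l) 0 + ∑ j, max (√(h1 j) - l) 0) ∧
      (∀ l : ℝ, ∃ Q t, IsTest Q t ∧ ∑ j, max ((1 + h0 j / 2) - l) 0 + ∑ j, max (h1 j / 3 - l) 0
        ≤ (Q * conn G).trace - l * t) ∧
      (∀ l : ℝ, ∃ Q t, IsTest Q t ∧ ∑ j, max ((1 + h1 j / 3) - l) 0
        ≤ (Q * conn G).trace - l * t) ∧
      (∀ l : ℝ, ∃ Q t, IsTest Q t ∧ ∑ j, max (h1 j / 3 - l) 0 ≤ (Q * conn G).trace - l * t ∧
        ∀ x y : G, (x : Finset α).card ≠ 3 → Q x y = 0) := by
  obtain ⟨J0, f0, d0, J1, f1, d1, W0, X0, h0, W1, X1, h1, ⟨hp0, hp1, hWW0, hXX0, hWW1, hXX1⟩,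
    ⟨o1, o2, o3, o4, o5, o6⟩, ⟨hXA0, hXA1⟩, ⟨s1, s2, s3, s4, s5, s6, s7, s8, s9, s10, s11, s12⟩,
    hD, hN1⟩ := two_sys hG o ho h3
  obtain ⟨Z0, z1, z2, S0, T0, z3⟩ := boost 2 (by norm_num) (pr G 1) (lvl G o 2) W0 X0 h0 hp0
    hWW0 hXX0 o1 s1 s2 s3 hXA0
  obtain ⟨Z1, y1, y2, S1, T1, y3⟩ := boost 3 (by norm_num) (pr G 2) (lvl G o 3) W1 X1 h1 hp1
    hWW1 hXX1 o6 s8 s9 s10 hXA1
  have t1 : W1 * W0ᵀ = 0 := by
    have := congrArg Matrix.transpose o3
    rwa [Matrix.transpose_mul, Matrix.transpose_transpose, Matrix.transpose_zero] at this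
  have hrow1 := KK_row hG o ho h3 0 (1 / √2) (by
    rw [div_pow, Real.sq_sqrt (by norm_num : (0 : ℝ) ≤ 2)]; norm_num)
  have hrow2 := KK_row hG o ho h3 1 0 (by norm_num)
  have hX1K : ∀ s : ℝ, ∀ t : ℝ, X1 * KK G o s t = diagonal (fun j => √(h1 j / 3)) * W1 := by
    intro s t
    rw [KK, Matrix.mul_add, Matrix.mul_add, Matrix.mul_add, Matrix.mul_smul, Matrix.mul_smul,
      Matrix.mul_smul, s6, s7, s9, hXA1, smul_zero, smul_zero, zero_add, zero_add, zero_add,
      ← Matrix.smul_mul, ← Matrix.diagonal_smul]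
    congr 2
    ext j
    show (1 / √3) * √(h1 j) = √(h1 j / 3)
    rw [Real.sqrt_div (hp1 j).le]; ring
  refine ⟨J0, f0, J1, f1, d1, h0, W1, h1, hp0, hp1, hWW1, hN1, ?_, ?_, ?_, ?_⟩
  · intro k l hl hk
    obtain ⟨Q, q0, q1, qt, qD⟩ := exists_proj (dirac_herm G o) k hk
    have := upper (fromRows W0 W1) (fromRows X0 X1) (Sum.elim (fun j => √(h0 j))
      (fun j => √(h1 j))) (by rintro (j | j) <;> exact Real.sqrt_nonneg _)
      (rows_one W0 W1 hWW0 hWW1 o3) (rows_one X0 X1 hXX0 hXX1 o4)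
      (rows_zero W0 X0 W1 X1 o1 o6 o2 o5) (dirac G o) hD ⟨q0, q1, qt⟩ l hl
    rw [qD, Fintype.sum_sum_type] at this
    exact this
  · intro l
    have hZK : fromRows Z0 X1 * KK G o 0 (1 / √2) = diagonal (fun j =>
        √(Sum.elim (fun j => 1 + h0 j / 2) (fun j => h1 j / 3) j)) * fromRows W0 W1 := by
      rw [Matrix.fromRows_mul, hX1K]
      have e0 : Z0 * KK G o 0 (1 / √2) = diagonal (fun j => √(1 + h0 j / 2)) * W0 := by
        have e3 : Z0 * lvl G o 3 = 0 := by
          rw [z3, Matrix.add_mul, Matrix.mul_assoc, Matrix.mul_assoc, s4, s5]; simp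
        rw [KK, zero_smul, add_zero, Matrix.mul_add, z2, Matrix.mul_smul, e3, smul_zero,
          add_zero]
      rw [e0, rows_diag]
      congr 2
      ext j
      rcases j with j | j <;> rfl
    obtain ⟨Q, t, hQ, hs, -⟩ := test_of hG (KK G o 0 (1 / √2)) (KK_supp G o _ _) hrow1
      (fromRows Z0 X1) (fromRows W0 W1)
      (rows_one Z0 X1 z1 hXX1 (by
        rw [z3, Matrix.add_mul, Matrix.mul_assoc, Matrix.mul_assoc, o2, o4]; simp))
      (rows_one W0 W1 hWW0 hWW1 o3) (Sum.elim (fun j => 1 + h0 j / 2) (fun j => h1 j / 3))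
      (by
        rintro (j | j)
        · show 0 ≤ 1 + h0 j / 2
          have := hp0 j; linarith
        · show 0 ≤ h1 j / 3
          have := hp1 j; linarith) hZK l
    rw [Fintype.sum_sum_type] at hs
    exact ⟨Q, t, hQ, hs⟩
  · intro l
    have hZK : Z1 * KK G o 1 0 = diagonal (fun j => √(1 + h1 j / 3)) * W1 := by
      have e3 : Z1 * pr G 1 = 0 := by
        rw [y3, Matrix.add_mul, Matrix.mul_assoc, Matrix.mul_assoc, s11, s6]; simp
      rw [KK, zero_smul, add_zero, one_smul, add_assoc, Matrix.mul_add, y2, e3, zero_add]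
    obtain ⟨Q, t, hQ, hs, -⟩ := test_of hG (KK G o 1 0) (KK_supp G o _ _) hrow2 Z1 W1 y1 hWW1
      (fun j => 1 + h1 j / 3) (fun j => by have := hp1 j; linarith) hZK l
    exact ⟨Q, t, hQ, hs⟩
  · intro l
    obtain ⟨Q, t, hQ, hs, hz⟩ := test_of hG (KK G o 1 0) (KK_supp G o _ _) hrow2 X1 W1 hXX1 hWW1
      (fun j => h1 j / 3) (fun j => by have := hp1 j; linarith) (hX1K 1 0) l
    refine ⟨Q, t, hQ, hs, fun x y hx => hz x y fun j => ?_⟩
    have := congrFun (congrFun s12 j) x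
    rw [pr, Matrix.mul_diagonal, if_neg hx, mul_zero] at this
    exact this.symm

end Pool.Q63.CL
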